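import Pool.Agent.Helper6.WienerIkehara

open MeasureTheory Set Filter Topology Real

namespace Pool.Agent.Helper6

open ArithmeticFunction.vonMangoldt in
/-- Prime number theorem in arithmetic progressions, `ψ(x; q, a) ~ x / φ(q)`. -/
theorem psi_ap {q : ℕ} [NeZero q] {a : ZMod q} (ha : IsUnit a) :
    Tendsto (fun x : ℝ => (∑ k ∈ Finset.Icc 1 ⌊x⌋₊, residueClass a k) / x) atTop
      (𝓝 (1 / (q.totient : ℝ))) := by
  refine wiener_ikehara (C := Real.log 4 + 4) (G := LFunctionResidueClassAux a)
    (residueClass_nonneg a) ?_ (continuousOn_LFunctionResidueClassAux a) ?_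
  · intro x hx
    calc ∑ k ∈ Finset.Icc 1 ⌊x⌋₊, residueClass a k
        ≤ ∑ k ∈ Finset.Icc 1 ⌊x⌋₊, ArithmeticFunction.vonMangoldt k :=
          Finset.sum_le_sum fun k _ => residueClass_le a k
      _ = Chebyshev.psi x := by
          unfold Chebyshev.psi
          apply Finset.sum_congr _ fun _ _ => rfl
          ext k; simp [Nat.succ_le_iff]
      _ ≤ (Real.log 4 + 4) * x := Chebyshev.psi_le_const_mul_self hx
  · intro s hs
    have := eqOn_LFunctionResidueClassAux ha (show s ∈ {s : ℂ | 1 < s.re} from hs)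
    rw [this]
    push_cast
    rw [one_div]

/-- From weighted count to count. -/
theorem count_of_log_sum {P : ℕ → Prop} [DecidablePred P] {c : ℝ}
    (h : Tendsto (fun x : ℝ => (∑ n ∈ (Finset.Icc 1 ⌊x⌋₊).filter P, Real.log n) / x) atTop (𝓝 c)) :
    Tendsto (fun x : ℝ => ((((Finset.Icc 1 ⌊x⌋₊).filter P).card : ℝ) * Real.log x) / x)
      atTop (𝓝 c) := by
  set T : ℝ → ℝ := fun x => ∑ n ∈ (Finset.Icc 1 ⌊x⌋₊).filter P, Real.log n with hT
  set N : ℝ → ℝ := fun x => (((Finset.Icc 1 ⌊x⌋₊).filter P).card : ℝ) with hN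
  have hlow : ∀ x : ℝ, 1 ≤ x → T x / x ≤ N x * Real.log x / x := by
    intro x hx
    apply div_le_div_of_nonneg_right _ (by linarith)
    simp only [hT, hN]
    rw [← nsmul_eq_mul]
    apply Finset.sum_le_card_nsmul
    intro n hn
    simp only [Finset.mem_filter, Finset.mem_Icc] at hn
    apply Real.log_le_log (by exact_mod_cast hn.1.1)
    exact (Nat.le_floor_iff (by linarith)).mp hn.1.2
  have hup : ∀ δ : ℝ, 0 < δ → δ < 1 → ∀ x : ℝ, 1 < x →
      N x * Real.log x / x ≤ (1 - δ)⁻¹ * (T x / x) + Real.log x / x ^ δ := by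
    intro δ hδ hδ1 x hx
    have hx0 : 0 < x := by linarith
    have hlx : 0 < Real.log x := Real.log_pos hx
    -- split
    have h1 : N x ≤ (((Finset.Icc 1 ⌊x⌋₊).filter P).filter (fun n : ℕ => x ^ (1 - δ) < n)).card + x ^ (1 - δ) := by
      simp only [hN]
      rw [← Finset.card_filter_add_card_filter_not (s := (Finset.Icc 1 ⌊x⌋₊).filter P)
        (p := fun n : ℕ => x ^ (1 - δ) < n)]
      push_cast
      gcongr
      have h2 : (((Finset.Icc 1 ⌊x⌋₊).filter P).filter (fun n : ℕ => ¬ x ^ (1 - δ) < n)) ⊆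
          Finset.Icc 1 ⌊x ^ (1 - δ)⌋₊ := by
        intro n hn
        simp only [Finset.mem_filter, Finset.mem_Icc, not_lt] at hn ⊢
        exact ⟨hn.1.1.1, Nat.le_floor hn.2⟩
      calc ((((Finset.Icc 1 ⌊x⌋₊).filter P).filter (fun n : ℕ => ¬ x ^ (1 - δ) < n)).card : ℝ)
          ≤ (Finset.Icc 1 ⌊x ^ (1 - δ)⌋₊).card := by exact_mod_cast Finset.card_le_card h2
        _ = ⌊x ^ (1 - δ)⌋₊ := by simp
        _ ≤ x ^ (1 - δ) := Nat.floor_le (by positivity)
    have h3 : (((Finset.Icc 1 ⌊x⌋₊).filter P).filter (fun n : ℕ => x ^ (1 - δ) < n)).card *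
        ((1 - δ) * Real.log x) ≤ T x := by
      have h4 : (((Finset.Icc 1 ⌊x⌋₊).filter P).filter (fun n : ℕ => x ^ (1 - δ) < n)).card *
        ((1 - δ) * Real.log x) ≤ ∑ n ∈ ((Finset.Icc 1 ⌊x⌋₊).filter P).filter
          (fun n : ℕ => x ^ (1 - δ) < n), Real.log n := by
        rw [← nsmul_eq_mul]
        apply Finset.card_nsmul_le_sum
        intro n hn
        simp only [Finset.mem_filter] at hn
        rw [← Real.log_rpow hx0]
        exact Real.log_le_log (by positivity) hn.2.le
      refine h4.trans ?_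
      apply Finset.sum_le_sum_of_subset_of_nonneg (Finset.filter_subset _ _)
      intro n hn _
      simp only [Finset.mem_filter, Finset.mem_Icc] at hn
      exact Real.log_nonneg (by exact_mod_cast hn.1.1)
    have hd : 0 < 1 - δ := by linarith
    have h5 : ((((Finset.Icc 1 ⌊x⌋₊).filter P).filter (fun n : ℕ => x ^ (1 - δ) < n)).card : ℝ) *
        Real.log x ≤ (1 - δ)⁻¹ * T x := by
      rw [inv_mul_eq_div, le_div_iff₀ hd]
      calc _ = ((((Finset.Icc 1 ⌊x⌋₊).filter P).filter (fun n : ℕ => x ^ (1 - δ) < n)).card : ℝ) *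
        ((1 - δ) * Real.log x) := by ring
        _ ≤ T x := h3
    have h6 : x ^ (1 - δ) * Real.log x / x = Real.log x / x ^ δ := by
      rw [Real.rpow_sub hx0, Real.rpow_one]
      field_simp
    calc N x * Real.log x / x ≤ (((((Finset.Icc 1 ⌊x⌋₊).filter P).filter
          (fun n : ℕ => x ^ (1 - δ) < n)).card : ℝ) + x ^ (1 - δ)) * Real.log x / x := by
          gcongr
      _ = ((((Finset.Icc 1 ⌊x⌋₊).filter P).filter
          (fun n : ℕ => x ^ (1 - δ) < n)).card : ℝ) * Real.log x / x + x ^ (1 - δ) * Real.log x / x := by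
          ring
      _ ≤ (1 - δ)⁻¹ * T x / x + Real.log x / x ^ δ := by
          rw [h6]
          gcongr
      _ = _ := by ring
  rw [tendsto_order]
  rw [tendsto_order] at h
  constructor
  · intro a ha
    filter_upwards [h.1 a ha, eventually_ge_atTop 1] with x hx hx1
    exact hx.trans_le (hlow x hx1)
  · intro a ha
    have h1 : Tendsto (fun δ : ℝ => (1 - δ)⁻¹ * c) (𝓝[>] 0) (𝓝 c) := by
      have : Tendsto (fun δ : ℝ => (1 - δ)⁻¹ * c) (𝓝 0) (𝓝 ((1 - 0)⁻¹ * c)) := by
        apply Tendsto.mul_const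
        apply Tendsto.inv₀ _ (by norm_num)
        apply Continuous.tendsto; fun_prop
      simp only [sub_zero, inv_one, one_mul] at this
      exact this.mono_left nhdsWithin_le_nhds
    obtain ⟨δ, hδ1, hδ2⟩ := ((h1.eventually (gt_mem_nhds ha)).and
      (Ioo_mem_nhdsGT (show (0:ℝ) < 1 by norm_num))).exists
    have h2 : Tendsto (fun x : ℝ => (1 - δ)⁻¹ * (T x / x) + Real.log x / x ^ δ) atTop
        (𝓝 ((1 - δ)⁻¹ * c + 0)) := by
      apply Tendsto.add
      · apply Tendsto.const_mul
        rw [tendsto_order]; exact h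
      · exact (isLittleO_log_rpow_atTop hδ2.1).tendsto_div_nhds_zero
    rw [add_zero] at h2
    filter_upwards [h2.eventually (gt_mem_nhds hδ1), eventually_gt_atTop 1] with x hx hx1
    exact (hup δ hδ2.1 hδ2.2 x hx1).trans_lt hx

open ArithmeticFunction.vonMangoldt in
/-- Prime number theorem in arithmetic progressions, `θ(x; q, a) ~ x / φ(q)`. -/
theorem theta_ap {q : ℕ} [NeZero q] {a : ZMod q} (ha : IsUnit a) :
    Tendsto (fun x : ℝ => (∑ p ∈ (Finset.Icc 1 ⌊x⌋₊).filter
      (fun p : ℕ => p.Prime ∧ (p : ZMod q) = a), Real.log p) / x) atTop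
      (𝓝 (1 / (q.totient : ℝ))) := by
  have h1 := psi_ap ha
  -- the difference tends to zero
  have h2 : Tendsto (fun x : ℝ => (Chebyshev.psi x - Chebyshev.theta x) / x) atTop (𝓝 0) := by
    have h3 := Chebyshev.isBigO_psi_sub_theta_sqrt
    have h4 : (fun x : ℝ => Real.sqrt x) =o[atTop] (fun x : ℝ => x) := by
      rw [Asymptotics.isLittleO_iff_tendsto' (by
        filter_upwards [eventually_gt_atTop 0] with x hx h; exact absurd h hx.ne')]
      have h5 : Tendsto (fun x : ℝ => (Real.sqrt x)⁻¹) atTop (𝓝 0) :=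
        tendsto_inv_atTop_zero.comp Real.tendsto_sqrt_atTop
      refine h5.congr' ?_
      filter_upwards [eventually_gt_atTop 0] with x hx
      rw [Real.sqrt_div_self']
      simp
    exact (h3.trans_isLittleO h4).tendsto_div_nhds_zero
  have h5 : ∀ x : ℝ, 0 < x → |(∑ k ∈ Finset.Icc 1 ⌊x⌋₊, residueClass a k) / x -
      (∑ p ∈ (Finset.Icc 1 ⌊x⌋₊).filter
      (fun p : ℕ => p.Prime ∧ (p : ZMod q) = a), Real.log p) / x| ≤
      (Chebyshev.psi x - Chebyshev.theta x) / x := by
    intro x hx
    have h6 : ∑ k ∈ Finset.Icc 1 ⌊x⌋₊, residueClass a k -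
        ∑ p ∈ (Finset.Icc 1 ⌊x⌋₊).filter (fun p : ℕ => p.Prime ∧ (p : ZMod q) = a), Real.log p
        = ∑ k ∈ Finset.Icc 1 ⌊x⌋₊, (residueClass a k - if (k.Prime ∧ (k : ZMod q) = a) then Real.log k else 0) := by
      rw [Finset.sum_sub_distrib, Finset.sum_filter]
    have h7 : Chebyshev.psi x - Chebyshev.theta x = ∑ k ∈ Finset.Icc 1 ⌊x⌋₊,
        (ArithmeticFunction.vonMangoldt k - if k.Prime then Real.log k else 0) := by
      rw [Finset.sum_sub_distrib, ← Finset.sum_filter]
      unfold Chebyshev.psi Chebyshev.theta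
      congr 1
    rw [← sub_div, h6, abs_div, abs_of_pos hx, h7]
    apply div_le_div_of_nonneg_right _ hx.le
    refine (Finset.abs_sum_le_sum_abs _ _).trans ?_
    apply Finset.sum_le_sum
    intro k _
    by_cases hk : (k : ZMod q) = a
    · have : residueClass a k = ArithmeticFunction.vonMangoldt k := by
        simp [residueClass, hk]
      rw [this]
      by_cases hp : k.Prime
      · simp [hp, hk, ArithmeticFunction.vonMangoldt_apply_prime hp]
      · simp only [hp, false_and, if_false, sub_zero]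
        rw [abs_of_nonneg ArithmeticFunction.vonMangoldt_nonneg]
    · have : residueClass a k = 0 := by
        simp [residueClass, hk]
      rw [this]
      simp only [hk, and_false, if_false, sub_zero, abs_zero]
      by_cases hp : k.Prime
      · simp [hp, ArithmeticFunction.vonMangoldt_apply_prime hp]
      · simp [hp, ArithmeticFunction.vonMangoldt_nonneg]
  have h8 : Tendsto (fun x : ℝ => (∑ k ∈ Finset.Icc 1 ⌊x⌋₊, residueClass a k) / x -
      (∑ p ∈ (Finset.Icc 1 ⌊x⌋₊).filter
      (fun p : ℕ => p.Prime ∧ (p : ZMod q) = a), Real.log p) / x) atTop (𝓝 0) := by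
    apply squeeze_zero_norm' _ h2
    filter_upwards [eventually_gt_atTop 0] with x hx
    exact h5 x hx
  have h9 := h1.sub h8
  simpa using h9

/-- Prime number theorem in arithmetic progressions: `π(x; q, a) log x / x → 1 / φ(q)`. -/
theorem pi_ap_real {q : ℕ} [NeZero q] {a : ZMod q} (ha : IsUnit a) :
    Tendsto (fun x : ℝ => ((((Finset.Icc 1 ⌊x⌋₊).filter
      (fun p : ℕ => p.Prime ∧ (p : ZMod q) = a)).card : ℝ) * Real.log x) / x) atTop
      (𝓝 (1 / (q.totient : ℝ))) := by
  classical
  exact count_of_log_sum (theta_ap ha)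

lemma card_range_filter_eq (P : ℕ → Prop) [DecidablePred P] (h0 : ¬ P 0) (x : ℕ) :
    (Finset.range (x + 1)).filter P = (Finset.Icc 1 x).filter P := by
  ext n
  simp only [Finset.mem_filter, Finset.mem_range, Finset.mem_Icc]
  constructor
  · rintro ⟨h1, h2⟩
    refine ⟨⟨?_, by omega⟩, h2⟩
    rcases Nat.eq_zero_or_pos n with rfl | h
    · exact absurd h2 h0
    · exact h
  · rintro ⟨h1, h2⟩
    exact ⟨by omega, h2⟩

/-- Prime number theorem in arithmetic progressions along naturals. -/
theorem pi_ap_nat {q : ℕ} [NeZero q] {a : ZMod q} (ha : IsUnit a) :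
    Tendsto (fun x : ℕ => ((((Finset.range (x + 1)).filter
      (fun p : ℕ => p.Prime ∧ (p : ZMod q) = a)).card : ℝ) * Real.log x) / x) atTop
      (𝓝 (1 / (q.totient : ℝ))) := by
  have h := (pi_ap_real ha).comp tendsto_natCast_atTop_atTop
  refine h.congr ?_
  intro x
  simp only [Function.comp_apply, Nat.floor_natCast]
  rw [card_range_filter_eq]
  rintro ⟨h1, _⟩
  exact Nat.not_prime_zero h1

/-- **Prime number theorem**: `π(x) log x / x → 1` along naturals. -/
theorem pnt_nat : Tendsto (fun x : ℕ => ((Nat.primeCounting x : ℝ) * Real.log x) / x) atTop (𝓝 1) := by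
  have h := pi_ap_nat (q := 1) (a := 1) isUnit_one
  simp only [Nat.totient_one, Nat.cast_one, div_one] at h
  refine h.congr ?_
  intro x
  congr 3
  rw [Nat.primeCounting, Nat.primeCounting', Nat.count_eq_card_filter_range]
  congr 1
  apply Finset.filter_congr
  intro p _
  constructor
  · exact fun h => h.1
  · exact fun h => ⟨h, Subsingleton.elim _ _⟩

/-- **Prime number theorem**: `π(⌊x⌋) log x / x → 1` along reals. -/
theorem pnt_real : Tendsto (fun x : ℝ => ((Nat.primeCounting ⌊x⌋₊ : ℝ) * Real.log x) / x) atTop (𝓝 1) := by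
  have h := pi_ap_real (q := 1) (a := 1) isUnit_one
  simp only [Nat.totient_one, Nat.cast_one, div_one] at h
  refine h.congr ?_
  intro x
  congr 3
  rw [Nat.primeCounting, Nat.primeCounting', Nat.count_eq_card_filter_range,
    card_range_filter_eq _ Nat.not_prime_zero]
  congr 1
  apply Finset.filter_congr
  intro p _
  constructor
  · exact fun h => h.1
  · exact fun h => ⟨h, Subsingleton.elim _ _⟩

/-- Natural density of primes in a reduced residue class, relative to the primes. -/
theorem prime_ap_density {q : ℕ} [NeZero q] {a : ZMod q} (ha : IsUnit a) :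
    Tendsto (fun x : ℕ => (((Finset.range (x + 1)).filter
      (fun p : ℕ => p.Prime ∧ (p : ZMod q) = a)).card : ℝ) / (Nat.primeCounting x : ℝ)) atTop
      (𝓝 (1 / (q.totient : ℝ))) := by
  have h1 := (pi_ap_nat ha).div pnt_nat one_ne_zero
  rw [div_one] at h1
  refine h1.congr' ?_
  filter_upwards [eventually_ge_atTop 2] with x hx
  have hx0 : (0:ℝ) < x := by exact_mod_cast (by omega : 0 < x)
  have hlog : 0 < Real.log x := Real.log_pos (by exact_mod_cast (by omega : 1 < x))
  have hpi : (0:ℝ) < Nat.primeCounting x := by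
    have : Nat.primeCounting 2 ≤ Nat.primeCounting x := Nat.monotone_primeCounting hx
    have h2 : Nat.primeCounting 2 = 1 := by decide
    exact_mod_cast (by omega : 0 < Nat.primeCounting x)
  simp only [Pi.div_apply]
  field_simp

end Pool.Agent.Helper6
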