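import Pool.Agent.Helper6.PNT

open MeasureTheory Set Filter Topology Real

namespace Pool.Agent.Helper6

/-- geometric scales -/
noncomputable def scl (lam : ℝ) (j : ℕ) : ℕ := ⌊lam ^ j⌋₊

lemma scl_tendsto {lam : ℝ} (h : 1 < lam) : Tendsto (scl lam) atTop atTop :=
  tendsto_nat_floor_atTop.comp (tendsto_pow_atTop_atTop_of_one_lt h)

lemma primeCounting_pos {x : ℕ} (hx : 2 ≤ x) : (0:ℝ) < Nat.primeCounting x := by
  have : Nat.primeCounting 2 ≤ Nat.primeCounting x := Nat.monotone_primeCounting hx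
  have h2 : Nat.primeCounting 2 = 1 := by decide
  exact_mod_cast (by omega : 0 < Nat.primeCounting x)

/-- consecutive scales -/
lemma scl_ratio {lam : ℝ} (h : 1 < lam) :
    Tendsto (fun j : ℕ => (Nat.primeCounting (scl lam (j+1)) : ℝ) / Nat.primeCounting (scl lam j))
      atTop (𝓝 lam) := by
  have hl : 0 < Real.log lam := Real.log_pos h
  have hlam : 0 < lam := by linarith
  have h1 : Tendsto (fun j : ℕ => ((Nat.primeCounting (scl lam j) : ℝ) * (j * Real.log lam)) / lam ^ j)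
      atTop (𝓝 1) := by
    have := pnt_real.comp (tendsto_pow_atTop_atTop_of_one_lt h)
    refine this.congr ?_
    intro j
    simp only [Function.comp_apply, scl, Real.log_pow]
  have h2 := h1.comp (tendsto_add_atTop_nat 1)
  have h3 := h2.div h1 one_ne_zero
  have h4 : Tendsto (fun j : ℕ => lam * ((j:ℝ) / ((j:ℝ) + 1))) atTop (𝓝 (lam * 1)) := by
    apply Tendsto.const_mul
    exact tendsto_natCast_div_add_atTop (1:ℝ)
  have h5 := h3.mul h4
  rw [div_one, one_mul, mul_one] at h5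
  refine h5.congr' ?_
  have h6 : ∀ᶠ j : ℕ in atTop, 2 ≤ scl lam j := (scl_tendsto h).eventually_ge_atTop 2
  filter_upwards [h6, eventually_ge_atTop 1] with j hj hj1
  have hp := primeCounting_pos hj
  have hj0 : (0:ℝ) < j := by exact_mod_cast hj1
  simp only [Function.comp_apply, Pi.div_apply]
  push_cast
  rw [pow_succ]
  field_simp

/-- If `f` is monotone, `0 ≤ f ≤ π`, and `f/π` is close to `δ` at all scales, then `f/π` is close to
`δ` everywhere in the range. -/
theorem scale_reduction (δ : ℝ) (hδ0 : 0 ≤ δ) (hδ1 : δ ≤ 2) (ε : ℝ) (hε : 0 < ε) :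
    ∃ lam : ℝ, 1 < lam ∧ ∃ ε' : ℝ, 0 < ε' ∧ ∃ j₁ : ℕ, ∀ j₀ : ℕ, j₁ ≤ j₀ →
      ∀ f : ℕ → ℝ, Monotone f → (∀ x, 0 ≤ f x) → ∀ J : ℕ, (∀ j, j₀ ≤ j → j ≤ J + 1 →
        |f (scl lam j) / Nat.primeCounting (scl lam j) - δ| ≤ ε') →
      ∀ x : ℕ, lam ^ j₀ ≤ x → (x : ℝ) < lam ^ (J + 1) →
        |f x / Nat.primeCounting x - δ| ≤ ε := by
  -- choose lam, ε' 
  set e : ℝ := min (ε / 16) (1/8) with he
  have he0 : 0 < e := by positivity
  have he1 : e ≤ ε / 16 := min_le_left _ _
  have he2 : e ≤ 1 / 8 := min_le_right _ _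
  refine ⟨1 + e, by linarith, e, he0, ?_⟩
  have hr := scl_ratio (lam := 1 + e) (by linarith)
  have h1 : ∀ᶠ j : ℕ in atTop, (Nat.primeCounting (scl (1+e) (j+1)) : ℝ) /
      Nat.primeCounting (scl (1+e) j) < 1 + 2 * e := by
    apply hr.eventually (gt_mem_nhds (by linarith))
  have h2 : ∀ᶠ j : ℕ in atTop, 2 ≤ scl (1+e) j := (scl_tendsto (by linarith)).eventually_ge_atTop 2
  obtain ⟨j₁, hj₁⟩ := eventually_atTop.mp (h1.and h2)
  refine ⟨j₁, ?_⟩
  intro j₀ hj₁₀
  have hj₀ := fun (j : ℕ) (hj : j₀ ≤ j) => hj₁ j (hj₁₀.trans hj)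
  intro f hf hf0 J hJ x hx1 hx2
  have hlam : (1:ℝ) < 1 + e := by linarith
  have hx1' : (1:ℝ) ≤ x := (one_le_pow₀ hlam.le).trans hx1
  obtain ⟨j, hj1, hj2⟩ := exists_nat_pow_near hx1' hlam
  have hjj₀ : j₀ ≤ j := by
    by_contra hcon
    push Not at hcon
    have : (1+e) ^ (j+1) ≤ (1+e) ^ j₀ := pow_le_pow_right₀ hlam.le hcon
    linarith
  have hjJ : j ≤ J := by
    by_contra hcon
    push Not at hcon
    have : (1+e) ^ (J+1) ≤ (1+e) ^ j := pow_le_pow_right₀ hlam.le hcon
    linarith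
  have hs1 : scl (1+e) j ≤ x := by
    unfold scl
    exact Nat.floor_le_of_le hj1
  have hs2 : x ≤ scl (1+e) (j+1) := by
    unfold scl
    exact Nat.le_floor hj2.le
  obtain ⟨hrat, hge2⟩ := hj₀ j hjj₀
  have hg1 := hJ j hjj₀ (by omega)
  have hg2 := hJ (j+1) (by omega) (by omega)
  have hp1 := primeCounting_pos hge2
  have hpx : (0:ℝ) < Nat.primeCounting x := primeCounting_pos (hge2.trans hs1)
  have hp2 : (0:ℝ) < Nat.primeCounting (scl (1+e) (j+1)) := primeCounting_pos (hge2.trans (hs1.trans hs2))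
  rw [div_lt_iff₀ hp1] at hrat
  have hm1 : (Nat.primeCounting (scl (1+e) j) : ℝ) ≤ Nat.primeCounting x := by
    exact_mod_cast Nat.monotone_primeCounting hs1
  have hm2 : (Nat.primeCounting x : ℝ) ≤ Nat.primeCounting (scl (1+e) (j+1)) := by
    exact_mod_cast Nat.monotone_primeCounting hs2
  have hf1 := hf hs1
  have hf2 := hf hs2
  rw [abs_le] at hg1 hg2 ⊢
  set A := f (scl (1+e) j)
  set B := f (scl (1+e) (j+1))
  set P1 : ℝ := (Nat.primeCounting (scl (1+e) j) : ℝ)
  set P2 : ℝ := (Nat.primeCounting (scl (1+e) (j+1)) : ℝ)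
  set Px : ℝ := (Nat.primeCounting x : ℝ)
  have hA : (δ - e) * P1 ≤ A := by
    have : (δ - e) ≤ A / P1 := by linarith [hg1.1]
    rwa [le_div_iff₀ hp1] at this
  have hB : B ≤ (δ + e) * P2 := by
    have : B / P2 ≤ δ + e := by linarith [hg2.2]
    rwa [div_le_iff₀ hp2] at this
  constructor
  · -- lower bound
    have : δ - ε ≤ f x / Px := by
      rw [le_div_iff₀ hpx]
      by_cases hcase : δ - e ≤ 0
      · have h3 : (δ - ε) * Px ≤ 0 := by
          apply mul_nonpos_of_nonpos_of_nonneg _ hpx.le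
          linarith
        exact h3.trans (hf0 x)
      · push Not at hcase
        -- Px ≤ P2 ≤ (1+2e) P1
        have h3 : Px ≤ (1 + 2 * e) * P1 := hm2.trans hrat.le
        have h4 : (δ - ε) * Px ≤ (δ - e) * P1 := by
          by_cases hc2 : δ - ε ≤ 0
          · have h5 : (δ - ε) * Px ≤ 0 := mul_nonpos_of_nonpos_of_nonneg hc2 hpx.le
            have h6 : 0 ≤ (δ - e) * P1 := by positivity
            linarith
          · push Not at hc2
            calc (δ - ε) * Px ≤ (δ - ε) * ((1 + 2 * e) * P1) := mul_le_mul_of_nonneg_left h3 hc2.le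
              _ = ((δ - ε) * (1 + 2 * e)) * P1 := by ring
              _ ≤ (δ - e) * P1 := by
                apply mul_le_mul_of_nonneg_right _ hp1.le
                nlinarith
        linarith
    linarith
  · have : f x / Px ≤ δ + ε := by
      rw [div_le_iff₀ hpx]
      calc f x ≤ B := hf2
        _ ≤ (δ + e) * P2 := hB
        _ ≤ (δ + e) * ((1 + 2 * e) * P1) := by
          apply mul_le_mul_of_nonneg_left hrat.le (by linarith)
        _ = ((δ + e) * (1 + 2 * e)) * P1 := by ring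
        _ ≤ (δ + ε) * P1 := by
          apply mul_le_mul_of_nonneg_right _ hp1.le
          nlinarith
        _ ≤ (δ + ε) * Px := by
          apply mul_le_mul_of_nonneg_left hm1 (by linarith)
    linarith

end Pool.Agent.Helper6
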