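import Mathlib

namespace Pool.Agent.Helper6

/-- number of primes `p ≤ x` for which `n` is a primitive root -/
noncomputable def artinP (n : ℤ) (x : ℕ) : ℝ :=
  (((Finset.range (x + 1)).filter
    (fun p : ℕ => p.Prime ∧ orderOf (n : ZMod p) = p - 1)).card : ℝ)

/-- deviation from the expected count, for `n = b m ^ 2` -/
noncomputable def artinD (b : ℤ) (m x : ℕ) : ℝ :=
  ∑ p ∈ (Finset.range (x+1)).filter (fun p : ℕ => p.Prime ∧ p ≠ 2 ∧ ¬ ((p:ℤ) ∣ b * m)),
    ((if orderOf ((b * (m:ℤ)^2 : ℤ) : ZMod p) = p - 1 then (1:ℝ) else 0) -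
      ((Nat.totient (p-1) : ℝ)/((p-1 : ℕ):ℝ)) * (1 - (jacobiSym b p : ℝ)))

/-- expected count -/
noncomputable def artinE (b : ℤ) (x : ℕ) : ℝ :=
  ∑ p ∈ (Finset.range (x+1)).filter (fun p : ℕ => p.Prime ∧ p ≠ 2),
    ((Nat.totient (p-1) : ℝ)/((p-1 : ℕ):ℝ)) * (1 - (jacobiSym b p : ℝ))

/-- number of primes `p ≤ x` dividing `m` -/
noncomputable def omegaX (m x : ℕ) : ℝ :=
  (((Finset.range (x + 1)).filter (fun p : ℕ => p.Prime ∧ p ∣ m)).card : ℝ)

lemma artinMain_bounds (b : ℤ) (p : ℕ) :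
    0 ≤ ((Nat.totient (p-1) : ℝ)/((p-1 : ℕ):ℝ)) * (1 - (jacobiSym b p : ℝ)) ∧
    ((Nat.totient (p-1) : ℝ)/((p-1 : ℕ):ℝ)) * (1 - (jacobiSym b p : ℝ)) ≤ 2 := by
  have h1 : 0 ≤ ((Nat.totient (p-1) : ℝ)/((p-1 : ℕ):ℝ)) := by positivity
  have h2 : ((Nat.totient (p-1) : ℝ)/((p-1 : ℕ):ℝ)) ≤ 1 := by
    apply div_le_one_of_le₀ _ (Nat.cast_nonneg _)
    exact_mod_cast Nat.totient_le _
  have h3 : (jacobiSym b p : ℝ) ≤ 1 ∧ -1 ≤ (jacobiSym b p : ℝ) := by
    rcases jacobiSym.trichotomy b p with h | h | h <;> rw [h] <;> norm_num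
  constructor
  · apply mul_nonneg h1; linarith
  · calc _ ≤ 1 * (1 - (jacobiSym b p : ℝ)) := by
          apply mul_le_mul_of_nonneg_right h2; linarith
      _ ≤ 2 := by linarith

lemma artin_decomp (b : ℤ) (hb : b ≠ 0) (m x : ℕ) :
    |artinP (b * (m:ℤ)^2) x - artinE b x - artinD b m x| ≤
      1 + 2 * (b.natAbs.primeFactors.card + omegaX m x) := by
  classical
  set ind : ℕ → ℝ := fun p => if orderOf ((b * (m:ℤ)^2 : ℤ) : ZMod p) = p - 1 then (1:ℝ) else 0 with hind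
  set mn : ℕ → ℝ := fun p => ((Nat.totient (p-1) : ℝ)/((p-1 : ℕ):ℝ)) * (1 - (jacobiSym b p : ℝ)) with hmn
  have hP : artinP (b * (m:ℤ)^2) x = ∑ p ∈ (Finset.range (x+1)).filter (fun p : ℕ => p.Prime), ind p := by
    unfold artinP
    rw [← Finset.filter_filter, Finset.card_filter]
    simp only [hind]
    push_cast
    rfl
  set S := (Finset.range (x+1)).filter (fun p : ℕ => p.Prime) with hS
  have hsplit1 : ∑ p ∈ S, ind p = ∑ p ∈ S.filter (fun p => p = 2), ind p +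
      ∑ p ∈ S.filter (fun p => ¬ p = 2), ind p := (Finset.sum_filter_add_sum_filter_not _ _ _).symm
  have hE : artinE b x = ∑ p ∈ S.filter (fun p => ¬ p = 2), mn p := by
    unfold artinE
    rw [hS, Finset.filter_filter]
  have hD : artinD b m x = ∑ p ∈ (S.filter (fun p => ¬ p = 2)).filter (fun p : ℕ => ¬ ((p:ℤ) ∣ b * m)), (ind p - mn p) := by
    unfold artinD
    rw [hS, Finset.filter_filter, Finset.filter_filter]
  have hsplit2 : ∑ p ∈ S.filter (fun p => ¬ p = 2), (ind p - mn p) =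
      ∑ p ∈ (S.filter (fun p => ¬ p = 2)).filter (fun p : ℕ => ((p:ℤ) ∣ b * m)), (ind p - mn p) +
      ∑ p ∈ (S.filter (fun p => ¬ p = 2)).filter (fun p : ℕ => ¬ ((p:ℤ) ∣ b * m)), (ind p - mn p) :=
    (Finset.sum_filter_add_sum_filter_not _ _ _).symm
  have key : artinP (b * (m:ℤ)^2) x - artinE b x - artinD b m x =
      ∑ p ∈ S.filter (fun p => p = 2), ind p +
      ∑ p ∈ (S.filter (fun p => ¬ p = 2)).filter (fun p : ℕ => ((p:ℤ) ∣ b * m)), (ind p - mn p) := by
    rw [hP, hE, hD, hsplit1]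
    rw [Finset.sum_sub_distrib] at hsplit2
    linarith
  rw [key]
  have hb1 : |∑ p ∈ S.filter (fun p => p = 2), ind p| ≤ 1 := by
    have h1 : S.filter (fun p => p = 2) ⊆ {2} := by
      intro p hp
      simp only [Finset.mem_filter] at hp
      simp [hp.2]
    calc |∑ p ∈ S.filter (fun p => p = 2), ind p| ≤ ∑ p ∈ S.filter (fun p => p = 2), |ind p| :=
          Finset.abs_sum_le_sum_abs _ _
      _ ≤ ∑ p ∈ ({2} : Finset ℕ), |ind p| :=
          Finset.sum_le_sum_of_subset_of_nonneg h1 fun _ _ _ => abs_nonneg _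
      _ = |ind 2| := Finset.sum_singleton _ _
      _ ≤ 1 := by simp only [hind]; split_ifs <;> simp
  have hb2 : |∑ p ∈ (S.filter (fun p => ¬ p = 2)).filter (fun p : ℕ => ((p:ℤ) ∣ b * m)), (ind p - mn p)| ≤
      2 * (b.natAbs.primeFactors.card + omegaX m x) := by
    have h1 : ∀ p, |ind p - mn p| ≤ 2 := by
      intro p
      have hb := artinMain_bounds b p
      rw [abs_le]
      simp only [hind, hmn]
      split_ifs <;> constructor <;> linarith [hb.1, hb.2]
    have h2 : (S.filter (fun p => ¬ p = 2)).filter (fun p : ℕ => ((p:ℤ) ∣ b * m)) ⊆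
        b.natAbs.primeFactors ∪ (Finset.range (x + 1)).filter (fun p : ℕ => p.Prime ∧ p ∣ m) := by
      intro p hp
      simp only [hS, Finset.mem_filter] at hp
      obtain ⟨⟨⟨hr, hpp⟩, _⟩, hd⟩ := hp
      have : Prime (p:ℤ) := Nat.prime_iff_prime_int.mp hpp
      rcases this.dvd_or_dvd hd with h | h
      · apply Finset.mem_union_left
        rw [Nat.mem_primeFactors]
        exact ⟨hpp, Int.natCast_dvd.mp h, by simpa using hb⟩
      · apply Finset.mem_union_right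
        simp only [Finset.mem_filter]
        exact ⟨hr, hpp, by exact_mod_cast h⟩
    calc _ ≤ ∑ p ∈ (S.filter (fun p => ¬ p = 2)).filter (fun p : ℕ => ((p:ℤ) ∣ b * m)), |ind p - mn p| :=
          Finset.abs_sum_le_sum_abs _ _
      _ ≤ ∑ p ∈ (S.filter (fun p => ¬ p = 2)).filter (fun p : ℕ => ((p:ℤ) ∣ b * m)), (2:ℝ) :=
          Finset.sum_le_sum fun p _ => h1 p
      _ = ((S.filter (fun p => ¬ p = 2)).filter (fun p : ℕ => ((p:ℤ) ∣ b * m))).card * 2 := by
          simp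
      _ ≤ ((b.natAbs.primeFactors.card + omegaX m x)) * 2 := by
          apply mul_le_mul_of_nonneg_right _ (by norm_num)
          unfold omegaX
          calc (((S.filter (fun p => ¬ p = 2)).filter (fun p : ℕ => ((p:ℤ) ∣ b * m))).card : ℝ)
              ≤ ((b.natAbs.primeFactors ∪ (Finset.range (x + 1)).filter (fun p : ℕ => p.Prime ∧ p ∣ m)).card : ℝ) := by
                exact_mod_cast Finset.card_le_card h2
            _ ≤ _ := by exact_mod_cast Finset.card_union_le _ _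
      _ = _ := by ring
  calc |_| ≤ |∑ p ∈ S.filter (fun p => p = 2), ind p| + |∑ p ∈ (S.filter (fun p => ¬ p = 2)).filter (fun p : ℕ => ((p:ℤ) ∣ b * m)), (ind p - mn p)| := abs_add_le _ _
    _ ≤ _ := by linarith

end Pool.Agent.Helper6
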