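import Pool.Agent.Helper6.PNT

open MeasureTheory Set Filter Topology Real

namespace Pool.Agent.Helper6

open ArithmeticFunction in
lemma sum_divisor_sum (g : ℕ → ℝ) (M : ℕ) :
    ∑ m ∈ Finset.Icc 1 M, ∑ d ∈ m.divisors, g d = ∑ d ∈ Finset.Icc 1 M, g d * ((M / d : ℕ) : ℝ) := by
  have h1 : ∀ m ∈ Finset.Icc 1 M, ∑ d ∈ m.divisors, g d =
      ∑ d ∈ Finset.Icc 1 M, if d ∣ m then g d else 0 := by
    intro m hm
    rw [Finset.mem_Icc] at hm
    rw [← Finset.sum_filter]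
    apply Finset.sum_congr _ fun _ _ => rfl
    ext d
    simp only [Nat.mem_divisors, Finset.mem_filter, Finset.mem_Icc]
    constructor
    · rintro ⟨h1, h2⟩
      exact ⟨⟨Nat.pos_of_dvd_of_pos h1 (by omega), (Nat.le_of_dvd (by omega) h1).trans hm.2⟩, h1⟩
    · rintro ⟨_, h2⟩
      exact ⟨h2, by omega⟩
  rw [Finset.sum_congr rfl h1, Finset.sum_comm]
  apply Finset.sum_congr rfl
  intro d hd
  rw [← Finset.sum_filter, Finset.sum_const, nsmul_eq_mul, mul_comm]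
  congr 2
  have := Nat.Ioc_filter_dvd_card_eq_div M d
  rw [← this]
  congr 1

open ArithmeticFunction in
lemma mertens_upper : ∃ C : ℝ, ∀ N : ℕ, 1 ≤ N →
    ∑ d ∈ Finset.Icc 1 N, vonMangoldt d / d ≤ Real.log N + C := by
  refine ⟨Real.log 4 + 4, ?_⟩
  intro N hN
  have hN0 : (0:ℝ) < N := by exact_mod_cast hN
  have h1 : ∑ m ∈ Finset.Icc 1 N, Real.log m = ∑ d ∈ Finset.Icc 1 N, vonMangoldt d * ((N / d : ℕ) : ℝ) := by
    rw [← sum_divisor_sum]
    apply Finset.sum_congr rfl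
    intro m _
    exact vonMangoldt_sum.symm
  have h2 : ∑ m ∈ Finset.Icc 1 N, Real.log m ≤ N * Real.log N := by
    calc ∑ m ∈ Finset.Icc 1 N, Real.log m ≤ ∑ m ∈ Finset.Icc 1 N, Real.log N := by
          apply Finset.sum_le_sum
          intro m hm
          rw [Finset.mem_Icc] at hm
          exact Real.log_le_log (by exact_mod_cast hm.1) (by exact_mod_cast hm.2)
      _ = N * Real.log N := by simp
  have h3 : N * ∑ d ∈ Finset.Icc 1 N, vonMangoldt d / d ≤
      ∑ d ∈ Finset.Icc 1 N, vonMangoldt d * ((N / d : ℕ) : ℝ) + ∑ d ∈ Finset.Icc 1 N, vonMangoldt d := by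
    rw [Finset.mul_sum, ← Finset.sum_add_distrib]
    apply Finset.sum_le_sum
    intro d hd
    rw [Finset.mem_Icc] at hd
    have hd0 : (0:ℝ) < d := by exact_mod_cast hd.1
    have h4 : (N:ℝ) / d ≤ ((N / d : ℕ) : ℝ) + 1 := by
      have := Nat.lt_floor_add_one ((N:ℝ) / d)
      rw [Nat.floor_div_natCast, Nat.floor_natCast] at this
      exact this.le
    calc (N:ℝ) * (vonMangoldt d / d) = vonMangoldt d * ((N:ℝ) / d) := by ring
      _ ≤ vonMangoldt d * (((N / d : ℕ) : ℝ) + 1) :=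
          mul_le_mul_of_nonneg_left h4 vonMangoldt_nonneg
      _ = _ := by ring
  have h5 : ∑ d ∈ Finset.Icc 1 N, vonMangoldt d ≤ (Real.log 4 + 4) * N := by
    have h6 := Chebyshev.psi_le_const_mul_self (x := N) (Nat.cast_nonneg N)
    rw [Chebyshev.psi_eq_sum_Icc] at h6
    simp only [Nat.floor_natCast] at h6
    refine le_trans ?_ h6
    apply Finset.sum_le_sum_of_subset_of_nonneg
    · intro a ha
      simp only [Finset.mem_Icc] at ha ⊢
      omega
    · intro i _ _; exact vonMangoldt_nonneg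
  have h7 : N * ∑ d ∈ Finset.Icc 1 N, vonMangoldt d / d ≤ N * (Real.log N + (Real.log 4 + 4)) := by
    rw [← h1] at h3
    linarith
  exact le_of_mul_le_mul_left h7 hN0

open ArithmeticFunction in
lemma nonprime_sum : ∃ C : ℝ, ∀ N : ℕ,
    ∑ d ∈ Finset.Icc 1 N, (if d.Prime then 0 else vonMangoldt d) / (d:ℝ) ≤ C := by
  have h := vonMangoldt.summable_residueClass_non_primes_div (1 : ZMod 1)
  refine ⟨∑' n : ℕ, (if n.Prime then 0 else vonMangoldt.residueClass (1 : ZMod 1) n) / (n:ℝ), ?_⟩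
  intro N
  have h2 : ∀ n : ℕ, vonMangoldt.residueClass (1 : ZMod 1) n = vonMangoldt n := by
    intro n
    simp only [vonMangoldt.residueClass]
    rw [Set.indicator_of_mem]
    exact Subsingleton.elim _ _
  simp_rw [h2] at h ⊢
  apply h.sum_le_tsum
  intro n _
  split_ifs
  · simp
  · exact div_nonneg vonMangoldt_nonneg (Nat.cast_nonneg n)

open ArithmeticFunction in
lemma smooth_log_sum : ∃ C : ℝ, ∀ M y : ℕ, 1 ≤ y → y ≤ M → ∀ A : Finset ℕ, A ⊆ Finset.Icc 1 M →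
    (∀ m ∈ A, ∀ p : ℕ, p.Prime → p ∣ m → p ≤ y) →
    ∑ m ∈ A, Real.log m ≤ M * (Real.log y + C) := by
  obtain ⟨C1, hC1⟩ := mertens_upper
  obtain ⟨C2, hC2⟩ := nonprime_sum
  refine ⟨C1 + C2, ?_⟩
  intro M y hy hyM A hA hsm
  set g : ℕ → ℝ := fun d => (if d ≤ y then vonMangoldt d else 0) +
    (if d.Prime then 0 else vonMangoldt d) with hg
  have hg0 : ∀ d, 0 ≤ g d := by
    intro d
    simp only [hg]
    apply add_nonneg
    · split_ifs
      · exact vonMangoldt_nonneg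
      · exact le_rfl
    · split_ifs
      · exact le_rfl
      · exact vonMangoldt_nonneg
  have h1 : ∑ m ∈ A, Real.log m ≤ ∑ m ∈ A, ∑ d ∈ m.divisors, g d := by
    apply Finset.sum_le_sum
    intro m hm
    rw [← vonMangoldt_sum]
    apply Finset.sum_le_sum
    intro d hd
    have hdm := Nat.dvd_of_mem_divisors hd
    simp only [hg]
    by_cases hp : d.Prime
    · have := hsm m hm d hp hdm
      simp [hp, this]
    · simp only [hp, if_false]
      split_ifs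
      · linarith [vonMangoldt_nonneg (n := d)]
      · linarith
  have h2 : ∑ m ∈ A, ∑ d ∈ m.divisors, g d ≤ ∑ m ∈ Finset.Icc 1 M, ∑ d ∈ m.divisors, g d := by
    apply Finset.sum_le_sum_of_subset_of_nonneg hA
    intro i _ _
    exact Finset.sum_nonneg fun d _ => hg0 d
  rw [sum_divisor_sum] at h2
  have h3 : ∑ d ∈ Finset.Icc 1 M, g d * ((M / d : ℕ) : ℝ) ≤ ∑ d ∈ Finset.Icc 1 M, g d * ((M:ℝ) / d) := by
    apply Finset.sum_le_sum
    intro d _
    apply mul_le_mul_of_nonneg_left _ (hg0 d)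
    exact Nat.cast_div_le
  have h4 : ∑ d ∈ Finset.Icc 1 M, g d * ((M:ℝ) / d) = M * (∑ d ∈ Finset.Icc 1 M, g d / d) := by
    rw [Finset.mul_sum]
    apply Finset.sum_congr rfl
    intro d _
    ring
  have h5 : ∑ d ∈ Finset.Icc 1 M, g d / d = ∑ d ∈ Finset.Icc 1 M, (if d ≤ y then vonMangoldt d else 0) / (d:ℝ)
      + ∑ d ∈ Finset.Icc 1 M, (if d.Prime then 0 else vonMangoldt d) / (d:ℝ) := by
    rw [← Finset.sum_add_distrib]
    apply Finset.sum_congr rfl
    intro d _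
    simp only [hg]
    ring
  have h6 : ∑ d ∈ Finset.Icc 1 M, (if d ≤ y then vonMangoldt d else 0) / (d:ℝ) =
      ∑ d ∈ Finset.Icc 1 y, vonMangoldt d / (d:ℝ) := by
    have : ∀ d ∈ Finset.Icc 1 M, (if d ≤ y then vonMangoldt d else 0) / (d:ℝ) =
        if d ≤ y then vonMangoldt d / (d:ℝ) else 0 := by
      intro d _
      split_ifs <;> simp
    rw [Finset.sum_congr rfl this, ← Finset.sum_filter]
    apply Finset.sum_congr _ fun _ _ => rfl
    ext d
    simp only [Finset.mem_filter, Finset.mem_Icc]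
    omega
  have h7 := hC1 y hy
  have h8 := hC2 M
  calc ∑ m ∈ A, Real.log m ≤ M * (∑ d ∈ Finset.Icc 1 M, g d / d) := by
        rw [← h4]; exact h1.trans (h2.trans h3)
    _ ≤ M * (Real.log y + (C1 + C2)) := by
        apply mul_le_mul_of_nonneg_left _ (Nat.cast_nonneg M)
        rw [h5, h6]
        linarith

/-- Few integers `m ≤ M` are `M^κ`-smooth when `κ` is small. -/
theorem smooth_count (η : ℝ) (hη : 0 < η) : ∃ κ : ℝ, 0 < κ ∧ κ < 1 ∧ ∀ᶠ M : ℕ in atTop,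
    ∀ A : Finset ℕ, A ⊆ Finset.Icc 1 M →
    (∀ m ∈ A, ∀ p : ℕ, p.Prime → p ∣ m → (p:ℝ) ≤ (M:ℝ) ^ κ) → (A.card : ℝ) ≤ η * M := by
  obtain ⟨C, hC⟩ := smooth_log_sum
  set κ : ℝ := min (η / 8) (1/2) with hκ
  have hκ0 : 0 < κ := by positivity
  have hκ1 : κ ≤ η / 8 := min_le_left _ _
  have hκ2 : κ ≤ 1/2 := min_le_right _ _
  refine ⟨κ, hκ0, by linarith, ?_⟩
  have e1 : ∀ᶠ M : ℕ in atTop, 2 * |C| / Real.log M ≤ η / 4 := by
    have : Tendsto (fun M : ℕ => 2 * |C| / Real.log M) atTop (𝓝 0) :=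
      (Real.tendsto_log_atTop.comp tendsto_natCast_atTop_atTop).const_div_atTop _
    exact (this.eventually (gt_mem_nhds (by positivity : (0:ℝ) < η/4))).mono fun _ h => h.le
  have e2 : ∀ᶠ M : ℕ in atTop, (M:ℝ) ^ (-(1/2) : ℝ) ≤ η / 4 := by
    have : Tendsto (fun M : ℕ => (M:ℝ) ^ (-(1/2) : ℝ)) atTop (𝓝 0) :=
      (tendsto_rpow_neg_atTop (by norm_num)).comp tendsto_natCast_atTop_atTop
    exact (this.eventually (gt_mem_nhds (by positivity : (0:ℝ) < η/4))).mono fun _ h => h.le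
  filter_upwards [e1, e2, eventually_ge_atTop 3] with M h1 h2 hM3
  intro A hA hsm
  have hM0 : (0:ℝ) < M := by exact_mod_cast (by omega : 0 < M)
  have hM1 : (1:ℝ) ≤ M := by exact_mod_cast (by omega : 1 ≤ M)
  have hlogM : 0 < Real.log M := Real.log_pos (by exact_mod_cast (by omega : 1 < M))
  -- y
  set y : ℕ := ⌊(M:ℝ) ^ κ⌋₊ with hy
  have hy1 : 1 ≤ y := by
    apply Nat.le_floor
    simpa using Real.one_le_rpow hM1 hκ0.le
  have hyM : y ≤ M := by
    apply Nat.floor_le_of_le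
    calc (M:ℝ) ^ κ ≤ (M:ℝ) ^ (1:ℝ) := Real.rpow_le_rpow_of_exponent_le hM1 (by linarith)
      _ = M := Real.rpow_one _
  have h3 := hC M y hy1 hyM A hA (fun m hm p hp hpm => Nat.le_floor (hsm m hm p hp hpm))
  have hlogy : Real.log y ≤ κ * Real.log M := by
    rw [← Real.log_rpow hM0]
    apply Real.log_le_log (by exact_mod_cast hy1)
    exact Nat.floor_le (by positivity)
  -- split A
  have h4 : (A.card : ℝ) ≤ (A.filter (fun m : ℕ => (M:ℝ) ^ (1/2 : ℝ) < m)).card + (M:ℝ) ^ (1/2 : ℝ) := by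
    rw [← Finset.card_filter_add_card_filter_not (s := A) (p := fun m : ℕ => (M:ℝ) ^ (1/2 : ℝ) < m)]
    push_cast
    gcongr
    have h5 : A.filter (fun m : ℕ => ¬ (M:ℝ) ^ (1/2 : ℝ) < m) ⊆ Finset.Icc 1 ⌊(M:ℝ) ^ (1/2 : ℝ)⌋₊ := by
      intro n hn
      simp only [Finset.mem_filter, not_lt] at hn
      rw [Finset.mem_Icc]
      exact ⟨(Finset.mem_Icc.mp (hA hn.1)).1, Nat.le_floor hn.2⟩
    calc ((A.filter (fun m : ℕ => ¬ (M:ℝ) ^ (1/2 : ℝ) < m)).card : ℝ)
        ≤ (Finset.Icc 1 ⌊(M:ℝ) ^ (1/2 : ℝ)⌋₊).card := by exact_mod_cast Finset.card_le_card h5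
      _ = ⌊(M:ℝ) ^ (1/2 : ℝ)⌋₊ := by simp
      _ ≤ (M:ℝ) ^ (1/2 : ℝ) := Nat.floor_le (by positivity)
  have h6 : (A.filter (fun m : ℕ => (M:ℝ) ^ (1/2 : ℝ) < m)).card * ((1/2) * Real.log M) ≤
      ∑ m ∈ A, Real.log m := by
    have h7 : (A.filter (fun m : ℕ => (M:ℝ) ^ (1/2 : ℝ) < m)).card * ((1/2) * Real.log M) ≤
        ∑ m ∈ A.filter (fun m : ℕ => (M:ℝ) ^ (1/2 : ℝ) < m), Real.log m := by
      rw [← nsmul_eq_mul]
      apply Finset.card_nsmul_le_sum
      intro n hn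
      simp only [Finset.mem_filter] at hn
      rw [← Real.log_rpow hM0]
      exact Real.log_le_log (by positivity) hn.2.le
    refine h7.trans ?_
    apply Finset.sum_le_sum_of_subset_of_nonneg (Finset.filter_subset _ _)
    intro n hn _
    exact Real.log_nonneg (by exact_mod_cast (Finset.mem_Icc.mp (hA hn)).1)
  have h8 : ((A.filter (fun m : ℕ => (M:ℝ) ^ (1/2 : ℝ) < m)).card : ℝ) ≤
      M * (2 * κ + 2 * |C| / Real.log M) := by
    have h9 : ((A.filter (fun m : ℕ => (M:ℝ) ^ (1/2 : ℝ) < m)).card : ℝ) * ((1/2) * Real.log M) ≤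
        M * (2 * κ + 2 * |C| / Real.log M) * ((1/2) * Real.log M) := by
      calc _ ≤ ∑ m ∈ A, Real.log m := h6
        _ ≤ M * (Real.log y + C) := h3
        _ ≤ M * (κ * Real.log M + |C|) := by
          apply mul_le_mul_of_nonneg_left _ hM0.le
          linarith [le_abs_self C]
        _ = _ := by field_simp
    exact le_of_mul_le_mul_right h9 (by positivity)
  have h10 : (M:ℝ) ^ (1/2 : ℝ) = M * (M:ℝ) ^ (-(1/2) : ℝ) := by
    rw [← Real.rpow_one_add' hM0.le (by norm_num)]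
    norm_num
  calc (A.card : ℝ) ≤ M * (2 * κ + 2 * |C| / Real.log M) + M * (M:ℝ) ^ (-(1/2) : ℝ) := by
        rw [← h10]; linarith
    _ ≤ M * (2 * (η/8) + η/4) + M * (η / 4) := by gcongr
    _ ≤ η * M := by nlinarith

end Pool.Agent.Helper6
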