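import Pool.Agent.Helper6.ArtinDefs
import Pool.Agent.Helper6.Smooth
import Pool.Agent.Helper6.Scales

open MeasureTheory Set Filter Topology Real

namespace Pool.Agent.Helper6

lemma pi_lower : ∃ X₁ : ℕ, 3 ≤ X₁ ∧ ∀ x : ℕ, X₁ ≤ x → (x:ℝ) / (2 * Real.log x) ≤ Nat.primeCounting x := by
  have h1 : ∀ᶠ x : ℕ in atTop, 1/2 < ((Nat.primeCounting x : ℝ) * Real.log x) / x :=
    pnt_nat.eventually (lt_mem_nhds (by norm_num))
  obtain ⟨X, hX⟩ := eventually_atTop.mp (h1.and (eventually_ge_atTop 3))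
  refine ⟨max X 3, le_max_right _ _, ?_⟩
  intro x hx
  obtain ⟨h2, h3⟩ := hX x ((le_max_left _ _).trans hx)
  have hx0 : (0:ℝ) < x := by exact_mod_cast (by omega : 0 < x)
  have hlog : 0 < Real.log x := Real.log_pos (by exact_mod_cast (by omega : 1 < x))
  rw [lt_div_iff₀ hx0] at h2
  rw [div_le_iff₀ (by positivity)]
  linarith

lemma summable_scales {lam : ℝ} (h : 1 < lam) :
    Summable (fun j : ℕ => (1 + Real.log (scl lam j)) ^ 5 / (scl lam j : ℝ)) := by
  have h1 : (fun x : ℝ => (1 + Real.log x) ^ 5 / x) =O[atTop] (fun x : ℝ => x ^ (-(1/2) : ℝ)) := by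
    have h2 : (fun x : ℝ => (1 + Real.log x)) =O[atTop] (fun x : ℝ => x ^ (1/10 : ℝ)) := by
      apply Asymptotics.IsBigO.add
      · apply Asymptotics.IsBigO.of_bound 1
        filter_upwards [eventually_ge_atTop 1] with x hx
        rw [one_mul, norm_one, Real.norm_of_nonneg (by positivity)]
        exact Real.one_le_rpow hx (by norm_num)
      · exact (isLittleO_log_rpow_atTop (by norm_num)).isBigO
    have h3 := (h2.pow 5).mul (Asymptotics.isBigO_refl (fun x : ℝ => x⁻¹) atTop)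
    refine h3.congr' ?_ ?_
    · filter_upwards with x
      rw [div_eq_mul_inv]
    · filter_upwards [eventually_gt_atTop 0] with x hx
      rw [← Real.rpow_natCast, ← Real.rpow_mul hx.le, ← Real.rpow_neg_one, ← Real.rpow_add hx]
      norm_num
  have h4 := h1.comp_tendsto (tendsto_natCast_atTop_atTop.comp (scl_tendsto h))
  have h5 : Summable (fun j : ℕ => Real.sqrt 2 * (lam ^ (-(1/2) : ℝ)) ^ j) := by
    apply Summable.mul_left
    apply summable_geometric_of_lt_one (by positivity)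
    exact Real.rpow_lt_one_of_one_lt_of_neg h (by norm_num)
  have h6 : ((fun x : ℝ => x ^ (-(1/2) : ℝ)) ∘ (fun n : ℕ => (n:ℝ)) ∘ scl lam) =O[atTop]
      (fun j : ℕ => Real.sqrt 2 * (lam ^ (-(1/2) : ℝ)) ^ j) := by
    apply Asymptotics.IsBigO.of_bound 1
    filter_upwards with j
    simp only [Function.comp_apply]
    have hlj : 1 ≤ lam ^ j := one_le_pow₀ h.le
    have hs : lam ^ j / 2 ≤ (scl lam j : ℝ) := by
      unfold scl
      have h7 := Nat.lt_floor_add_one (lam ^ j)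
      have h8 : (1:ℝ) ≤ ⌊lam ^ j⌋₊ := by
        exact_mod_cast Nat.le_floor (by simpa using hlj)
      linarith
    rw [one_mul, Real.norm_of_nonneg (by positivity), Real.norm_of_nonneg (by positivity)]
    calc (scl lam j : ℝ) ^ (-(1/2) : ℝ) ≤ (lam ^ j / 2) ^ (-(1/2) : ℝ) :=
          Real.rpow_le_rpow_of_nonpos (by positivity) hs (by norm_num)
      _ = Real.sqrt 2 * (lam ^ (-(1/2) : ℝ)) ^ j := by
          rw [Real.div_rpow (by positivity) (by norm_num), ← Real.rpow_natCast lam j, ← Real.rpow_mul (by positivity),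
            ← Real.rpow_natCast, ← Real.rpow_mul (by positivity), Real.sqrt_eq_rpow,
            Real.rpow_neg (by norm_num : (0:ℝ) ≤ 2)]
          rw [mul_comm (j:ℝ)]
          field_simp
  exact summable_of_isBigO_nat h5 (h4.trans h6)

lemma omega_count (x M : ℕ) (hx : 1 ≤ x) (E : Finset ℕ) (hE : E ⊆ Finset.Icc 1 M) (T : ℝ) (hT : 0 < T)
    (h : ∀ m ∈ E, T < omegaX m x) : (E.card : ℝ) ≤ M * (1 + Real.log x) / T := by
  rw [le_div_iff₀ hT]
  have h1 : (E.card : ℝ) * T ≤ ∑ m ∈ E, omegaX m x := by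
    rw [← nsmul_eq_mul]
    apply Finset.card_nsmul_le_sum
    intro m hm
    exact (h m hm).le
  have h2 : ∑ m ∈ E, omegaX m x ≤ ∑ m ∈ Finset.Icc 1 M, omegaX m x := by
    apply Finset.sum_le_sum_of_subset_of_nonneg hE
    intro m _ _
    unfold omegaX
    positivity
  have h3 : ∑ m ∈ Finset.Icc 1 M, omegaX m x = ∑ p ∈ (Finset.range (x+1)).filter Nat.Prime,
      (((Finset.Icc 1 M).filter (fun m => p ∣ m)).card : ℝ) := by
    have : ∀ m ∈ Finset.Icc 1 M, omegaX m x = ∑ p ∈ (Finset.range (x+1)).filter Nat.Prime,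
        if p ∣ m then (1:ℝ) else 0 := by
      intro m _
      unfold omegaX
      rw [← Finset.filter_filter, Finset.card_filter]
      push_cast
      rfl
    rw [Finset.sum_congr rfl this, Finset.sum_comm]
    apply Finset.sum_congr rfl
    intro p _
    rw [Finset.card_filter]
    push_cast
    rfl
  have h4 : ∀ p ∈ (Finset.range (x+1)).filter Nat.Prime,
      (((Finset.Icc 1 M).filter (fun m => p ∣ m)).card : ℝ) ≤ M * ((p:ℝ)⁻¹) := by
    intro p hp
    have h5 := Nat.Ioc_filter_dvd_card_eq_div M p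
    have h6 : (Finset.Icc 1 M).filter (fun m => p ∣ m) = (Finset.Ioc 0 M).filter (fun m => p ∣ m) := rfl
    rw [h6, h5, ← div_eq_mul_inv]
    exact Nat.cast_div_le
  have h7 : ∑ p ∈ (Finset.range (x+1)).filter Nat.Prime, ((p:ℝ)⁻¹) ≤ 1 + Real.log x := by
    have h8 : ∑ p ∈ (Finset.range (x+1)).filter Nat.Prime, ((p:ℝ)⁻¹) ≤ ∑ p ∈ Finset.Icc 1 x, ((p:ℝ)⁻¹) := by
      apply Finset.sum_le_sum_of_subset_of_nonneg
      · intro p hp
        simp only [Finset.mem_filter, Finset.mem_range] at hp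
        rw [Finset.mem_Icc]
        exact ⟨hp.2.one_le, by omega⟩
      · intro i _ _; positivity
    have h9 := harmonic_le_one_add_log x
    rw [harmonic_eq_sum_Icc] at h9
    push_cast at h9
    exact h8.trans h9
  calc (E.card : ℝ) * T ≤ ∑ m ∈ Finset.Icc 1 M, omegaX m x := h1.trans h2
    _ = ∑ p ∈ (Finset.range (x+1)).filter Nat.Prime,
      (((Finset.Icc 1 M).filter (fun m => p ∣ m)).card : ℝ) := h3
    _ ≤ ∑ p ∈ (Finset.range (x+1)).filter Nat.Prime, M * ((p:ℝ)⁻¹) := Finset.sum_le_sum h4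
    _ = M * ∑ p ∈ (Finset.range (x+1)).filter Nat.Prime, ((p:ℝ)⁻¹) := by rw [Finset.mul_sum]
    _ ≤ M * (1 + Real.log x) := mul_le_mul_of_nonneg_left h7 (Nat.cast_nonneg M)

/-- hypothesis: large sieve bound, `r = 1` -/
def LSHyp1 : Prop := ∀ (b : ℤ), b ≠ 0 → ∀ (x M : ℕ), 3 ≤ x → x^4 ≤ M → ∀ (E : Finset ℕ),
    E ⊆ Finset.Icc 1 M → ∀ T : ℝ, 0 < T → (∀ m ∈ E, T < |artinD b m x|) →
    (E.card : ℝ) ≤ 4 * x * (1 + Real.log x)^2 * M / T^2

/-- hypothesis: large sieve bound over primes -/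
def LSHyp2 : Prop := ∀ (b : ℤ), b ≠ 0 → ∀ (x M r : ℕ), 3 ≤ x → 1 ≤ M → 1 ≤ r → x^4 ≤ M^r →
    ∀ (E : Finset ℕ), E ⊆ Finset.Icc 1 M → (∀ m ∈ E, m.Prime) → ∀ T : ℝ, 0 < T →
    (∀ m ∈ E, T < |artinD b m x|) →
    (E.card : ℝ) ≤ 4 * x^2 * (1 + Real.log x)^2 * M * (r * (x:ℝ)^(-(1/(r:ℝ)))) / T^2

lemma T_sq_lower {e : ℝ} (he : 0 < e) {x : ℕ} (hx3 : 3 ≤ x)
    (hx : (x:ℝ) / (2 * Real.log x) ≤ Nat.primeCounting x) :
    (x:ℝ)^2 * e^2 / (4 * (1 + Real.log x)^2) ≤ (e * Nat.primeCounting x)^2 := by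
  have hx0 : (0:ℝ) < x := by exact_mod_cast (by omega : 0 < x)
  have hlog : 0 < Real.log x := Real.log_pos (by exact_mod_cast (by omega : 1 < x))
  have h1 : (x:ℝ) * e / (2 * (1 + Real.log x)) ≤ e * Nat.primeCounting x := by
    have h2 : (x:ℝ) / (2 * (1 + Real.log x)) ≤ (x:ℝ) / (2 * Real.log x) := by
      apply div_le_div_of_nonneg_left hx0.le (by positivity)
      linarith
    calc (x:ℝ) * e / (2 * (1 + Real.log x)) = e * ((x:ℝ) / (2 * (1 + Real.log x))) := by ring
      _ ≤ e * Nat.primeCounting x := mul_le_mul_of_nonneg_left (h2.trans hx) he.le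
  calc (x:ℝ)^2 * e^2 / (4 * (1 + Real.log x)^2) = ((x:ℝ) * e / (2 * (1 + Real.log x)))^2 := by
        rw [div_pow, mul_pow, mul_pow]; norm_num
    _ ≤ _ := pow_le_pow_left₀ (by positivity) h1 2

/-- small `x` -/
lemma small_x_bound (hLS : LSHyp1) {b : ℤ} (hb : b ≠ 0) {x M : ℕ} (hx3 : 3 ≤ x)
    (hx : (x:ℝ) / (2 * Real.log x) ≤ Nat.primeCounting x) (hM : x^4 ≤ M) {e : ℝ} (he : 0 < e)
    (E : Finset ℕ) (hE : E ⊆ Finset.Icc 1 M) (h : ∀ m ∈ E, e * Nat.primeCounting x < |artinD b m x|) :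
    (E.card : ℝ) ≤ (16 / e^2) * ((1 + Real.log x)^5 / x) * M := by
  have hx0 : (0:ℝ) < x := by exact_mod_cast (by omega : 0 < x)
  have hlog : 0 < Real.log x := Real.log_pos (by exact_mod_cast (by omega : 1 < x))
  have hT : 0 < e * Nat.primeCounting x := mul_pos he (primeCounting_pos (by omega))
  have h1 := hLS b hb x M hx3 hM E hE _ hT h
  have h2 := T_sq_lower he hx3 hx
  have h3 : 0 < (x:ℝ)^2 * e^2 / (4 * (1 + Real.log x)^2) := by positivity
  calc (E.card : ℝ) ≤ 4 * x * (1 + Real.log x)^2 * M / (e * Nat.primeCounting x)^2 := h1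
    _ ≤ 4 * x * (1 + Real.log x)^2 * M / ((x:ℝ)^2 * e^2 / (4 * (1 + Real.log x)^2)) := by
        apply div_le_div_of_nonneg_left (by positivity) h3 h2
    _ = (16 / e^2) * ((1 + Real.log x)^4 / x) * M := by field_simp; ring
    _ ≤ (16 / e^2) * ((1 + Real.log x)^5 / x) * M := by
        gcongr
        · linarith
        · norm_num

/-- large `x` -/
lemma large_x_bound (hLS : LSHyp2) {b : ℤ} (hb : b ≠ 0) {x M : ℕ} (hx3 : 3 ≤ x)
    (hx : (x:ℝ) / (2 * Real.log x) ≤ Nat.primeCounting x) (hM : M < x^4) {e : ℝ} (he : 0 < e)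
    {κ : ℝ} (hκ : 0 < κ) (hM3 : 3 ≤ M) (hκM : 1 ≤ κ * Real.log M)
    (B : Finset ℕ) (hB : B ⊆ Finset.Icc 1 M)
    (hB1 : ∀ m ∈ B, ∃ p : ℕ, p.Prime ∧ p ∣ m ∧ (M:ℝ)^κ < p)
    (hB2 : ∀ m ∈ B, e * Nat.primeCounting x < |artinD b m x|) :
    (B.card : ℝ) ≤ (128 / e^2) * (1 + Real.log x)^5 * ((M:ℝ) * (M:ℝ)^(-(κ/8)) * (1 + Real.log M)) := by
  classical
  have hx0 : (0:ℝ) < x := by exact_mod_cast (by omega : 0 < x)
  have hlog : 0 < Real.log x := Real.log_pos (by exact_mod_cast (by omega : 1 < x))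
  have hM0 : (0:ℝ) < M := by exact_mod_cast (by omega : 0 < M)
  have hT : 0 < e * Nat.primeCounting x := mul_pos he (primeCounting_pos (by omega))
  set Bm : ℕ → Finset ℕ := fun m₁ => (Finset.Icc 1 (M / m₁)).filter (fun P : ℕ => P.Prime ∧
    (M:ℝ)^κ < P ∧ e * Nat.primeCounting x < |artinD (b * (m₁:ℤ)^2) P x|) with hBm
  -- covering
  have hcov : B ⊆ (Finset.Icc 1 M).biUnion (fun m₁ => (Bm m₁).image (fun P => m₁ * P)) := by
    intro m hm
    obtain ⟨P, hP, hPm, hPκ⟩ := hB1 m hm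
    obtain ⟨m₁, rfl⟩ := hPm
    have hmM := Finset.mem_Icc.mp (hB hm)
    have hm1 : 1 ≤ m₁ := by
      rcases Nat.eq_zero_or_pos m₁ with h | h
      · subst h; simp at hmM
      · exact h
    have hP1 : 1 ≤ P := hP.one_le
    rw [Finset.mem_biUnion]
    refine ⟨m₁, ?_, ?_⟩
    · rw [Finset.mem_Icc]
      refine ⟨hm1, ?_⟩
      calc m₁ = 1 * m₁ := (one_mul _).symm
        _ ≤ P * m₁ := Nat.mul_le_mul_right _ hP1
        _ ≤ M := hmM.2
    · rw [Finset.mem_image]
      refine ⟨P, ?_, mul_comm _ _⟩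
      simp only [hBm, Finset.mem_filter, Finset.mem_Icc]
      refine ⟨⟨hP1, (Nat.le_div_iff_mul_le (by omega)).mpr hmM.2⟩, hP, hPκ, ?_⟩
      have h1 := hB2 _ hm
      have h2 : artinD (b * (m₁:ℤ)^2) P x = artinD b (P * m₁) x := by
        unfold artinD
        have hfil : (Finset.range (x+1)).filter (fun p : ℕ => p.Prime ∧ p ≠ 2 ∧ ¬ ((p:ℤ) ∣ b * (m₁:ℤ)^2 * P))
            = (Finset.range (x+1)).filter (fun p : ℕ => p.Prime ∧ p ≠ 2 ∧ ¬ ((p:ℤ) ∣ b * ((P * m₁ : ℕ):ℤ))) := by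
          apply Finset.filter_congr
          intro p _
          constructor
          · rintro ⟨h1, h2, h3⟩
            refine ⟨h1, h2, fun h4 => h3 ?_⟩
            have : b * (m₁:ℤ)^2 * P = (b * ((P * m₁ : ℕ):ℤ)) * m₁ := by push_cast; ring
            rw [this]
            exact Dvd.dvd.mul_right h4 _
          · rintro ⟨h1, h2, h3⟩
            refine ⟨h1, h2, fun h4 => h3 ?_⟩
            have hpp : Prime (p:ℤ) := Nat.prime_iff_prime_int.mp h1
            push_cast
            rcases hpp.dvd_or_dvd h4 with h5 | h5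
            · rcases hpp.dvd_or_dvd h5 with h6 | h6
              · exact Dvd.dvd.mul_right h6 _
              · exact Dvd.dvd.mul_left (Dvd.dvd.mul_left (hpp.dvd_of_dvd_pow h6) _) _
            · exact Dvd.dvd.mul_left (Dvd.dvd.mul_right h5 _) _
        rw [hfil]
        apply Finset.sum_congr rfl
        intro p hp
        simp only [Finset.mem_filter] at hp
        obtain ⟨_, hpp, hp2, hnd⟩ := hp
        have h3 : (b * (m₁:ℤ)^2 * (P:ℤ)^2 : ℤ) = b * (((P * m₁ : ℕ):ℤ))^2 := by push_cast; ring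
        have h4 : jacobiSym (b * (m₁:ℤ)^2) p = jacobiSym b p := by
          rw [jacobiSym.mul_left, jacobiSym.pow_left]
          have h5 : jacobiSym (m₁:ℤ) p ≠ 0 := by
            haveI : NeZero p := ⟨hpp.ne_zero⟩
            rw [Ne, jacobiSym.eq_zero_iff]
            push Not
            intro _
            rw [← Int.isCoprime_iff_gcd_eq_one]
            have hpp' : Prime (p:ℤ) := Nat.prime_iff_prime_int.mp hpp
            apply IsCoprime.symm
            rw [Prime.coprime_iff_not_dvd hpp']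
            intro h6
            apply hnd
            push_cast
            exact Dvd.dvd.mul_left (Dvd.dvd.mul_left h6 _) _
          rcases jacobiSym.trichotomy (m₁:ℤ) p with h | h | h
          · exact absurd h h5
          · rw [h]; ring
          · rw [h]; ring
        rw [h3, h4]
      rw [h2]
      exact h1
  -- each piece
  have hpiece : ∀ m₁ ∈ Finset.Icc 1 M, ((Bm m₁).card : ℝ) ≤
      (128 / e^2) * (1 + Real.log x)^5 * ((M:ℝ) * (m₁:ℝ)⁻¹ * (M:ℝ)^(-(κ/8))) := by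
    intro m₁ hm₁
    rw [Finset.mem_Icc] at hm₁
    have hm₁0 : (0:ℝ) < m₁ := by exact_mod_cast hm₁.1
    rcases Finset.eq_empty_or_nonempty (Bm m₁) with hemp | ⟨P, hP⟩
    · rw [hemp]; simp; positivity
    · simp only [hBm, Finset.mem_filter, Finset.mem_Icc] at hP
      set M₁ := M / m₁ with hM₁
      have hM₁P : (M:ℝ)^κ < (M₁:ℝ) := hP.2.2.1.trans_le (by exact_mod_cast hP.1.2)
      have hM₁pos : (0:ℝ) < M₁ := lt_trans (by positivity) hM₁P
      have hM₁le : (M₁:ℝ) ≤ M * (m₁:ℝ)⁻¹ := by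
        rw [← div_eq_mul_inv]; exact Nat.cast_div_le
      have hlogM₁ : κ * Real.log M ≤ Real.log M₁ := by
        rw [← Real.log_rpow hM0]
        exact Real.log_le_log (by positivity) hM₁P.le
      have hlogM₁1 : 1 ≤ Real.log M₁ := hκM.trans hlogM₁
      have hlogM₁x : Real.log M₁ ≤ 4 * Real.log x := by
        have h1 : (M₁:ℝ) ≤ (x:ℝ)^4 := by
          have : M₁ ≤ x^4 := (Nat.div_le_self _ _).trans hM.le
          exact_mod_cast this
        calc Real.log M₁ ≤ Real.log ((x:ℝ)^4) := Real.log_le_log hM₁pos h1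
          _ = 4 * Real.log x := by rw [Real.log_pow]; norm_num
      set r : ℕ := ⌈4 * Real.log x / Real.log M₁⌉₊ with hr
      have hquo : 0 < 4 * Real.log x / Real.log M₁ := by positivity
      have hr1 : 1 ≤ r := Nat.one_le_iff_ne_zero.mpr (by
        rw [hr]; exact (Nat.ceil_pos.mpr hquo).ne')
      have hr2 : 4 * Real.log x / Real.log M₁ ≤ r := Nat.le_ceil _
      have hr3 : (r:ℝ) ≤ 8 * Real.log x / Real.log M₁ := by
        have h1 := (Nat.ceil_lt_add_one hquo.le).le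
        rw [← hr] at h1
        have h2 : 1 ≤ 4 * Real.log x / Real.log M₁ := by
          rw [le_div_iff₀ (by linarith)]; linarith
        calc (r:ℝ) ≤ 4 * Real.log x / Real.log M₁ + 1 := h1
          _ ≤ 4 * Real.log x / Real.log M₁ + 4 * Real.log x / Real.log M₁ := by linarith
          _ = 8 * Real.log x / Real.log M₁ := by ring
      have hr4 : (r:ℝ) ≤ 8 * Real.log x := by
        refine hr3.trans ?_
        apply div_le_self (by positivity) hlogM₁1
      have hr0 : (0:ℝ) < r := by exact_mod_cast hr1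
      have hMr : x^4 ≤ M₁^r := by
        have h1 : Real.log ((x:ℝ)^4) ≤ Real.log ((M₁:ℝ)^r) := by
          rw [Real.log_pow, Real.log_pow]
          rw [div_le_iff₀ (by linarith)] at hr2
          push_cast
          exact hr2
        have h2 := (Real.log_le_log_iff (by positivity) (by positivity)).mp h1
        exact_mod_cast h2
      have hM₁1 : 1 ≤ M₁ := by
        rcases Nat.eq_zero_or_pos M₁ with h | h
        · rw [h] at hM₁pos; simp at hM₁pos
        · exact h
      have hbm : b * (m₁:ℤ)^2 ≠ 0 := by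
        apply mul_ne_zero hb
        apply pow_ne_zero
        exact_mod_cast (by omega : m₁ ≠ 0)
      have h1 := hLS (b * (m₁:ℤ)^2) hbm x M₁ r hx3 hM₁1 hr1 hMr (Bm m₁)
        (Finset.filter_subset _ _) (fun m hm => (Finset.mem_filter.mp hm).2.1) _ hT
        (fun m hm => (Finset.mem_filter.mp hm).2.2.2)
      have h2 := T_sq_lower he hx3 hx
      have h3 : 0 < (x:ℝ)^2 * e^2 / (4 * (1 + Real.log x)^2) := by positivity
      have h4 : (x:ℝ)^(-(1/(r:ℝ))) ≤ (M:ℝ)^(-(κ/8)) := by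
        rw [Real.rpow_def_of_pos hx0, Real.rpow_def_of_pos hM0]
        apply Real.exp_le_exp.mpr
        have h5 : κ * Real.log M * r ≤ 8 * Real.log x := by
          rw [le_div_iff₀ (by linarith)] at hr3
          calc κ * Real.log M * r ≤ Real.log M₁ * r := mul_le_mul_of_nonneg_right hlogM₁ hr0.le
            _ = r * Real.log M₁ := mul_comm _ _
            _ ≤ 8 * Real.log x := hr3
        have h6 : κ * Real.log M / 8 ≤ Real.log x * (1 / r) := by
          rw [mul_one_div, le_div_iff₀ hr0]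
          linarith
        linarith
      calc ((Bm m₁).card : ℝ) ≤ 4 * x^2 * (1 + Real.log x)^2 * M₁ * (r * (x:ℝ)^(-(1/(r:ℝ)))) /
            (e * Nat.primeCounting x)^2 := h1
        _ ≤ 4 * x^2 * (1 + Real.log x)^2 * M₁ * (r * (x:ℝ)^(-(1/(r:ℝ)))) /
            ((x:ℝ)^2 * e^2 / (4 * (1 + Real.log x)^2)) := by
            apply div_le_div_of_nonneg_left (by positivity) h3 h2
        _ = (16 / e^2) * (1 + Real.log x)^4 * M₁ * (r * (x:ℝ)^(-(1/(r:ℝ)))) := by
            field_simp; ring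
        _ ≤ (16 / e^2) * (1 + Real.log x)^4 * (M * (m₁:ℝ)⁻¹) * ((8 * (1 + Real.log x)) * (M:ℝ)^(-(κ/8))) := by
            have h7 : (r:ℝ) ≤ 8 * (1 + Real.log x) := by linarith
            gcongr
        _ = _ := by ring
  calc (B.card : ℝ) ≤ (((Finset.Icc 1 M).biUnion (fun m₁ => (Bm m₁).image (fun P => m₁ * P))).card : ℝ) := by
        exact_mod_cast Finset.card_le_card hcov
    _ ≤ ∑ m₁ ∈ Finset.Icc 1 M, (((Bm m₁).image (fun P => m₁ * P)).card : ℝ) := by
        exact_mod_cast Finset.card_biUnion_le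
    _ ≤ ∑ m₁ ∈ Finset.Icc 1 M, ((Bm m₁).card : ℝ) := by
        apply Finset.sum_le_sum
        intro m₁ _
        exact_mod_cast Finset.card_image_le
    _ ≤ ∑ m₁ ∈ Finset.Icc 1 M, (128 / e^2) * (1 + Real.log x)^5 * ((M:ℝ) * (m₁:ℝ)⁻¹ * (M:ℝ)^(-(κ/8))) :=
        Finset.sum_le_sum hpiece
    _ = (128 / e^2) * (1 + Real.log x)^5 * ((M:ℝ) * (M:ℝ)^(-(κ/8)) * ∑ m₁ ∈ Finset.Icc 1 M, (m₁:ℝ)⁻¹) := by
        rw [Finset.mul_sum, Finset.mul_sum]
        apply Finset.sum_congr rfl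
        intro m₁ _
        ring
    _ ≤ _ := by
        have h9 := harmonic_le_one_add_log M
        rw [harmonic_eq_sum_Icc] at h9
        push_cast at h9
        gcongr

end Pool.Agent.Helper6
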