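import Pool.Agent.Helper6.ArtinLSHyps

open MeasureTheory Set Filter Topology Real

namespace Pool.Agent.Helper6

lemma artinE_le (b : ℤ) (x : ℕ) : 0 ≤ artinE b x ∧ artinE b x ≤ 2 * Nat.primeCounting x := by
  constructor
  · unfold artinE
    exact Finset.sum_nonneg fun p _ => (artinMain_bounds b p).1
  · unfold artinE
    calc _ ≤ ∑ p ∈ (Finset.range (x+1)).filter (fun p : ℕ => p.Prime ∧ p ≠ 2), (2:ℝ) :=
          Finset.sum_le_sum fun p _ => (artinMain_bounds b p).2
      _ = 2 * (((Finset.range (x+1)).filter (fun p : ℕ => p.Prime ∧ p ≠ 2)).card : ℝ) := by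
          simp; ring
      _ ≤ 2 * Nat.primeCounting x := by
          apply mul_le_mul_of_nonneg_left _ (by norm_num)
          rw [Nat.primeCounting, Nat.primeCounting', Nat.count_eq_card_filter_range]
          have : (Finset.range (x+1)).filter (fun p : ℕ => p.Prime ∧ p ≠ 2) ⊆
              (Finset.range (x+1)).filter Nat.Prime := by
            intro p hp
            simp only [Finset.mem_filter] at hp ⊢
            exact ⟨hp.1, hp.2.1⟩
          exact_mod_cast Finset.card_le_card this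

lemma delta_bounds {b : ℤ} {δ : ℝ}
    (h : Tendsto (fun x : ℕ => artinE b x / Nat.primeCounting x) atTop (𝓝 δ)) : 0 ≤ δ ∧ δ ≤ 2 := by
  constructor
  · apply ge_of_tendsto' h
    intro x
    exact div_nonneg (artinE_le b x).1 (Nat.cast_nonneg _)
  · apply le_of_tendsto' h
    intro x
    exact div_le_of_le_mul₀ (Nat.cast_nonneg _) (by norm_num) (artinE_le b x).2

lemma perfect_power_count (b : ℤ) (hb : Squarefree b) (hb4 : b % 4 = 1) (hb1 : b ≠ 1) (η : ℝ) (hη : 0 < η) :
    ∀ᶠ M : ℕ in atTop, ∀ E : Finset ℕ, E ⊆ Finset.Icc 1 M →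
      (∀ m ∈ E, ∃ k : ℤ, ∃ r : ℕ, 1 < r ∧ b * (m:ℤ)^2 = k ^ r) → (E.card : ℝ) ≤ η * M := by
  classical
  set B : ℕ := b.natAbs with hB
  have hb0 : b ≠ 0 := hb.ne_zero
  have hB0 : 0 < B := Int.natAbs_pos.mpr hb0
  -- growth
  have hgrow : Tendsto (fun M : ℝ => ((Real.log (B * M^2) / Real.log 2 + 1) *
      (2 * ((B * M^2)^(1/3 : ℝ) + 1) + 1)) * M⁻¹) atTop (𝓝 0) := by
    have hBr : (0:ℝ) < B := by exact_mod_cast hB0
    have h1 : (fun M : ℝ => Real.log (B * M^2) / Real.log 2 + 1) =O[atTop] (fun M : ℝ => M ^ (1/6 : ℝ)) := by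
      have hone : (fun _ : ℝ => (1:ℝ)) =O[atTop] (fun M : ℝ => M ^ (1/6 : ℝ)) := by
        apply Asymptotics.IsBigO.of_bound 1
        filter_upwards [eventually_ge_atTop 1] with x hx
        rw [one_mul, norm_one, Real.norm_of_nonneg (by positivity)]
        exact Real.one_le_rpow hx (by norm_num)
      have hconst : ∀ a : ℝ, (fun _ : ℝ => a) =O[atTop] (fun M : ℝ => M ^ (1/6 : ℝ)) := by
        intro a
        exact (Asymptotics.isBigO_const_const a one_ne_zero atTop).trans hone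
      have hlog : (fun M : ℝ => Real.log M) =O[atTop] (fun M : ℝ => M ^ (1/6 : ℝ)) :=
        (isLittleO_log_rpow_atTop (by norm_num)).isBigO
      have h2 : (fun M : ℝ => (Real.log B / Real.log 2 + 1) + (2 / Real.log 2) * Real.log M) =O[atTop]
          (fun M : ℝ => M ^ (1/6 : ℝ)) := (hconst _).add (hlog.const_mul_left _)
      refine h2.congr' ?_ EventuallyEq.rfl
      filter_upwards [eventually_gt_atTop 0] with M hM
      rw [Real.log_mul hBr.ne' (by positivity), Real.log_pow]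
      push_cast
      ring
    have h3 : (fun M : ℝ => 2 * ((B * M^2)^(1/3 : ℝ) + 1) + 1) =O[atTop] (fun M : ℝ => M ^ (2/3 : ℝ)) := by
      have hone : (fun _ : ℝ => (1:ℝ)) =O[atTop] (fun M : ℝ => M ^ (2/3 : ℝ)) := by
        apply Asymptotics.IsBigO.of_bound 1
        filter_upwards [eventually_ge_atTop 1] with x hx
        rw [one_mul, norm_one, Real.norm_of_nonneg (by positivity)]
        exact Real.one_le_rpow hx (by norm_num)
      have hconst : ∀ a : ℝ, (fun _ : ℝ => a) =O[atTop] (fun M : ℝ => M ^ (2/3 : ℝ)) := by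
        intro a
        exact (Asymptotics.isBigO_const_const a one_ne_zero atTop).trans hone
      have h4 : (fun M : ℝ => (2 * (B:ℝ)^(1/3 : ℝ)) * M ^ (2/3 : ℝ) + 3) =O[atTop]
          (fun M : ℝ => M ^ (2/3 : ℝ)) := ((Asymptotics.isBigO_refl _ _).const_mul_left _).add (hconst _)
      refine h4.congr' ?_ EventuallyEq.rfl
      filter_upwards [eventually_gt_atTop 0] with M hM
      rw [Real.mul_rpow hBr.le (by positivity), ← Real.rpow_natCast M 2, ← Real.rpow_mul hM.le]
      norm_num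
      ring
    have h5 := (h1.mul h3).mul (Asymptotics.isBigO_refl (fun M : ℝ => M⁻¹) atTop)
    have h6 : Tendsto (fun M : ℝ => M ^ (-(1/6) : ℝ)) atTop (𝓝 0) := tendsto_rpow_neg_atTop (by norm_num)
    refine Asymptotics.IsBigO.trans_tendsto ?_ h6
    refine h5.trans ?_
    apply Asymptotics.IsBigO.of_bound 1
    filter_upwards [eventually_gt_atTop 0] with M hM
    rw [one_mul]
    apply le_of_eq
    congr 1
    rw [← Real.rpow_neg_one, ← Real.rpow_add hM, ← Real.rpow_add hM]
    norm_num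
  have hg2 := hgrow.comp tendsto_natCast_atTop_atTop
  filter_upwards [hg2.eventually (gt_mem_nhds hη), eventually_ge_atTop 1] with M hM hM1
  intro E hE hpp
  have hM0 : (0:ℝ) < M := by exact_mod_cast hM1
  set R : ℕ := Nat.log 2 (B * M^2) with hR
  set K : ℕ := ⌊((B:ℝ) * (M:ℝ)^2)^(1/3 : ℝ)⌋₊ with hK
  have hBM : (1:ℝ) ≤ (B:ℝ) * (M:ℝ)^2 := by
    have h1 : 1 ≤ B * M^2 := Nat.one_le_iff_ne_zero.mpr (by positivity)
    exact_mod_cast h1
  have hBM0 : B * M^2 ≠ 0 := by positivity
  -- choose for each m the pair (r,k)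
  have hmap : ∀ m ∈ E, ∃ q : ℕ × ℤ, q ∈ Finset.range (R+1) ×ˢ Finset.Icc (-(K:ℤ)) K ∧ b * (m:ℤ)^2 = q.2 ^ q.1 := by
    intro m hm
    obtain ⟨k, r, hr, hkr⟩ := hpp m hm
    have hmI := Finset.mem_Icc.mp (hE hm)
    refine ⟨(r, k), ?_, hkr⟩
    have habs : B * m^2 = k.natAbs ^ r := by
      have := congrArg Int.natAbs hkr
      rw [Int.natAbs_mul, Int.natAbs_pow, Int.natAbs_pow, Int.natAbs_natCast] at this
      exact this
    have hm0 : 0 < m := by omega
    -- |k| ≥ 2
    have hk2 : 2 ≤ k.natAbs := by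
      by_contra hcon
      push Not at hcon
      interval_cases hk : k.natAbs
      · rw [zero_pow (by omega)] at habs
        have : B * m^2 ≠ 0 := by positivity
        exact this habs
      · rw [one_pow] at habs
        have hB1 : B = 1 := Nat.eq_one_of_mul_eq_one_right habs
        rw [hB] at hB1
        rcases Int.natAbs_eq_iff.mp hB1 with h | h
        · exact hb1 (by simpa using h)
        · rw [h] at hb4; norm_num at hb4
    -- r odd
    have hrodd : ¬ Even r := by
      rintro ⟨s, hs⟩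
      have h1 : b * (m:ℤ)^2 = (k^s)^2 := by rw [hkr, hs, ← pow_mul]; ring_nf
      -- b is a square, contradiction with squarefree, b ≠ 1
      have h2 : IsSquare b := by
        have h3 : (m:ℤ)^2 ∣ (k^s)^2 := ⟨b, by rw [← h1]; ring⟩
        have h4 : (m:ℤ) ∣ k^s := (Int.pow_dvd_pow_iff (by norm_num)).mp h3
        obtain ⟨t, ht⟩ := h4
        refine ⟨t, ?_⟩
        have h5 : (m:ℤ)^2 ≠ 0 := by positivity
        have h6 : b * (m:ℤ)^2 = (t * t) * (m:ℤ)^2 := by rw [h1, ht]; ring
        exact mul_right_cancel₀ h5 h6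
      obtain ⟨t, ht⟩ := h2
      have h3 : IsUnit t := hb t ⟨1, by rw [ht]; ring⟩
      rcases Int.isUnit_iff.mp h3 with h | h
      · rw [h] at ht; exact hb1 (by simpa using ht)
      · rw [h] at ht; exact hb1 (by simpa using ht)
    have hr3 : 3 ≤ r := by
      have : r ≠ 2 := by rintro rfl; exact hrodd (by decide)
      omega
    have hle : k.natAbs ^ r ≤ B * M^2 := by
      rw [← habs]
      exact Nat.mul_le_mul_left _ (Nat.pow_le_pow_left hmI.2 2)
    have hrR : r ≤ R := by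
      apply Nat.le_log_of_pow_le (by norm_num)
      exact (Nat.pow_le_pow_left hk2 r).trans hle
    have hkK : k.natAbs ≤ K := by
      apply Nat.le_floor
      have h1 : (k.natAbs:ℝ)^3 ≤ (B:ℝ) * (M:ℝ)^2 := by
        have : k.natAbs ^ 3 ≤ B * M^2 := (Nat.pow_le_pow_right (by omega) hr3).trans hle
        exact_mod_cast this
      calc (k.natAbs : ℝ) = ((k.natAbs:ℝ)^3)^(1/3 : ℝ) := by
            rw [← Real.rpow_natCast, ← Real.rpow_mul (by positivity)]; norm_num
        _ ≤ ((B:ℝ) * (M:ℝ)^2)^(1/3 : ℝ) := Real.rpow_le_rpow (by positivity) h1 (by norm_num)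
    simp only [Finset.mem_product, Finset.mem_range, Finset.mem_Icc]
    refine ⟨by omega, by omega, by omega⟩
  choose! q hq1 hq2 using hmap
  have hinj : Set.InjOn q E := by
    intro m hm m' hm' heq
    have h1 := hq2 m hm
    have h2 := hq2 m' hm'
    rw [heq, ← h2] at h1
    have h3 : (m:ℤ)^2 = (m':ℤ)^2 := mul_left_cancel₀ hb0 h1
    have h4 : m^2 = m'^2 := by exact_mod_cast h3
    exact Nat.pow_left_injective (by norm_num : 2 ≠ 0) h4
  have hcard : E.card ≤ (Finset.range (R+1) ×ˢ Finset.Icc (-(K:ℤ)) K).card :=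
    Finset.card_le_card_of_injOn q hq1 hinj
  rw [Finset.card_product, Finset.card_range, Int.card_Icc] at hcard
  have h1 : ((E.card : ℕ) : ℝ) ≤ ((R:ℝ) + 1) * (2 * K + 1) := by
    have : ((K:ℤ) + 1 - -(K:ℤ)).toNat = 2 * K + 1 := by omega
    rw [this] at hcard
    exact_mod_cast hcard
  have h2 : (R:ℝ) ≤ Real.log ((B:ℝ) * (M:ℝ)^2) / Real.log 2 := by
    rw [le_div_iff₀ (Real.log_pos (by norm_num))]
    rw [← Real.log_pow]
    apply Real.log_le_log (by positivity)
    have := Nat.pow_log_le_self 2 hBM0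
    exact_mod_cast this
  have h3 : (K:ℝ) ≤ ((B:ℝ) * (M:ℝ)^2)^(1/3 : ℝ) := Nat.floor_le (by positivity)
  have h4 : 0 ≤ Real.log ((B:ℝ) * (M:ℝ)^2) / Real.log 2 :=
    div_nonneg (Real.log_nonneg hBM) (Real.log_nonneg (by norm_num))
  simp only [Function.comp_apply] at hM
  calc (E.card : ℝ) ≤ ((R:ℝ) + 1) * (2 * K + 1) := h1
    _ ≤ (Real.log ((B:ℝ) * (M:ℝ)^2) / Real.log 2 + 1) * (2 * (((B:ℝ) * (M:ℝ)^2)^(1/3 : ℝ) + 1) + 1) := by
        apply mul_le_mul (by linarith) (by linarith) (by positivity) (by linarith)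
    _ = (((Real.log ((B:ℝ) * (M:ℝ)^2) / Real.log 2 + 1) * (2 * (((B:ℝ) * (M:ℝ)^2)^(1/3 : ℝ) + 1) + 1)) * (M:ℝ)⁻¹) * M := by
        field_simp
    _ ≤ η * M := mul_le_mul_of_nonneg_right hM.le hM0.le

end Pool.Agent.Helper6
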