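import Pool.Agent.Helper6.ArtinBounds

open MeasureTheory Set Filter Topology Real

namespace Pool.Agent.Helper6

lemma artinP_mono (n : ℤ) : Monotone (artinP n) := by
  intro x y hxy
  unfold artinP
  have : (Finset.range (x + 1)).filter (fun p : ℕ => p.Prime ∧ orderOf (n : ZMod p) = p - 1) ⊆
      (Finset.range (y + 1)).filter (fun p : ℕ => p.Prime ∧ orderOf (n : ZMod p) = p - 1) := by
    apply Finset.filter_subset_filter
    apply Finset.range_subset_range.mpr
    omega
  exact_mod_cast Finset.card_le_card this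

lemma artinP_nonneg (n : ℤ) (x : ℕ) : 0 ≤ artinP n x := by
  unfold artinP; positivity

lemma omegaX_nonneg (m x : ℕ) : 0 ≤ omegaX m x := by
  unfold omegaX; positivity

lemma final_growth {κ lam e : ℝ} (hκ : 0 < κ) (hlam : 1 < lam) :
    Tendsto (fun M : ℝ => (M ^ (κ/96) / Real.log lam + 3) * ((128 / e^2) *
      (1 + (M ^ (κ/96) + Real.log lam)) ^ 5 * (M ^ (-(κ/8)) * (1 + Real.log M)))) atTop (𝓝 0) := by
  have hc : 0 < κ/96 := by positivity
  have hone : (fun _ : ℝ => (1:ℝ)) =O[atTop] (fun M : ℝ => M ^ (κ/96)) := by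
    apply Asymptotics.IsBigO.of_bound 1
    filter_upwards [eventually_ge_atTop 1] with x hx
    rw [one_mul, norm_one, Real.norm_of_nonneg (by positivity)]
    exact Real.one_le_rpow hx hc.le
  have hconst : ∀ a : ℝ, (fun _ : ℝ => a) =O[atTop] (fun M : ℝ => M ^ (κ/96)) := by
    intro a
    exact (Asymptotics.isBigO_const_const a one_ne_zero atTop).trans hone
  have h1 : (fun M : ℝ => M ^ (κ/96) / Real.log lam + 3) =O[atTop] (fun M : ℝ => M ^ (κ/96)) := by
    apply Asymptotics.IsBigO.add _ (hconst 3)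
    simp_rw [div_eq_inv_mul]
    exact (Asymptotics.isBigO_refl _ _).const_mul_left _
  have h2 : (fun M : ℝ => 1 + (M ^ (κ/96) + Real.log lam)) =O[atTop] (fun M : ℝ => M ^ (κ/96)) := by
    apply (hconst 1).add
    exact (Asymptotics.isBigO_refl _ _).add (hconst _)
  have h3 : (fun M : ℝ => 1 + Real.log M) =O[atTop] (fun M : ℝ => M ^ (κ/96)) := by
    apply (hconst 1).add
    exact (isLittleO_log_rpow_atTop hc).isBigO
  have h4 := h1.mul (((h2.pow 5).const_mul_left (128 / e^2)).mul
    ((Asymptotics.isBigO_refl (fun M : ℝ => M ^ (-(κ/8))) atTop).mul h3))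
  have h5 : Tendsto (fun M : ℝ => M ^ (-(5 * κ/96))) atTop (𝓝 0) :=
    tendsto_rpow_neg_atTop (by positivity)
  refine Asymptotics.IsBigO.trans_tendsto ?_ h5
  refine h4.trans ?_
  apply Asymptotics.IsBigO.of_bound 1
  filter_upwards [eventually_gt_atTop 0] with M hM
  rw [one_mul]
  apply le_of_eq
  congr 1
  rw [← Real.rpow_natCast, ← Real.rpow_mul hM.le, ← Real.rpow_add hM, ← Real.rpow_add hM,
    ← Real.rpow_add hM]
  congr 1
  push_cast
  ring

/-- Main assembly. -/
theorem artin_square_class_of (hLS1 : LSHyp1) (hLS2 : LSHyp2) (η : ℝ) (hη : 0 < η) :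
    ∃ c : ℝ, 0 < c ∧ ∀ (b : ℤ) (_ : b ≠ 0) (δ : ℝ) (_ : 0 ≤ δ) (_ : δ ≤ 2)
    (_ : Tendsto (fun x : ℕ => artinE b x / Nat.primeCounting x) atTop (𝓝 δ))
    (ε : ℝ) (_ : 0 < ε),
    ∃ X₀ : ℕ, ∀ᶠ M : ℕ in atTop, ∀ E : Finset ℕ, E ⊆ Finset.Icc 1 M →
      (∀ m ∈ E, ∃ x : ℕ, X₀ ≤ x ∧ (x:ℝ) ≤ Real.exp ((M:ℝ)^c) ∧
        ε < |artinP (b * (m:ℤ)^2) x / Nat.primeCounting x - δ|) → (E.card : ℝ) ≤ η * M := by
  classical
  obtain ⟨κ, hκ0, hκ1, hsmooth⟩ := smooth_count (η/4) (by positivity)
  refine ⟨κ/96, by positivity, ?_⟩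
  intro b hb δ hδ0 hδ1 hmain ε hε
  obtain ⟨lam, hlam, ε', hε', j₁, hscale⟩ := scale_reduction δ hδ0 hδ1 ε hε
  obtain ⟨X₁, hX₁3, hX₁⟩ := pi_lower
  have hlogl : 0 < Real.log lam := Real.log_pos hlam
  have hlam0 : 0 < lam := by linarith
  -- main term
  have hm1 : ∀ᶠ x : ℕ in atTop, |artinE b x / Nat.primeCounting x - δ| < ε'/4 := by
    have := (hmain.sub_const δ).abs
    simp only [sub_self, abs_zero] at this
    exact this.eventually (gt_mem_nhds (by positivity))
  have hm2 : ∀ᶠ x : ℕ in atTop, (1 + 2 * (b.natAbs.primeFactors.card : ℝ)) ≤ ε'/8 * Nat.primeCounting x := by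
    have h1 : Tendsto (fun x : ℕ => ε'/8 * (Nat.primeCounting x : ℝ)) atTop atTop := by
      apply Tendsto.const_mul_atTop (by positivity)
      exact tendsto_natCast_atTop_atTop.comp Nat.tendsto_primeCounting
    exact h1.eventually_ge_atTop _
  obtain ⟨X₂, hX₂⟩ := eventually_atTop.mp (hm1.and hm2)
  -- tail of the series
  set e : ℝ := ε'/4 with he
  have he0 : 0 < e := by positivity
  set K : ℝ := 16 / e^2 + 32 / ε' with hK
  have hK0 : 0 < K := by positivity
  set a : ℕ → ℝ := fun j => (1 + Real.log (scl lam j)) ^ 5 / (scl lam j : ℝ) with ha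
  have hsum : Summable a := summable_scales hlam
  have htail : ∀ᶠ i : ℕ in atTop, ∑' k, a (k + i) < η / (4 * K) := by
    have := tendsto_sum_nat_add a
    exact this.eventually (gt_mem_nhds (by positivity))
  have hscl : ∀ᶠ j : ℕ in atTop, max X₁ X₂ ≤ scl lam j := (scl_tendsto hlam).eventually_ge_atTop _
  obtain ⟨j₂, hj₂⟩ := eventually_atTop.mp (htail.and hscl)
  set j₀ := max j₁ j₂ with hj₀
  have hj₀₁ : j₁ ≤ j₀ := le_max_left _ _
  have hj₀₂ : j₂ ≤ j₀ := le_max_right _ _
  refine ⟨⌈lam ^ j₀⌉₊, ?_⟩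
  -- growth
  have hG := (final_growth (e := e) hκ0 hlam).comp tendsto_natCast_atTop_atTop
  have hG1 := hG.eventually (gt_mem_nhds (show (0:ℝ) < η/4 by positivity))
  have hκM : ∀ᶠ M : ℕ in atTop, 1 ≤ κ * Real.log M := by
    have h1 : Tendsto (fun M : ℕ => κ * Real.log M) atTop atTop := by
      apply Tendsto.const_mul_atTop hκ0
      exact Real.tendsto_log_atTop.comp tendsto_natCast_atTop_atTop
    exact h1.eventually_ge_atTop _
  filter_upwards [hsmooth, hG1, hκM, eventually_ge_atTop 3] with M hsm hG2 hκM1 hM3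
  intro E hE hbad
  have hM0 : (0:ℝ) < M := by exact_mod_cast (by omega : 0 < M)
  set J : ℕ := ⌊(M:ℝ)^(κ/96) / Real.log lam⌋₊ with hJ
  have hJ1 : (J:ℝ) ≤ (M:ℝ)^(κ/96) / Real.log lam := Nat.floor_le (by positivity)
  have hJ2 : (M:ℝ)^(κ/96) / Real.log lam < J + 1 := Nat.lt_floor_add_one _
  -- bad sets
  set nonsm : ℕ → Prop := fun m => ∃ p : ℕ, p.Prime ∧ p ∣ m ∧ (M:ℝ)^κ < p with hnonsm
  set S := (Finset.Icc 1 M).filter (fun m => ¬ nonsm m) with hS
  set BD : ℕ → Finset ℕ := fun j => (Finset.Icc 1 M).filter (fun m => nonsm m ∧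
    e * Nat.primeCounting (scl lam j) < |artinD b m (scl lam j)|) with hBD
  set BO : ℕ → Finset ℕ := fun j => (Finset.Icc 1 M).filter (fun m =>
    ε'/16 * Nat.primeCounting (scl lam j) < omegaX m (scl lam j)) with hBO
  have hcov : E ⊆ S ∪ (Finset.Icc j₀ (J+1)).biUnion (fun j => BD j ∪ BO j) := by
    intro m hm
    have hmI := hE hm
    by_cases hns : nonsm m
    · rw [Finset.mem_union]
      right
      by_contra hcon
      rw [Finset.mem_biUnion] at hcon
      push Not at hcon
      obtain ⟨x, hx1, hx2, hx3⟩ := hbad m hm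
      apply absurd _ (not_le.mpr hx3)
      apply hscale j₀ hj₀₁ (artinP (b * (m:ℤ)^2)) (artinP_mono _) (artinP_nonneg _) J
      · intro j hj1 hj2
        have hc1 := hcon j (Finset.mem_Icc.mpr ⟨hj1, hj2⟩)
        rw [Finset.notMem_union] at hc1
        obtain ⟨hc2, hc3⟩ := hc1
        simp only [hBD, Finset.mem_filter, not_and, not_lt] at hc2
        simp only [hBO, Finset.mem_filter, not_and, not_lt] at hc3
        have hc2' := hc2 hmI hns
        have hc3' := hc3 hmI
        have hsj := (hj₂ j (hj₀₂.trans hj1)).2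
        obtain ⟨h5, h6⟩ := hX₂ (scl lam j) ((le_max_right _ _).trans hsj)
        have h7 : 3 ≤ scl lam j := hX₁3.trans ((le_max_left _ _).trans hsj)
        have hpi := primeCounting_pos (show 2 ≤ scl lam j by omega)
        have hdec := artin_decomp b hb m (scl lam j)
        set pi : ℝ := (Nat.primeCounting (scl lam j) : ℝ)
        set PP := artinP (b * (m:ℤ)^2) (scl lam j)
        set EE := artinE b (scl lam j)
        set DD := artinD b m (scl lam j)
        have h8 : |PP - EE| ≤ 3 * ε' / 4 * pi := by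
          calc |PP - EE| = |(PP - EE - DD) + DD| := by ring_nf
            _ ≤ |PP - EE - DD| + |DD| := abs_add_le _ _
            _ ≤ (1 + 2 * (b.natAbs.primeFactors.card + omegaX m (scl lam j))) + e * pi := by
                linarith
            _ ≤ 3 * ε' / 4 * pi := by
                rw [he]
                nlinarith
        have h9 : PP / pi - δ = (PP - EE) / pi + (EE / pi - δ) := by ring
        rw [h9]
        calc |(PP - EE) / pi + (EE / pi - δ)| ≤ |(PP - EE) / pi| + |EE / pi - δ| := abs_add_le _ _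
          _ ≤ 3 * ε' / 4 + ε' / 4 := by
              apply add_le_add _ h5.le
              rw [abs_div, abs_of_pos hpi, div_le_iff₀ hpi]
              exact h8
          _ = ε' := by ring
      · calc lam ^ j₀ ≤ (⌈lam ^ j₀⌉₊ : ℝ) := Nat.le_ceil _
          _ ≤ x := by exact_mod_cast hx1
      · refine lt_of_le_of_lt hx2 ?_
        rw [← Real.exp_log (pow_pos hlam0 (J+1)), Real.log_pow]
        apply Real.exp_lt_exp.mpr
        rw [div_lt_iff₀ hlogl] at hJ2
        push_cast
        exact hJ2
    · rw [Finset.mem_union]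
      left
      exact Finset.mem_filter.mpr ⟨hmI, hns⟩
  have hScard : (S.card : ℝ) ≤ η/4 * M := by
    apply hsm S (Finset.filter_subset _ _)
    intro m hm p hp hpm
    have := (Finset.mem_filter.mp hm).2
    simp only [hnonsm, not_exists, not_and, not_lt] at this
    exact this p hp hpm
  set Lg : ℝ := (128 / e^2) * (1 + ((M:ℝ) ^ (κ/96) + Real.log lam)) ^ 5 *
    ((M:ℝ) * (M:ℝ) ^ (-(κ/8)) * (1 + Real.log M)) with hLg
  have hlogM : 0 < Real.log M := Real.log_pos (by exact_mod_cast (by omega : 1 < M))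
  have hLg0 : 0 ≤ Lg := by positivity
  have hj : ∀ j ∈ Finset.Icc j₀ (J+1), ((BD j ∪ BO j).card : ℝ) ≤ K * a j * M + Lg := by
    intro j hj
    rw [Finset.mem_Icc] at hj
    have hsj := (hj₂ j (hj₀₂.trans hj.1)).2
    have hsX₁ : X₁ ≤ scl lam j := (le_max_left _ _).trans hsj
    have hs3 : 3 ≤ scl lam j := hX₁3.trans hsX₁
    have hs0 : (0:ℝ) < scl lam j := by exact_mod_cast (by omega : 0 < scl lam j)
    have hpl := hX₁ (scl lam j) hsX₁
    have hlogs : 0 < Real.log (scl lam j) := Real.log_pos (by exact_mod_cast (by omega : 1 < scl lam j))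
    have hpi := primeCounting_pos (show 2 ≤ scl lam j by omega)
    have haj : 0 ≤ a j := by simp only [ha]; positivity
    have hO : ((BO j).card : ℝ) ≤ 32 / ε' * a j * M := by
      have h1 := omega_count (scl lam j) M (by omega) (BO j) (Finset.filter_subset _ _)
        (ε'/16 * Nat.primeCounting (scl lam j)) (by positivity)
        (fun m hm => (Finset.mem_filter.mp hm).2)
      refine h1.trans ?_
      rw [div_le_iff₀ (by positivity)]
      have h2 : (1 + Real.log (scl lam j)) ≤ 2 * a j * Nat.primeCounting (scl lam j) := by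
        calc (1 + Real.log (scl lam j)) = 2 * ((1 + Real.log (scl lam j)) ^ 2 / (scl lam j)) *
              ((scl lam j : ℝ) / (2 * (1 + Real.log (scl lam j)))) := by field_simp
          _ ≤ 2 * a j * Nat.primeCounting (scl lam j) := by
              apply mul_le_mul _ _ (by positivity) (by positivity)
              · simp only [ha]
                gcongr
                · linarith
                · norm_num
              · refine le_trans ?_ hpl
                gcongr
                linarith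
      calc (M:ℝ) * (1 + Real.log (scl lam j)) ≤ M * (2 * a j * Nat.primeCounting (scl lam j)) := by
            gcongr
        _ = 32 / ε' * a j * M * (ε' / 16 * Nat.primeCounting (scl lam j)) := by
            field_simp; ring
    have hDc : ((BD j).card : ℝ) ≤ 16 / e^2 * a j * M + Lg := by
      rcases le_or_gt ((scl lam j)^4) M with hcase | hcase
      · have h1 := small_x_bound hLS1 hb hs3 hpl hcase he0 (BD j) (Finset.filter_subset _ _)
          (fun m hm => (Finset.mem_filter.mp hm).2.2)
        linarith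
      · have h1 := large_x_bound hLS2 hb hs3 hpl hcase he0 hκ0 hM3 hκM1 (BD j)
          (Finset.filter_subset _ _) (fun m hm => (Finset.mem_filter.mp hm).2.1)
          (fun m hm => (Finset.mem_filter.mp hm).2.2)
        have h2 : Real.log (scl lam j) ≤ (M:ℝ) ^ (κ/96) + Real.log lam := by
          have h3 : (scl lam j : ℝ) ≤ lam ^ (J+1) := by
            calc (scl lam j : ℝ) ≤ lam ^ j := Nat.floor_le (by positivity)
              _ ≤ lam ^ (J+1) := pow_le_pow_right₀ hlam.le hj.2
          calc Real.log (scl lam j) ≤ Real.log (lam ^ (J+1)) := Real.log_le_log hs0 h3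
            _ = J * Real.log lam + Real.log lam := by rw [Real.log_pow]; push_cast; ring
            _ ≤ (M:ℝ) ^ (κ/96) + Real.log lam := by
                rw [le_div_iff₀ hlogl] at hJ1
                linarith
        have h4 : (128 / e^2) * (1 + Real.log (scl lam j))^5 * ((M:ℝ) * (M:ℝ)^(-(κ/8)) * (1 + Real.log M)) ≤ Lg := by
          simp only [hLg]
          gcongr
        have h5 : 0 ≤ 16 / e^2 * a j * M := by positivity
        linarith
    calc ((BD j ∪ BO j).card : ℝ) ≤ (BD j).card + (BO j).card := by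
          exact_mod_cast Finset.card_union_le _ _
      _ ≤ K * a j * M + Lg := by rw [hK]; linarith
  have hsuma : ∑ j ∈ Finset.Icc j₀ (J+1), a j ≤ η / (4 * K) := by
    have h1 := (hj₂ j₀ hj₀₂).1
    have ha0 : ∀ j, 0 ≤ a j := by
      intro j
      simp only [ha]
      have : 0 ≤ Real.log (scl lam j) := by
        apply Real.log_natCast_nonneg
      positivity
    have h2 : ∑ j ∈ Finset.Icc j₀ (J+1), a j ≤ ∑' k, a (k + j₀) := by
      have h3 : Finset.Icc j₀ (J+1) = (Finset.range (J + 2 - j₀)).image (fun k => k + j₀) := by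
        ext j
        simp only [Finset.mem_Icc, Finset.mem_image, Finset.mem_range]
        constructor
        · rintro ⟨h4, h5⟩
          exact ⟨j - j₀, by omega, by omega⟩
        · rintro ⟨k, hk, rfl⟩
          omega
      rw [h3, Finset.sum_image (by intro x _ y _ hxy; simpa using hxy)]
      apply ((summable_nat_add_iff j₀).mpr hsum).sum_le_tsum
      intro k _
      exact ha0 _
    linarith
  have hcardE : (E.card : ℝ) ≤ S.card + ∑ j ∈ Finset.Icc j₀ (J+1), ((BD j ∪ BO j).card : ℝ) := by
    calc (E.card : ℝ) ≤ ((S ∪ (Finset.Icc j₀ (J+1)).biUnion (fun j => BD j ∪ BO j)).card : ℝ) := by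
          exact_mod_cast Finset.card_le_card hcov
      _ ≤ (S.card : ℝ) + (((Finset.Icc j₀ (J+1)).biUnion (fun j => BD j ∪ BO j)).card : ℝ) := by
          exact_mod_cast Finset.card_union_le _ _
      _ ≤ _ := by
          gcongr
          exact_mod_cast Finset.card_biUnion_le
  have hfin : ∑ j ∈ Finset.Icc j₀ (J+1), ((BD j ∪ BO j).card : ℝ) ≤ η/4 * M + η/4 * M := by
    calc ∑ j ∈ Finset.Icc j₀ (J+1), ((BD j ∪ BO j).card : ℝ)
        ≤ ∑ j ∈ Finset.Icc j₀ (J+1), (K * a j * M + Lg) := Finset.sum_le_sum hj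
      _ = K * M * (∑ j ∈ Finset.Icc j₀ (J+1), a j) + ((Finset.Icc j₀ (J+1)).card : ℝ) * Lg := by
          rw [Finset.sum_add_distrib, Finset.sum_const, nsmul_eq_mul, Finset.mul_sum]
          congr 1
          apply Finset.sum_congr rfl
          intro j _
          ring
      _ ≤ K * M * (η / (4 * K)) + ((M:ℝ) ^ (κ/96) / Real.log lam + 3) * Lg := by
          gcongr
          rw [Nat.card_Icc]
          have : ((J + 1 + 1 - j₀ : ℕ) : ℝ) ≤ (J:ℝ) + 2 := by
            have : J + 1 + 1 - j₀ ≤ J + 2 := by omega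
            exact_mod_cast this
          linarith
      _ = η/4 * M + (((M:ℝ) ^ (κ/96) / Real.log lam + 3) * ((128 / e^2) *
      (1 + ((M:ℝ) ^ (κ/96) + Real.log lam)) ^ 5 * ((M:ℝ) ^ (-(κ/8)) * (1 + Real.log M)))) * M := by
          simp only [hLg]
          field_simp
      _ ≤ η/4 * M + η/4 * M := by
          gcongr
          exact hG2.le
  nlinarith

end Pool.Agent.Helper6
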