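import Pool.Agent.Helper6.ArtinAssembly
import Pool.Agent.Helper7.ArtinMain
import Pool.Agent.Helper8.ArtinMain

open MeasureTheory Set Filter Topology Real

namespace Pool.Agent.Helper6

lemma artinD_eq (b : ℤ) (m x : ℕ) : artinD b m x = Pool.Agent.Helper8.ArtinLS.D b m x := by
  unfold artinD Pool.Agent.Helper8.ArtinLS.D Pool.Agent.Helper8.ArtinLS.fprim
  apply Finset.sum_congr rfl
  intro p hp
  simp only [Finset.mem_filter] at hp
  rw [Nat.cast_sub hp.2.1.one_le]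
  simp

theorem lsHyp1 : LSHyp1 := by
  intro b _ x M hx hM E hE T hT h
  have hx0 : (0:ℝ) < x := by exact_mod_cast (by omega : 0 < x)
  have h1 := Pool.Agent.Helper8.ArtinLS.exceptional_all b x M (by omega) hM E
    (fun m hm => (Finset.mem_Icc.mp (hE hm)).2) T hT.le (fun m hm => by
      rw [← artinD_eq]; exact (h m hm).le)
  rw [le_div_iff₀ (by positivity)]
  have h2 : (x:ℝ) * ((E.card : ℝ) * T ^ 2) ≤ x * (4 * x * (1 + Real.log x)^2 * M) := by
    calc (x:ℝ) * ((E.card : ℝ) * T ^ 2) ≤ 4 * (((x : ℝ) * (1 + Real.log x)) ^ 2 * M) := h1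
      _ = x * (4 * x * (1 + Real.log x)^2 * M) := by ring
  exact le_of_mul_le_mul_left h2 hx0

theorem lsHyp2 : LSHyp2 := by
  intro b _ x M r hx hM1 hr hM E hE hEp T hT h
  have hx0 : (0:ℝ) < x := by exact_mod_cast (by omega : 0 < x)
  have hlog : 0 < Real.log x := Real.log_pos (by exact_mod_cast (by omega : 1 < x))
  have hr0 : (0:ℝ) < r := by exact_mod_cast hr
  have h1 := Pool.Agent.Helper8.ArtinLS.exceptional_primes b x M r (by omega) hr hM E
    (fun m hm => ⟨hEp m hm, (Finset.mem_Icc.mp (hE hm)).2⟩) T hT.le (fun m hm => by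
      rw [← artinD_eq]; exact (h m hm).le)
  rw [le_div_iff₀ (by positivity)]
  -- take r-th roots
  have h2 : ((E.card : ℝ) * T ^ 2) ^ r ≤
      (4 * x^2 * (1 + Real.log x)^2 * M * (r * (x:ℝ)^(-(1/(r:ℝ))))) ^ r := by
    have h3 : (4 * x^2 * (1 + Real.log x)^2 * M * (r * (x:ℝ)^(-(1/(r:ℝ))))) ^ r =
        4 ^ r * (r:ℝ) ^ r * (((x : ℝ) * (1 + Real.log x)) ^ 2 * M) ^ r * (x:ℝ)⁻¹ := by
      have h4 : ((x:ℝ)^(-(1/(r:ℝ)))) ^ r = (x:ℝ)⁻¹ := by
        rw [← Real.rpow_natCast, ← Real.rpow_mul hx0.le]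
        have : -(1/(r:ℝ)) * r = -1 := by field_simp
        rw [this, Real.rpow_neg_one]
      calc _ = 4 ^ r * (r:ℝ) ^ r * (((x : ℝ) * (1 + Real.log x)) ^ 2 * M) ^ r * ((x:ℝ)^(-(1/(r:ℝ)))) ^ r := by
            rw [← mul_pow, ← mul_pow, ← mul_pow]; congr 1; ring
        _ = _ := by rw [h4]
    rw [h3, ← div_eq_mul_inv, le_div_iff₀ hx0]
    calc ((E.card : ℝ) * T ^ 2) ^ r * x = x * ((E.card : ℝ) * T ^ 2) ^ r := by ring
      _ ≤ 4 * r.factorial * (((x : ℝ) * (1 + Real.log x)) ^ 2 * M) ^ r := h1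
      _ ≤ 4 ^ r * (r:ℝ) ^ r * (((x : ℝ) * (1 + Real.log x)) ^ 2 * M) ^ r := by
          gcongr
          · calc (4:ℝ) = 4 ^ 1 := by norm_num
              _ ≤ 4 ^ r := pow_le_pow_right₀ (by norm_num) hr
          · exact_mod_cast Nat.factorial_le_pow r
  exact le_of_pow_le_pow_left₀ (by omega) (by positivity) h2

end Pool.Agent.Helper6
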