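import Pool.Agent.Helper6.ArtinExtra

open MeasureTheory Set Filter Topology Real

namespace Pool.Agent.Helper6

lemma small_x_bound4 {b : ℤ} (hb : b ≠ 0) {x M : ℕ} (hx3 : 3 ≤ x)
    (hx : (x:ℝ) / (2 * Real.log x) ≤ Nat.primeCounting x) (hM : x^4 ≤ M) {e : ℝ} (he : 0 < e)
    (E : Finset ℕ) (hE : E ⊆ Finset.Icc 1 M) (h : ∀ m ∈ E, e * Nat.primeCounting x < |artinD b m x|) :
    (E.card : ℝ) ≤ (16 / e^2) * ((1 + Real.log x)^4 / x) * M := by
  have hx0 : (0:ℝ) < x := by exact_mod_cast (by omega : 0 < x)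
  have hlog : 0 < Real.log x := Real.log_pos (by exact_mod_cast (by omega : 1 < x))
  have hT : 0 < e * Nat.primeCounting x := mul_pos he (primeCounting_pos (by omega))
  have h1 := lsHyp1 b hb x M hx3 hM E hE _ hT h
  have h2 := T_sq_lower he hx3 hx
  have h3 : 0 < (x:ℝ)^2 * e^2 / (4 * (1 + Real.log x)^2) := by positivity
  calc (E.card : ℝ) ≤ 4 * x * (1 + Real.log x)^2 * M / (e * Nat.primeCounting x)^2 := h1
    _ ≤ 4 * x * (1 + Real.log x)^2 * M / ((x:ℝ)^2 * e^2 / (4 * (1 + Real.log x)^2)) := by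
        apply div_le_div_of_nonneg_left (by positivity) h3 h2
    _ = (16 / e^2) * ((1 + Real.log x)^4 / x) * M := by field_simp; ring

lemma large_x_primes {b : ℤ} (hb : b ≠ 0) {x M : ℕ} (hx3 : 3 ≤ x)
    (hx : (x:ℝ) / (2 * Real.log x) ≤ Nat.primeCounting x) (hM : M < x^4) (hM3 : 3 ≤ M)
    {e : ℝ} (he : 0 < e)
    (E : Finset ℕ) (hE : E ⊆ Finset.Icc 1 M) (hEp : ∀ m ∈ E, m.Prime)
    (h : ∀ m ∈ E, e * Nat.primeCounting x < |artinD b m x|) :
    (E.card : ℝ) ≤ (128 / e^2) * (1 + Real.log x)^5 * (M:ℝ)^(7/8 : ℝ) := by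
  have hx0 : (0:ℝ) < x := by exact_mod_cast (by omega : 0 < x)
  have hlog : 0 < Real.log x := Real.log_pos (by exact_mod_cast (by omega : 1 < x))
  have hM0 : (0:ℝ) < M := by exact_mod_cast (by omega : 0 < M)
  have hT : 0 < e * Nat.primeCounting x := mul_pos he (primeCounting_pos (by omega))
  have hlogM : 1 ≤ Real.log M := by
    rw [← Real.log_exp 1]
    apply Real.log_le_log (Real.exp_pos 1)
    have h1 := Real.exp_one_lt_d9
    have h2 : (3:ℝ) ≤ M := by exact_mod_cast hM3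
    linarith
  have hlogMx : Real.log M ≤ 4 * Real.log x := by
    have h1 : (M:ℝ) ≤ (x:ℝ)^4 := by exact_mod_cast hM.le
    calc Real.log M ≤ Real.log ((x:ℝ)^4) := Real.log_le_log hM0 h1
      _ = 4 * Real.log x := by rw [Real.log_pow]; norm_num
  set r : ℕ := ⌈4 * Real.log x / Real.log M⌉₊ with hr
  have hquo : 0 < 4 * Real.log x / Real.log M := by positivity
  have hr1 : 1 ≤ r := Nat.one_le_iff_ne_zero.mpr (by
    rw [hr]; exact (Nat.ceil_pos.mpr hquo).ne')
  have hr2 : 4 * Real.log x / Real.log M ≤ r := Nat.le_ceil _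
  have hr3 : (r:ℝ) ≤ 8 * Real.log x / Real.log M := by
    have h1 := (Nat.ceil_lt_add_one hquo.le).le
    rw [← hr] at h1
    have h2 : 1 ≤ 4 * Real.log x / Real.log M := by
      rw [le_div_iff₀ (by linarith)]; linarith
    calc (r:ℝ) ≤ 4 * Real.log x / Real.log M + 1 := h1
      _ ≤ 4 * Real.log x / Real.log M + 4 * Real.log x / Real.log M := by linarith
      _ = 8 * Real.log x / Real.log M := by ring
  have hr4 : (r:ℝ) ≤ 8 * Real.log x := by
    refine hr3.trans ?_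
    apply div_le_self (by positivity) hlogM
  have hr0 : (0:ℝ) < r := by exact_mod_cast hr1
  have hMr : x^4 ≤ M^r := by
    have h1 : Real.log ((x:ℝ)^4) ≤ Real.log ((M:ℝ)^r) := by
      rw [Real.log_pow, Real.log_pow]
      rw [div_le_iff₀ (by linarith)] at hr2
      push_cast
      exact hr2
    have h2 := (Real.log_le_log_iff (by positivity) (by positivity)).mp h1
    exact_mod_cast h2
  have h1 := lsHyp2 b hb x M r hx3 (by omega) hr1 hMr E hE hEp _ hT h
  have h2 := T_sq_lower he hx3 hx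
  have h3 : 0 < (x:ℝ)^2 * e^2 / (4 * (1 + Real.log x)^2) := by positivity
  have h4 : (x:ℝ)^(-(1/(r:ℝ))) ≤ (M:ℝ)^(-(1/8) : ℝ) := by
    rw [Real.rpow_def_of_pos hx0, Real.rpow_def_of_pos hM0]
    apply Real.exp_le_exp.mpr
    have h5 : Real.log M * r ≤ 8 * Real.log x := by
      rw [le_div_iff₀ (by linarith)] at hr3
      linarith
    have h6 : Real.log M / 8 ≤ Real.log x * (1 / r) := by
      rw [mul_one_div, le_div_iff₀ hr0]
      linarith
    linarith
  calc (E.card : ℝ) ≤ 4 * x^2 * (1 + Real.log x)^2 * M * (r * (x:ℝ)^(-(1/(r:ℝ)))) /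
        (e * Nat.primeCounting x)^2 := h1
    _ ≤ 4 * x^2 * (1 + Real.log x)^2 * M * (r * (x:ℝ)^(-(1/(r:ℝ)))) /
        ((x:ℝ)^2 * e^2 / (4 * (1 + Real.log x)^2)) := by
        apply div_le_div_of_nonneg_left (by positivity) h3 h2
    _ = (16 / e^2) * (1 + Real.log x)^4 * M * (r * (x:ℝ)^(-(1/(r:ℝ)))) := by
        field_simp; ring
    _ ≤ (16 / e^2) * (1 + Real.log x)^4 * M * ((8 * (1 + Real.log x)) * (M:ℝ)^(-(1/8) : ℝ)) := by
        have h7 : (r:ℝ) ≤ 8 * (1 + Real.log x) := by linarith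
        gcongr
    _ = (128 / e^2) * (1 + Real.log x)^5 * ((M:ℝ) * (M:ℝ)^(-(1/8) : ℝ)) := by ring
    _ = (128 / e^2) * (1 + Real.log x)^5 * (M:ℝ)^(7/8 : ℝ) := by
        rw [← Real.rpow_one_add' hM0.le (by norm_num)]
        norm_num

lemma omegaX_prime {l x : ℕ} (hl : l.Prime) : omegaX l x ≤ 1 := by
  unfold omegaX
  have : (Finset.range (x + 1)).filter (fun p : ℕ => p.Prime ∧ p ∣ l) ⊆ {l} := by
    intro p hp
    simp only [Finset.mem_filter] at hp
    rw [Finset.mem_singleton]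
    exact (Nat.prime_dvd_prime_iff_eq hp.2.1 hl).mp hp.2.2
  have h2 := Finset.card_le_card this
  rw [Finset.card_singleton] at h2
  exact_mod_cast h2

set_option maxHeartbeats 2000000 in
/-- Theorem B: `n = b l ^ 2` with `l` prime. -/
theorem artin_primes (b : ℤ) (hb : b ≠ 0) (δ : ℝ) (hδ0 : 0 ≤ δ) (hδ1 : δ ≤ 2)
    (hmain : Tendsto (fun x : ℕ => artinE b x / Nat.primeCounting x) atTop (𝓝 δ))
    (ε : ℝ) (hε : 0 < ε) :
    ∃ C : ℝ, 0 < C ∧ ∃ X₀ : ℕ, ∀ M Y : ℕ, 3 ≤ M → X₀ ≤ Y → ∀ E : Finset ℕ, E ⊆ Finset.Icc 1 M →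
      (∀ m ∈ E, m.Prime ∧ ∃ x : ℕ, Y ≤ x ∧ (x:ℝ) ≤ Real.exp ((M:ℝ)^(1/100 : ℝ)) ∧
        ε < |artinP (b * (m:ℤ)^2) x / Nat.primeCounting x - δ|) →
      (E.card : ℝ) ≤ C * (M * (Real.log Y)^4 / Y + (M:ℝ)^(15/16 : ℝ)) := by
  classical
  obtain ⟨lam, hlam, ε', hε', j₁, hscale⟩ := scale_reduction δ hδ0 hδ1 ε hε
  obtain ⟨X₁, hX₁3, hX₁⟩ := pi_lower
  have hlogl : 0 < Real.log lam := Real.log_pos hlam
  have hlam0 : 0 < lam := by linarith
  have hm1 : ∀ᶠ x : ℕ in atTop, |artinE b x / Nat.primeCounting x - δ| < ε'/4 := by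
    have := (hmain.sub_const δ).abs
    simp only [sub_self, abs_zero] at this
    exact this.eventually (gt_mem_nhds (by positivity))
  have hm2 : ∀ᶠ x : ℕ in atTop, (1 + 2 * ((b.natAbs.primeFactors.card : ℝ) + 1)) ≤ ε'/2 * Nat.primeCounting x := by
    have h1 : Tendsto (fun x : ℕ => ε'/2 * (Nat.primeCounting x : ℝ)) atTop atTop := by
      apply Tendsto.const_mul_atTop (by positivity)
      exact tendsto_natCast_atTop_atTop.comp Nat.tendsto_primeCounting
    exact h1.eventually_ge_atTop _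
  obtain ⟨X₂, hX₂⟩ := eventually_atTop.mp (hm1.and hm2)
  set e : ℝ := ε'/4 with he
  have he0 : 0 < e := by positivity
  have hscl : ∀ᶠ j : ℕ in atTop, max X₁ X₂ ≤ scl lam j := (scl_tendsto hlam).eventually_ge_atTop _
  obtain ⟨j₂, hj₂⟩ := eventually_atTop.mp hscl
  set js := max j₁ j₂ with hjs
  -- the convergent series
  have hser : Summable (fun k : ℕ => (1 + (k:ℝ))^4 * (lam⁻¹)^k) := by
    have h1 : Summable (fun k : ℕ => ((k:ℝ)^4 : ℝ) * (lam⁻¹)^k) := by
      apply summable_pow_mul_geometric_of_norm_lt_one 4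
      rw [Real.norm_of_nonneg (by positivity)]
      exact inv_lt_one_of_one_lt₀ hlam
    have h2 := (summable_nat_add_iff 1).mpr h1
    have h3 := h2.mul_left lam
    refine h3.congr ?_
    intro k
    push_cast
    rw [pow_succ]
    have h4 : lam * lam⁻¹ = 1 := mul_inv_cancel₀ hlam0.ne'
    calc lam * (((k:ℝ) + 1)^4 * ((lam⁻¹)^k * lam⁻¹)) = (lam * lam⁻¹) * ((1 + (k:ℝ))^4 * (lam⁻¹)^k) := by ring
      _ = _ := by rw [h4, one_mul]
  set Z : ℝ := ∑' k : ℕ, (1 + (k:ℝ))^4 * (lam⁻¹)^k with hZ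
  have hZ0 : 0 ≤ Z := tsum_nonneg (fun k => by positivity)
  set A1 : ℝ := (16 / e^2) * (2 * (1 + Real.log lam)^4) * Z * (1 + 1 / Real.log lam)^4 * 16 * lam with hA1
  have hA1' : 0 ≤ A1 := by positivity
  set A2 : ℝ := (1 / Real.log lam + 3) * ((128 / e^2) * (2 + Real.log lam)^5) with hA2
  have hA2' : 0 ≤ A2 := by positivity
  refine ⟨A1 + A2 + 1, by positivity, max 3 ⌈lam ^ (js + 1)⌉₊, ?_⟩
  intro M Y hM3 hY E hE hbad
  have hM0 : (0:ℝ) < M := by exact_mod_cast (by omega : 0 < M)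
  have hM1 : (1:ℝ) ≤ M := by exact_mod_cast (by omega : 1 ≤ M)
  have hY3 : 3 ≤ Y := (le_max_left _ _).trans hY
  have hY0 : (0:ℝ) < Y := by exact_mod_cast (by omega : 0 < Y)
  have hlogY : 1 ≤ Real.log Y := by
    rw [← Real.log_exp 1]
    apply Real.log_le_log (Real.exp_pos 1)
    have h1 := Real.exp_one_lt_d9
    have h2 : (3:ℝ) ≤ Y := by exact_mod_cast hY3
    linarith
  obtain ⟨j₀, hj₀a, hj₀b⟩ := exists_nat_pow_near (show (1:ℝ) ≤ Y by exact_mod_cast (by omega : 1 ≤ Y)) hlam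
  have hjsj₀ : js ≤ j₀ := by
    by_contra hcon
    push Not at hcon
    have h1 : lam ^ (j₀ + 1) ≤ lam ^ (js + 1) := pow_le_pow_right₀ hlam.le (by omega)
    have h2 : lam ^ (js + 1) ≤ Y := (Nat.le_ceil _).trans (by exact_mod_cast (le_max_right _ _).trans hY)
    linarith
  have hj₀₁ : j₁ ≤ j₀ := (le_max_left _ _).trans hjsj₀
  have hj₀₂ : j₂ ≤ j₀ := (le_max_right _ _).trans hjsj₀
  have hj₀log : (j₀:ℝ) ≤ Real.log Y / Real.log lam := by
    rw [le_div_iff₀ hlogl, ← Real.log_pow]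
    exact Real.log_le_log (by positivity) hj₀a
  set J : ℕ := ⌊(M:ℝ)^(1/100 : ℝ) / Real.log lam⌋₊ with hJ
  have hJ1 : (J:ℝ) ≤ (M:ℝ)^(1/100 : ℝ) / Real.log lam := Nat.floor_le (by positivity)
  have hJ2 : (M:ℝ)^(1/100 : ℝ) / Real.log lam < J + 1 := Nat.lt_floor_add_one _
  set BD : ℕ → Finset ℕ := fun j => (Finset.Icc 1 M).filter (fun m => m.Prime ∧
    e * Nat.primeCounting (scl lam j) < |artinD b m (scl lam j)|) with hBD
  have hcov : E ⊆ (Finset.Icc j₀ (J+1)).biUnion BD := by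
    intro m hm
    have hmI := hE hm
    by_contra hcon
    rw [Finset.mem_biUnion] at hcon
    push Not at hcon
    obtain ⟨hmp, x, hx1, hx2, hx3⟩ := hbad m hm
    apply absurd _ (not_le.mpr hx3)
    apply hscale j₀ hj₀₁ (artinP (b * (m:ℤ)^2)) (artinP_mono _) (artinP_nonneg _) J
    · intro j hj1 hj2
      have hc1 := hcon j (Finset.mem_Icc.mpr ⟨hj1, hj2⟩)
      simp only [hBD, Finset.mem_filter, not_and, not_lt] at hc1
      have hc2' := hc1 hmI hmp
      have hsj := hj₂ j (hj₀₂.trans hj1)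
      obtain ⟨h5, h6⟩ := hX₂ (scl lam j) ((le_max_right _ _).trans hsj)
      have h7 : 3 ≤ scl lam j := hX₁3.trans ((le_max_left _ _).trans hsj)
      have hpi := primeCounting_pos (show 2 ≤ scl lam j by omega)
      have hdec := artin_decomp b hb m (scl lam j)
      have hom := omegaX_prime (x := scl lam j) hmp
      set pi : ℝ := (Nat.primeCounting (scl lam j) : ℝ)
      set PP := artinP (b * (m:ℤ)^2) (scl lam j)
      set EE := artinE b (scl lam j)
      set DD := artinD b m (scl lam j)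
      have h8 : |PP - EE| ≤ 3 * ε' / 4 * pi := by
        calc |PP - EE| = |(PP - EE - DD) + DD| := by ring_nf
          _ ≤ |PP - EE - DD| + |DD| := abs_add_le _ _
          _ ≤ (1 + 2 * (b.natAbs.primeFactors.card + omegaX m (scl lam j))) + e * pi := by
              linarith
          _ ≤ 3 * ε' / 4 * pi := by
              rw [he]
              nlinarith
      have h9 : PP / pi - δ = (PP - EE) / pi + (EE / pi - δ) := by ring
      rw [h9]
      calc |(PP - EE) / pi + (EE / pi - δ)| ≤ |(PP - EE) / pi| + |EE / pi - δ| := abs_add_le _ _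
        _ ≤ 3 * ε' / 4 + ε' / 4 := by
            apply add_le_add _ h5.le
            rw [abs_div, abs_of_pos hpi, div_le_iff₀ hpi]
            exact h8
        _ = ε' := by ring
    · exact hj₀a.trans (by exact_mod_cast hx1)
    · refine lt_of_le_of_lt hx2 ?_
      rw [← Real.exp_log (pow_pos hlam0 (J+1)), Real.log_pow]
      apply Real.exp_lt_exp.mpr
      rw [div_lt_iff₀ hlogl] at hJ2
      push_cast
      exact hJ2
  set Lg : ℝ := (128 / e^2) * (1 + ((M:ℝ) ^ (1/100 : ℝ) + Real.log lam)) ^ 5 * (M:ℝ)^(7/8 : ℝ) with hLg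
  have hLg0 : 0 ≤ Lg := by positivity
  have hj : ∀ j ∈ Finset.Icc j₀ (J+1), ((BD j).card : ℝ) ≤
      (16 / e^2) * (2 * (1 + Real.log lam)^4 * ((1 + (j:ℝ))^4 * (lam⁻¹)^j)) * M + Lg := by
    intro j hj
    rw [Finset.mem_Icc] at hj
    have hsj := hj₂ j (hj₀₂.trans hj.1)
    have hsX₁ : X₁ ≤ scl lam j := (le_max_left _ _).trans hsj
    have hs3 : 3 ≤ scl lam j := hX₁3.trans hsX₁
    have hs0 : (0:ℝ) < scl lam j := by exact_mod_cast (by omega : 0 < scl lam j)
    have hpl := hX₁ (scl lam j) hsX₁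
    have hlogs : 0 < Real.log (scl lam j) := Real.log_pos (by exact_mod_cast (by omega : 1 < scl lam j))
    have hslj : (scl lam j : ℝ) ≤ lam ^ j := Nat.floor_le (by positivity)
    have hlogsj : Real.log (scl lam j) ≤ j * Real.log lam := by
      rw [← Real.log_pow]; exact Real.log_le_log hs0 hslj
    rcases le_or_gt ((scl lam j)^4) M with hcase | hcase
    · have h1 := small_x_bound4 hb hs3 hpl hcase he0 (BD j) (Finset.filter_subset _ _)
        (fun m hm => (Finset.mem_filter.mp hm).2.2)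
      have h2 : (1 + Real.log (scl lam j))^4 / (scl lam j) ≤
          2 * (1 + Real.log lam)^4 * ((1 + (j:ℝ))^4 * (lam⁻¹)^j) := by
        have h3 : lam ^ j / 2 ≤ (scl lam j : ℝ) := by
          unfold scl
          have h7 := Nat.lt_floor_add_one (lam ^ j)
          have h8 : (1:ℝ) ≤ ⌊lam ^ j⌋₊ := by
            exact_mod_cast Nat.le_floor (by simpa using one_le_pow₀ hlam.le)
          linarith
        have h4 : 1 + Real.log (scl lam j) ≤ (1 + Real.log lam) * (1 + j) := by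
          have h5 : (1 + Real.log lam) * (1 + (j:ℝ)) = 1 + j + Real.log lam + j * Real.log lam := by ring
          have h6 : (0:ℝ) ≤ j := Nat.cast_nonneg j
          rw [h5]
          linarith
        calc (1 + Real.log (scl lam j))^4 / (scl lam j) ≤
              ((1 + Real.log lam) * (1 + j))^4 / (lam ^ j / 2) := by
              apply div_le_div₀ (by positivity) _ (by positivity) h3
              exact pow_le_pow_left₀ (by positivity) h4 4
          _ = 2 * (1 + Real.log lam)^4 * ((1 + (j:ℝ))^4 * (lam⁻¹)^j) := by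
              rw [mul_pow, inv_pow]; field_simp
      calc ((BD j).card : ℝ) ≤ (16 / e^2) * ((1 + Real.log (scl lam j))^4 / (scl lam j)) * M := h1
        _ ≤ (16 / e^2) * (2 * (1 + Real.log lam)^4 * ((1 + (j:ℝ))^4 * (lam⁻¹)^j)) * M := by gcongr
        _ ≤ _ := by linarith
    · have h1 := large_x_primes hb hs3 hpl hcase hM3 he0 (BD j)
        (Finset.filter_subset _ _) (fun m hm => (Finset.mem_filter.mp hm).2.1)
        (fun m hm => (Finset.mem_filter.mp hm).2.2)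
      have h2 : Real.log (scl lam j) ≤ (M:ℝ) ^ (1/100 : ℝ) + Real.log lam := by
        have h3 : (scl lam j : ℝ) ≤ lam ^ (J+1) :=
          hslj.trans (pow_le_pow_right₀ hlam.le hj.2)
        calc Real.log (scl lam j) ≤ Real.log (lam ^ (J+1)) := Real.log_le_log hs0 h3
          _ = J * Real.log lam + Real.log lam := by rw [Real.log_pow]; push_cast; ring
          _ ≤ (M:ℝ) ^ (1/100 : ℝ) + Real.log lam := by
              rw [le_div_iff₀ hlogl] at hJ1
              linarith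
      have h4 : (128 / e^2) * (1 + Real.log (scl lam j))^5 * (M:ℝ)^(7/8 : ℝ) ≤ Lg := by
        simp only [hLg]
        gcongr
      have h5 : 0 ≤ (16 / e^2) * (2 * (1 + Real.log lam)^4 * ((1 + (j:ℝ))^4 * (lam⁻¹)^j)) * M := by
        positivity
      linarith
  -- tail sum
  have htail : ∑ j ∈ Finset.Icc j₀ (J+1), ((1 + (j:ℝ))^4 * (lam⁻¹)^j) ≤
      (1 + (j₀:ℝ))^4 * (lam⁻¹)^j₀ * Z := by
    have h3 : Finset.Icc j₀ (J+1) = (Finset.range (J + 2 - j₀)).image (fun k => k + j₀) := by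
      ext j
      simp only [Finset.mem_Icc, Finset.mem_image, Finset.mem_range]
      constructor
      · rintro ⟨h4, h5⟩
        exact ⟨j - j₀, by omega, by omega⟩
      · rintro ⟨k, hk, rfl⟩
        omega
    rw [h3, Finset.sum_image (by intro x _ y _ hxy; simpa using hxy)]
    calc ∑ k ∈ Finset.range (J + 2 - j₀), ((1 + ((k + j₀ : ℕ):ℝ))^4 * (lam⁻¹)^(k + j₀))
        ≤ ∑ k ∈ Finset.range (J + 2 - j₀), (1 + (j₀:ℝ))^4 * (lam⁻¹)^j₀ * ((1 + (k:ℝ))^4 * (lam⁻¹)^k) := by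
          apply Finset.sum_le_sum
          intro k _
          rw [pow_add]
          have h4 : (1 + ((k + j₀ : ℕ):ℝ))^4 ≤ ((1 + (j₀:ℝ)) * (1 + (k:ℝ)))^4 := by
            apply pow_le_pow_left₀ (by positivity)
            push_cast
            have h5 : (0:ℝ) ≤ j₀ * k := by positivity
            linarith
          calc (1 + ((k + j₀ : ℕ):ℝ))^4 * ((lam⁻¹)^k * (lam⁻¹)^j₀)
              ≤ ((1 + (j₀:ℝ)) * (1 + (k:ℝ)))^4 * ((lam⁻¹)^k * (lam⁻¹)^j₀) := by gcongr
            _ = _ := by ring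
      _ = (1 + (j₀:ℝ))^4 * (lam⁻¹)^j₀ * ∑ k ∈ Finset.range (J + 2 - j₀), ((1 + (k:ℝ))^4 * (lam⁻¹)^k) := by
          rw [Finset.mul_sum]
      _ ≤ _ := by
          gcongr
          exact hser.sum_le_tsum _ (fun k _ => by positivity)
  have hj₀bound : (1 + (j₀:ℝ))^4 * (lam⁻¹)^j₀ ≤ (1 + 1 / Real.log lam)^4 * 16 * lam * ((Real.log Y)^4 / Y) := by
    have h1 : 1 + (j₀:ℝ) ≤ (1 + 1 / Real.log lam) * (2 * Real.log Y) := by
      have h2 : Real.log Y / Real.log lam = (1 / Real.log lam) * Real.log Y := by ring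
      have h3 : 0 < 1 / Real.log lam := by positivity
      rw [h2] at hj₀log
      nlinarith
    have h4 : (lam⁻¹)^j₀ ≤ lam / Y := by
      rw [inv_pow, inv_eq_one_div, div_le_div_iff₀ (by positivity) hY0]
      rw [pow_succ] at hj₀b
      linarith
    calc (1 + (j₀:ℝ))^4 * (lam⁻¹)^j₀ ≤ ((1 + 1 / Real.log lam) * (2 * Real.log Y))^4 * (lam / Y) := by
          apply mul_le_mul _ h4 (by positivity) (by positivity)
          exact pow_le_pow_left₀ (by positivity) h1 4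
      _ = _ := by ring
  have hLgtot : ((M:ℝ) ^ (1/100 : ℝ) / Real.log lam + 3) * Lg ≤ A2 * (M:ℝ)^(15/16 : ℝ) := by
    have hMp : (1:ℝ) ≤ (M:ℝ)^(1/100 : ℝ) := Real.one_le_rpow hM1 (by norm_num)
    have h1 : (M:ℝ) ^ (1/100 : ℝ) / Real.log lam + 3 ≤ (1 / Real.log lam + 3) * (M:ℝ)^(1/100 : ℝ) := by
      have : (M:ℝ) ^ (1/100 : ℝ) / Real.log lam = (1 / Real.log lam) * (M:ℝ)^(1/100 : ℝ) := by ring
      rw [this]
      nlinarith
    have h2 : 1 + ((M:ℝ) ^ (1/100 : ℝ) + Real.log lam) ≤ (2 + Real.log lam) * (M:ℝ)^(1/100 : ℝ) := by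
      nlinarith
    calc ((M:ℝ) ^ (1/100 : ℝ) / Real.log lam + 3) * Lg
        ≤ ((1 / Real.log lam + 3) * (M:ℝ)^(1/100 : ℝ)) *
          ((128 / e^2) * ((2 + Real.log lam) * (M:ℝ)^(1/100 : ℝ)) ^ 5 * (M:ℝ)^(7/8 : ℝ)) := by
          simp only [hLg]
          gcongr
      _ = A2 * (((M:ℝ)^(1/100 : ℝ))^6 * (M:ℝ)^(7/8 : ℝ)) := by
          simp only [hA2]; ring
      _ ≤ A2 * (M:ℝ)^(15/16 : ℝ) := by
          apply mul_le_mul_of_nonneg_left _ hA2'
          rw [← Real.rpow_natCast, ← Real.rpow_mul hM0.le, ← Real.rpow_add hM0]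
          apply Real.rpow_le_rpow_of_exponent_le hM1
          norm_num
  calc (E.card : ℝ) ≤ (((Finset.Icc j₀ (J+1)).biUnion BD).card : ℝ) := by
        exact_mod_cast Finset.card_le_card hcov
    _ ≤ ∑ j ∈ Finset.Icc j₀ (J+1), ((BD j).card : ℝ) := by
        exact_mod_cast Finset.card_biUnion_le
    _ ≤ ∑ j ∈ Finset.Icc j₀ (J+1), ((16 / e^2) * (2 * (1 + Real.log lam)^4 *
          ((1 + (j:ℝ))^4 * (lam⁻¹)^j)) * M + Lg) := Finset.sum_le_sum hj
    _ = (16 / e^2) * (2 * (1 + Real.log lam)^4) * M * (∑ j ∈ Finset.Icc j₀ (J+1),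
          ((1 + (j:ℝ))^4 * (lam⁻¹)^j)) + ((Finset.Icc j₀ (J+1)).card : ℝ) * Lg := by
        rw [Finset.sum_add_distrib, Finset.sum_const, nsmul_eq_mul, Finset.mul_sum]
        congr 1
        apply Finset.sum_congr rfl
        intro j _
        ring
    _ ≤ (16 / e^2) * (2 * (1 + Real.log lam)^4) * M * (((1 + 1 / Real.log lam)^4 * 16 * lam *
          ((Real.log Y)^4 / Y)) * Z) + ((M:ℝ) ^ (1/100 : ℝ) / Real.log lam + 3) * Lg := by
        gcongr
        · exact htail.trans (mul_le_mul_of_nonneg_right hj₀bound hZ0)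
        · rw [Nat.card_Icc]
          have : ((J + 1 + 1 - j₀ : ℕ) : ℝ) ≤ (J:ℝ) + 2 := by
            have : J + 1 + 1 - j₀ ≤ J + 2 := by omega
            exact_mod_cast this
          linarith
    _ ≤ A1 * (M * (Real.log Y)^4 / Y) + A2 * (M:ℝ)^(15/16 : ℝ) := by
        apply add_le_add _ hLgtot
        apply le_of_eq
        simp only [hA1]
        ring
    _ ≤ (A1 + A2 + 1) * (M * (Real.log Y)^4 / Y + (M:ℝ)^(15/16 : ℝ)) := by
        have h1 : 0 ≤ M * (Real.log Y)^4 / Y := by positivity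
        have h2 : 0 ≤ (M:ℝ)^(15/16 : ℝ) := by positivity
        nlinarith

end Pool.Agent.Helper6
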