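import Mathlib

open MeasureTheory Set Filter Topology Real

namespace Pool.Agent.Helper6

/-- The Fejer-type kernel `∫_{-1}^1 (1-|y|) cos (v y) dy`. -/
noncomputable def fejK (v : ℝ) : ℝ := ∫ y in (-1:ℝ)..1, (1 - |y|) * Real.cos (v * y)

lemma fejK_zero : fejK 0 = 1 := by
  unfold fejK
  simp only [zero_mul, Real.cos_zero, mul_one]
  rw [← intervalIntegral.integral_add_adjacent_intervals (b := 0)]
  · have h1 : ∫ y in (-1:ℝ)..0, (1 - |y|) = ∫ y in (-1:ℝ)..0, (1 + y) := by
      apply intervalIntegral.integral_congr
      intro y hy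
      rw [uIcc_of_le (by norm_num)] at hy
      simp only [abs_of_nonpos hy.2]
      ring
    have h2 : ∫ y in (0:ℝ)..1, (1 - |y|) = ∫ y in (0:ℝ)..1, (1 - y) := by
      apply intervalIntegral.integral_congr
      intro y hy
      rw [uIcc_of_le (by norm_num)] at hy
      simp only [abs_of_nonneg hy.1]
    rw [h1, h2]
    rw [intervalIntegral.integral_add (by simp) (by simp),
      intervalIntegral.integral_sub (by simp) (by simp)]
    simp [integral_id]
    norm_num
  · apply Continuous.intervalIntegrable; fun_prop
  · apply Continuous.intervalIntegrable; fun_prop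

lemma fejK_eq {v : ℝ} (hv : v ≠ 0) : fejK v = 2 * (1 - Real.cos v) / v ^ 2 := by
  unfold fejK
  rw [← intervalIntegral.integral_add_adjacent_intervals (b := 0)
    (by apply Continuous.intervalIntegrable; fun_prop)
    (by apply Continuous.intervalIntegrable; fun_prop)]
  have h2 : ∫ y in (0:ℝ)..1, (1 - |y|) * Real.cos (v * y) = (1 - Real.cos v) / v ^ 2 := by
    have : ∫ y in (0:ℝ)..1, (1 - |y|) * Real.cos (v * y)
        = ∫ y in (0:ℝ)..1, (1 - y) * Real.cos (v * y) := by
      apply intervalIntegral.integral_congr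
      intro y hy
      rw [uIcc_of_le (by norm_num)] at hy
      simp only [abs_of_nonneg hy.1]
    rw [this]
    have hd : ∀ y ∈ uIcc (0:ℝ) 1, HasDerivAt
        (fun y => (1 - y) * Real.sin (v * y) / v - Real.cos (v * y) / v ^ 2)
        ((1 - y) * Real.cos (v * y)) y := by
      intro y _
      have h1 : HasDerivAt (fun y : ℝ => v * y) v y := by
        simpa using (hasDerivAt_id y).const_mul v
      have hs := (Real.hasDerivAt_sin (v * y)).comp y h1
      have hc := (Real.hasDerivAt_cos (v * y)).comp y h1
      have h3 : HasDerivAt (fun y : ℝ => 1 - y) (-1) y := by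
        simpa using (hasDerivAt_id y).const_sub 1
      have := ((h3.mul hs).div_const v).sub (hc.div_const (v ^ 2))
      refine this.congr_deriv ?_
      simp only [Function.comp_apply]
      field_simp
      ring
    rw [intervalIntegral.integral_eq_sub_of_hasDerivAt hd
      (by apply Continuous.intervalIntegrable; fun_prop)]
    simp
    field_simp
    ring
  have h1 : ∫ y in (-1:ℝ)..0, (1 - |y|) * Real.cos (v * y)
      = ∫ y in (0:ℝ)..1, (1 - |y|) * Real.cos (v * y) := by
    rw [← neg_zero (G := ℝ), ← intervalIntegral.integral_comp_neg]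
    simp
  rw [h1, h2]
  ring

lemma fejK_nonneg (v : ℝ) : 0 ≤ fejK v := by
  by_cases hv : v = 0
  · rw [hv, fejK_zero]; norm_num
  · rw [fejK_eq hv]
    have := Real.cos_le_one v
    apply div_nonneg _ (sq_nonneg _)
    linarith

lemma fejK_continuous : Continuous fejK := by
  unfold fejK
  apply intervalIntegral.continuous_parametric_intervalIntegral_of_continuous'
  fun_prop

lemma fejK_le_one (v : ℝ) : fejK v ≤ 1 := by
  rw [← fejK_zero]
  unfold fejK
  apply intervalIntegral.integral_mono_on (by norm_num)
  · apply Continuous.intervalIntegrable; fun_prop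
  · apply Continuous.intervalIntegrable; fun_prop
  · intro y hy
    simp only [zero_mul, Real.cos_zero, mul_one]
    have h1 : |y| ≤ 1 := abs_le.mpr hy
    have h2 := Real.cos_le_one (v * y)
    nlinarith

lemma fejK_le (v : ℝ) : fejK v ≤ 8 * (1 + v ^ 2)⁻¹ := by
  rw [← div_eq_mul_inv, le_div_iff₀ (by positivity)]
  by_cases h : |v| ≤ 1
  · have h1 := fejK_le_one v
    have h2 : v ^ 2 ≤ 1 := by rw [← sq_abs]; nlinarith [abs_nonneg v]
    have h3 := fejK_nonneg v
    nlinarith
  · have hv : v ≠ 0 := by rintro rfl; simp at h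
    rw [fejK_eq hv]
    have h2 : 1 ≤ v ^ 2 := by rw [← sq_abs]; push Not at h; nlinarith [abs_nonneg v]
    have h3 := Real.neg_one_le_cos v
    have h4 : 0 < v ^ 2 := by linarith
    rw [div_mul_eq_mul_div, div_le_iff₀ h4]
    have h5 := Real.cos_le_one v
    nlinarith

lemma fejK_integrable : Integrable fejK := by
  apply Integrable.mono' (integrable_inv_one_add_sq.const_mul 8)
  · exact fejK_continuous.aestronglyMeasurable
  · filter_upwards with v
    rw [Real.norm_of_nonneg (fejK_nonneg v)]
    exact fejK_le v

lemma fejK_integral_pos : 0 < ∫ v, fejK v := by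
  rw [integral_pos_iff_support_of_nonneg (fun v => fejK_nonneg v) fejK_integrable]
  apply IsOpen.measure_pos
  · exact fejK_continuous.isOpen_support
  · exact ⟨0, by simp [fejK_zero]⟩

lemma fejK_complex (v : ℝ) :
    ((fejK v : ℝ) : ℂ) = ∫ y in (-1:ℝ)..1, ((1 - |y| : ℝ) : ℂ) * Complex.exp (Complex.I * (v * y)) := by
  have h1 : ∀ y : ℝ, ((1 - |y| : ℝ) : ℂ) * Complex.exp (Complex.I * (v * y))
      = (((1 - |y|) * Real.cos (v * y) : ℝ) : ℂ) + (((1 - |y|) * Real.sin (v * y) : ℝ) : ℂ) * Complex.I := by
    intro y
    rw [mul_comm Complex.I, Complex.exp_mul_I]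
    push_cast
    ring
  simp_rw [h1]
  rw [intervalIntegral.integral_add, intervalIntegral.integral_mul_const,
    intervalIntegral.integral_ofReal, intervalIntegral.integral_ofReal]
  · have : ∫ y in (-1:ℝ)..1, (1 - |y|) * Real.sin (v * y) = 0 := by
      have h2 := intervalIntegral.integral_comp_neg (a := (-1:ℝ)) (b := 1)
        (f := fun y => (1 - |y|) * Real.sin (v * y))
      simp only [abs_neg, mul_neg, Real.sin_neg, neg_neg, intervalIntegral.integral_neg] at h2
      linarith
    rw [this]
    simp [fejK]
  · apply Continuous.intervalIntegrable; fun_prop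
  · apply Continuous.intervalIntegrable; fun_prop

end Pool.Agent.Helper6
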