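import Pool.Agent.Helper6.FejerKernel

open MeasureTheory Set Filter Topology Real

namespace Pool.Agent.Helper6

lemma integrableOn_mul_exp {h : ℝ → ℝ} {B : ℝ} (hmeas : Measurable h) (hB : ∀ t, |h t| ≤ B)
    {δ : ℝ} (hδ : 0 < δ) : IntegrableOn (fun t => h t * Real.exp (-δ * t)) (Ioi (0:ℝ)) := by
  have h1 : IntegrableOn (fun t => B * Real.exp (-δ * t)) (Ioi (0:ℝ)) :=
    (exp_neg_integrableOn_Ioi 0 hδ).const_mul B
  apply Integrable.mono' h1
  · exact (hmeas.mul (by fun_prop)).aestronglyMeasurable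
  · filter_upwards with t
    rw [norm_mul, Real.norm_eq_abs, Real.norm_of_nonneg (Real.exp_pos _).le]
    exact mul_le_mul_of_nonneg_right (hB t) (Real.exp_pos _).le

/-- Fubini identity for `δ > 0`. -/
lemma fubini_step {h : ℝ → ℝ} {B : ℝ} (hmeas : Measurable h) (hB : ∀ t, |h t| ≤ B) {g : ℂ → ℂ}
    (hg : ∀ z : ℂ, 0 < z.re → ∫ t in Ioi (0:ℝ), (h t : ℂ) * Complex.exp (-z * t) = g z)
    {δ : ℝ} (hδ : 0 < δ) (lam u : ℝ) :
    ((∫ t in Ioi (0:ℝ), h t * Real.exp (-δ * t) * fejK (lam * (u - t)) : ℝ) : ℂ)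
      = ∫ y in (-1:ℝ)..1, ((1 - |y| : ℝ) : ℂ) * Complex.exp (Complex.I * (lam * u * y)) *
          g (δ + Complex.I * (lam * y)) := by
  rw [← integral_complex_ofReal]
  set F : ℝ → ℝ → ℂ := fun t y => ((h t * Real.exp (-δ * t) : ℝ) : ℂ) *
    (((1 - |y| : ℝ) : ℂ) * Complex.exp (Complex.I * ((lam * (u - t) : ℝ) * y))) with hF
  have h1 : ∀ t : ℝ, ((h t * Real.exp (-δ * t) * fejK (lam * (u - t)) : ℝ) : ℂ)
      = ∫ y in Ioc (-1:ℝ) 1, F t y := by
    intro t
    rw [Complex.ofReal_mul, fejK_complex, intervalIntegral.integral_of_le (by norm_num),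
      ← integral_const_mul]
  simp_rw [h1]
  rw [intervalIntegral.integral_of_le (by norm_num)]
  rw [MeasureTheory.integral_integral_swap]
  · apply setIntegral_congr_fun measurableSet_Ioc
    intro y _
    simp only [hF]
    rw [← hg (δ + Complex.I * (lam * y)) (by simp [hδ]), ← integral_const_mul]
    apply setIntegral_congr_fun measurableSet_Ioi
    intro t _
    simp only
    push_cast
    have : Complex.exp (Complex.I * (lam * (u - t) * y)) =
        Complex.exp (Complex.I * (lam * u * y)) * Complex.exp (- (Complex.I * (lam * y)) * t) := by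
      rw [← Complex.exp_add]; congr 1; ring
    rw [this]
    have h2 : Complex.exp (-(δ + Complex.I * (lam * y)) * t) =
        Complex.exp (-δ * t) * Complex.exp (- (Complex.I * (lam * y)) * t) := by
      rw [← Complex.exp_add]; congr 1; ring
    rw [h2]
    ring
  · have hp : Integrable (Function.uncurry fun (t y : ℝ) =>
        ((h t * Real.exp (-δ * t) : ℝ) : ℂ) * ((1 - |y| : ℝ) : ℂ))
        ((volume.restrict (Ioi (0:ℝ))).prod (volume.restrict (Ioc (-1:ℝ) 1))) := by
      apply Integrable.mul_prod (f := fun t : ℝ => ((h t * Real.exp (-δ * t) : ℝ) : ℂ))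
        (g := fun y : ℝ => ((1 - |y| : ℝ) : ℂ))
      · exact (integrableOn_mul_exp hmeas hB hδ).ofReal
      · apply Integrable.ofReal
        have hc : Continuous (fun y : ℝ => 1 - |y|) := by fun_prop
        exact (hc.integrableOn_Icc (a := (-1:ℝ)) (b := 1)).mono_set Ioc_subset_Icc_self
    apply Integrable.mono hp
    · apply Measurable.aestronglyMeasurable
      simp only [hF, Function.uncurry_def]
      fun_prop
    · filter_upwards with p
      obtain ⟨t, y⟩ := p
      simp only [Function.uncurry_apply_pair, hF]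
      rw [← mul_assoc, norm_mul]
      have : ‖Complex.exp (Complex.I * ((lam * (u - t) : ℝ) * y))‖ = 1 := by
        rw [mul_comm, ← Complex.ofReal_mul, Complex.norm_exp_ofReal_mul_I]
      rw [this, mul_one]

/-- The identity in the limit `δ → 0`. -/
lemma limit_step {h : ℝ → ℝ} {B : ℝ} (hmeas : Measurable h) (hB : ∀ t, |h t| ≤ B) {g : ℂ → ℂ}
    (hgc : ContinuousOn g {z | 0 ≤ z.re})
    (hg : ∀ z : ℂ, 0 < z.re → ∫ t in Ioi (0:ℝ), (h t : ℂ) * Complex.exp (-z * t) = g z)
    {lam : ℝ} (hlam : 0 < lam) (u : ℝ) :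
    ((∫ t in Ioi (0:ℝ), h t * fejK (lam * (u - t)) : ℝ) : ℂ)
      = ∫ y in (-1:ℝ)..1, ((1 - |y| : ℝ) : ℂ) * Complex.exp (Complex.I * (lam * u * y)) *
          g (Complex.I * (lam * y)) := by
  have hB0 : 0 ≤ B := (abs_nonneg _).trans (hB 0)
  have hKint : Integrable (fun t => fejK (lam * (u - t))) := by
    have h1 : Integrable (fun t => fejK (lam * t)) := fejK_integrable.comp_mul_left' hlam.ne'
    exact h1.comp_sub_left u
  -- left side
  have hL : Tendsto (fun δ : ℝ => ((∫ t in Ioi (0:ℝ), h t * Real.exp (-δ * t) *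
      fejK (lam * (u - t)) : ℝ) : ℂ)) (𝓝[>] 0)
      (𝓝 ((∫ t in Ioi (0:ℝ), h t * fejK (lam * (u - t)) : ℝ) : ℂ)) := by
    apply (Complex.continuous_ofReal.tendsto _).comp
    apply tendsto_integral_filter_of_dominated_convergence (fun t => B * fejK (lam * (u - t)))
    · filter_upwards with δ
      apply Measurable.aestronglyMeasurable
      have := fejK_continuous.measurable
      fun_prop
    · filter_upwards [self_mem_nhdsWithin] with δ hδ
      filter_upwards [ae_restrict_mem measurableSet_Ioi] with t ht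
      rw [norm_mul, norm_mul, Real.norm_of_nonneg (fejK_nonneg _), Real.norm_of_nonneg (exp_pos _).le,
        Real.norm_eq_abs]
      apply mul_le_mul_of_nonneg_right _ (fejK_nonneg _)
      have h1 : Real.exp (-δ * t) ≤ 1 := by
        apply Real.exp_le_one_iff.mpr
        have h2 : 0 < δ * t := mul_pos hδ ht
        linarith
      calc |h t| * Real.exp (-δ * t) ≤ B * 1 :=
            mul_le_mul (hB t) h1 (exp_pos _).le hB0
        _ = B := mul_one B
    · exact (hKint.const_mul B).integrableOn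
    · filter_upwards with t
      have : Tendsto (fun δ : ℝ => h t * Real.exp (-δ * t) * fejK (lam * (u - t))) (𝓝 0)
          (𝓝 (h t * Real.exp (-0 * t) * fejK (lam * (u - t)))) := by
        apply Continuous.tendsto
        fun_prop
      simp only [neg_zero, zero_mul, Real.exp_zero, mul_one] at this
      exact this.mono_left nhdsWithin_le_nhds
  -- right side
  have hK : IsCompact ((Icc (0:ℝ) 1) ×ˢ (Icc (-1:ℝ) 1)) := isCompact_Icc.prod isCompact_Icc
  have hmaps : MapsTo (fun p : ℝ × ℝ => ((p.1 : ℂ) + Complex.I * (lam * p.2)))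
      ((Icc (0:ℝ) 1) ×ˢ (Icc (-1:ℝ) 1)) {z : ℂ | 0 ≤ z.re} := by
    rintro ⟨a, b⟩ ⟨ha, hb⟩
    simp only [mem_ofPred_eq, Complex.add_re, Complex.ofReal_re, Complex.mul_re, Complex.I_re,
      zero_mul, Complex.I_im, one_mul, Complex.mul_im, Complex.ofReal_im, mul_zero, add_zero, zero_add]
    simpa using ha.1
  have hcont : ContinuousOn (fun p : ℝ × ℝ => g ((p.1 : ℂ) + Complex.I * (lam * p.2)))
      ((Icc (0:ℝ) 1) ×ˢ (Icc (-1:ℝ) 1)) := by
    apply hgc.comp _ hmaps
    fun_prop
  obtain ⟨C, hC⟩ := hK.exists_bound_of_continuousOn hcont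
  have hR : Tendsto (fun δ : ℝ => ∫ y in (-1:ℝ)..1, ((1 - |y| : ℝ) : ℂ) *
      Complex.exp (Complex.I * (lam * u * y)) * g (δ + Complex.I * (lam * y))) (𝓝[>] 0)
      (𝓝 (∫ y in (-1:ℝ)..1, ((1 - |y| : ℝ) : ℂ) * Complex.exp (Complex.I * (lam * u * y)) *
          g (Complex.I * (lam * y)))) := by
    have hmem : Ioc (0:ℝ) 1 ∈ 𝓝[>] (0:ℝ) := Ioc_mem_nhdsGT (by norm_num)
    apply intervalIntegral.tendsto_integral_filter_of_dominated_convergence (fun _ => C)
    · filter_upwards [hmem] with δ hδ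
      apply ContinuousOn.aestronglyMeasurable _ measurableSet_uIoc
      apply ContinuousOn.mul
      · apply Continuous.continuousOn; fun_prop
      · have : ContinuousOn (fun y : ℝ => ((δ, y) : ℝ × ℝ)) (uIoc (-1:ℝ) 1) := by
          apply Continuous.continuousOn; fun_prop
        refine hcont.comp this ?_
        intro y hy
        rw [uIoc_of_le (by norm_num)] at hy
        exact ⟨Ioc_subset_Icc_self hδ, Ioc_subset_Icc_self hy⟩
    · filter_upwards [hmem] with δ hδ
      filter_upwards with y hy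
      rw [uIoc_of_le (by norm_num)] at hy
      have h1 := hC (δ, y) ⟨Ioc_subset_Icc_self hδ, Ioc_subset_Icc_self hy⟩
      rw [norm_mul, norm_mul]
      have h2 : ‖Complex.exp (Complex.I * (lam * u * y))‖ = 1 := by
        rw [mul_comm, ← Complex.ofReal_mul, ← Complex.ofReal_mul, Complex.norm_exp_ofReal_mul_I]
      rw [h2, mul_one, Complex.norm_real, Real.norm_eq_abs]
      have h3 : abs (1 - |y|) ≤ 1 := by
        rw [abs_le]
        have : |y| ≤ 1 := abs_le.mpr ⟨hy.1.le, hy.2⟩
        constructor <;> linarith [abs_nonneg y]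
      calc abs (1 - |y|) * ‖g (δ + Complex.I * (lam * y))‖ ≤ 1 * C :=
            mul_le_mul h3 h1 (norm_nonneg _) zero_le_one
        _ = C := one_mul C
    · simp
    · filter_upwards with y hy
      rw [uIoc_of_le (by norm_num)] at hy
      apply Tendsto.const_mul
      have h1 : ContinuousWithinAt (fun p : ℝ × ℝ => g ((p.1 : ℂ) + Complex.I * (lam * p.2)))
        ((Icc (0:ℝ) 1) ×ˢ (Icc (-1:ℝ) 1)) (0, y) :=
          hcont (0, y) ⟨by simp, Ioc_subset_Icc_self hy⟩
      have h2 : Tendsto (fun δ : ℝ => ((δ, y) : ℝ × ℝ)) (𝓝[>] 0)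
          (𝓝[(Icc (0:ℝ) 1) ×ˢ (Icc (-1:ℝ) 1)] (0, y)) := by
        rw [tendsto_nhdsWithin_iff]
        constructor
        · have : Tendsto (fun δ : ℝ => ((δ, y) : ℝ × ℝ)) (𝓝 0) (𝓝 (0, y)) := by
            apply Continuous.tendsto (by fun_prop)
          exact this.mono_left nhdsWithin_le_nhds
        · filter_upwards [hmem] with δ hδ
          exact ⟨Ioc_subset_Icc_self hδ, Ioc_subset_Icc_self hy⟩
      have h3 := h1.tendsto.comp h2
      simpa [Function.comp_def] using h3
  refine tendsto_nhds_unique (hL.congr' ?_) hR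
  filter_upwards [self_mem_nhdsWithin] with δ hδ
  exact fubini_step hmeas hB hg hδ lam u

/-- Riemann-Lebesgue consequence. -/
lemma rl_step {h : ℝ → ℝ} {B : ℝ} (hmeas : Measurable h) (hB : ∀ t, |h t| ≤ B) {g : ℂ → ℂ}
    (hgc : ContinuousOn g {z | 0 ≤ z.re})
    (hg : ∀ z : ℂ, 0 < z.re → ∫ t in Ioi (0:ℝ), (h t : ℂ) * Complex.exp (-z * t) = g z)
    {lam : ℝ} (hlam : 0 < lam) :
    Tendsto (fun u : ℝ => ∫ t in Ioi (0:ℝ), h t * fejK (lam * (u - t))) atTop (𝓝 0) := by
  have key : Tendsto (fun u : ℝ => ((∫ t in Ioi (0:ℝ), h t * fejK (lam * (u - t)) : ℝ) : ℂ))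
      atTop (𝓝 0) := by
    simp_rw [limit_step hmeas hB hgc hg hlam]
    have h1 := Real.tendsto_integral_exp_smul_cocompact
      (indicator (Ioc (-1:ℝ) 1) (fun y : ℝ => ((1 - |y| : ℝ) : ℂ) * g (Complex.I * (lam * y))))
    have h2 : Tendsto (fun u : ℝ => (-(lam / (2 * π))) * u) atTop (cocompact ℝ) := by
      have h3 : Tendsto (fun u : ℝ => (-(lam / (2 * π))) * u) atTop atBot := by
        apply Tendsto.const_mul_atTop_of_neg _ tendsto_id
        have : 0 < lam / (2 * π) := by positivity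
        linarith
      exact h3.mono_right atBot_le_cocompact
    have h4 := h1.comp h2
    refine h4.congr ?_
    intro u
    simp only [Function.comp_apply]
    rw [intervalIntegral.integral_of_le (by norm_num), ← integral_indicator measurableSet_Ioc]
    congr 1
    ext y
    by_cases hy : y ∈ Ioc (-1:ℝ) 1
    · rw [indicator_of_mem hy, indicator_of_mem hy]
      rw [Circle.smul_def, smul_eq_mul, Real.fourierChar_apply]
      have : (((2 * π * -(y * (-(lam / (2 * π)) * u)) : ℝ)) : ℂ) * Complex.I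
          = Complex.I * (lam * u * y) := by
        push_cast
        field_simp
      rw [this]
      ring
    · rw [indicator_of_notMem hy, indicator_of_notMem hy, smul_zero]
  have := (Complex.continuous_re.tendsto _).comp key
  simpa [Function.comp_def] using this

end Pool.Agent.Helper6
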