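import Pool.Agent.Helper6.FourierStep

open MeasureTheory Set Filter Topology Real

namespace Pool.Agent.Helper6

lemma fejK_comp_integrable {lam : ℝ} (hlam : 0 < lam) (u : ℝ) :
    Integrable (fun t => fejK (lam * (u - t))) := by
  have h1 : Integrable (fun t => fejK (lam * t)) := fejK_integrable.comp_mul_left' hlam.ne'
  exact h1.comp_sub_left u

lemma integral_fejK_comp {lam : ℝ} (hlam : 0 < lam) (u : ℝ) :
    ∫ t, fejK (lam * (u - t)) = lam⁻¹ * ∫ v, fejK v := by
  have h1 := integral_sub_left_eq_self (fun t => fejK (lam * t)) volume u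
  rw [h1]
  have h2 := Measure.integral_comp_mul_left fejK lam
  rw [h2, abs_of_pos (by positivity), smul_eq_mul]

lemma integral_fejK_comp_interval {lam : ℝ} (hlam : 0 < lam) (c η : ℝ) :
    ∫ t in (c - η)..(c + η), fejK (lam * (c - t)) = lam⁻¹ * ∫ v in (-(lam * η))..(lam * η), fejK v := by
  have h1 := intervalIntegral.integral_comp_sub_mul (a := c - η) (b := c + η) fejK hlam.ne' (lam * c)
  have h2 : ∀ t, lam * c - lam * t = lam * (c - t) := fun t => by ring
  simp_rw [h2] at h1
  rw [h1, smul_eq_mul]
  congr 2 <;> ring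

lemma tendsto_kI {η : ℝ} (hη : 0 < η) :
    Tendsto (fun lam : ℝ => ∫ v in (-(lam * η))..(lam * η), fejK v) atTop (𝓝 (∫ v, fejK v)) := by
  have h1 : Tendsto (fun lam : ℝ => lam * η) atTop atTop := tendsto_id.atTop_mul_const hη
  exact intervalIntegral_tendsto_integral fejK_integrable (tendsto_neg_atTop_atBot.comp h1) h1

lemma kI_pos {R : ℝ} (hR : 0 < R) : 0 < ∫ v in (-R)..R, fejK v := by
  apply intervalIntegral.integral_pos (by linarith) fejK_continuous.continuousOn
  · intro x _; exact fejK_nonneg x
  · exact ⟨0, ⟨by linarith, by linarith⟩, by rw [fejK_zero]; norm_num⟩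

lemma tendsto_P {lam : ℝ} (hlam : 0 < lam) :
    Tendsto (fun u : ℝ => ∫ t in Ioi (0:ℝ), fejK (lam * (u - t))) atTop
      (𝓝 (lam⁻¹ * ∫ v, fejK v)) := by
  have hlow : Tendsto (fun u : ℝ => lam⁻¹ * ∫ v in (-(lam * u))..(lam * u), fejK v) atTop
      (𝓝 (lam⁻¹ * ∫ v, fejK v)) := by
    apply Tendsto.const_mul
    have h1 : Tendsto (fun u : ℝ => lam * u) atTop atTop := tendsto_id.const_mul_atTop hlam
    exact intervalIntegral_tendsto_integral fejK_integrable (tendsto_neg_atTop_atBot.comp h1) h1
  apply tendsto_of_tendsto_of_tendsto_of_le_of_le' hlow tendsto_const_nhds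
  · filter_upwards [eventually_gt_atTop 0] with u hu
    rw [← integral_fejK_comp_interval hlam u u]
    rw [intervalIntegral.integral_of_le (by linarith)]
    apply setIntegral_mono_set (fejK_comp_integrable hlam u).integrableOn
    · filter_upwards with t using fejK_nonneg _
    · apply Eventually.of_forall
      intro t ht
      simp only [sub_self] at ht
      exact ht.1
  · filter_upwards with u
    rw [← integral_fejK_comp hlam u]
    apply setIntegral_le_integral (fejK_comp_integrable hlam u)
    filter_upwards with t using fejK_nonneg _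

/-- A Wiener-Ikehara type Tauberian theorem (bounded case). -/
theorem tauberian {H : ℝ → ℝ} {B A : ℝ} (hmeas : Measurable H) (hH0 : ∀ t, 0 ≤ H t)
    (hHB : ∀ t, H t ≤ B) 
    (hmono : ∀ s t, 0 ≤ s → s ≤ t → Real.exp s * H s ≤ Real.exp t * H t)
    {g : ℂ → ℂ} (hgc : ContinuousOn g {z | 0 ≤ z.re})
    (hg : ∀ z : ℂ, 0 < z.re →
      ∫ t in Ioi (0:ℝ), ((H t - A : ℝ) : ℂ) * Complex.exp (-z * t) = g z) :
    Tendsto H atTop (𝓝 A) := by
  have hB0 : 0 ≤ B := (hH0 0).trans (hHB 0)
  set κ := ∫ v, fejK v with hκ
  have hκpos : 0 < κ := fejK_integral_pos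
  -- main limit
  have hQ : ∀ lam : ℝ, 0 < lam → Tendsto (fun u : ℝ => ∫ t in Ioi (0:ℝ), H t * fejK (lam * (u - t)))
      atTop (𝓝 (A * (lam⁻¹ * κ))) := by
    intro lam hlam
    have h1 : Tendsto (fun u : ℝ => ∫ t in Ioi (0:ℝ), (H t - A) * fejK (lam * (u - t))) atTop (𝓝 0) := by
      apply rl_step (B := B + |A|) (hmeas.sub_const A) _ hgc hg hlam
      intro t
      calc |H t - A| ≤ |H t| + |A| := abs_sub _ _
        _ ≤ B + |A| := by rw [abs_of_nonneg (hH0 t)]; linarith [hHB t]
    have h2 := h1.add ((tendsto_P hlam).const_mul A)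
    rw [zero_add] at h2
    refine h2.congr ?_
    intro u
    rw [← integral_const_mul, ← integral_add]
    · congr 1; ext t; ring
    · apply Integrable.bdd_mul (c := B + |A|) (fejK_comp_integrable hlam u).integrableOn
      · exact (hmeas.sub_const A).aestronglyMeasurable
      · filter_upwards with t
        rw [Real.norm_eq_abs]
        calc |H t - A| ≤ |H t| + |A| := abs_sub _ _
          _ ≤ B + |A| := by rw [abs_of_nonneg (hH0 t)]; linarith [hHB t]
    · exact (fejK_comp_integrable hlam u).integrableOn.const_mul A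
  have hQint : ∀ lam : ℝ, 0 < lam → ∀ u, IntegrableOn (fun t => H t * fejK (lam * (u - t))) univ := by
    intro lam hlam u
    apply Integrable.bdd_mul (c := B) (fejK_comp_integrable hlam u).integrableOn
    · exact hmeas.aestronglyMeasurable
    · filter_upwards with t
      rw [Real.norm_of_nonneg (hH0 t)]
      exact hHB t
  -- upper inequality
  have hup : ∀ lam η : ℝ, 0 < lam → 0 < η → ∀ u : ℝ, 0 ≤ u →
      H u * (∫ v in (-(lam * η))..(lam * η), fejK v) ≤
        Real.exp (2 * η) * (lam * ∫ t in Ioi (0:ℝ), H t * fejK (lam * ((u + η) - t))) := by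
    intro lam η hlam hη u hu
    have h1 : ∫ t in (u + η - η)..(u + η + η), (Real.exp (-(2 * η)) * H u) * fejK (lam * ((u + η) - t)) ≤
        ∫ t in Ioi (0:ℝ), H t * fejK (lam * ((u + η) - t)) := by
      rw [intervalIntegral.integral_of_le (by linarith)]
      have h2 : ∫ t in Ioc (u + η - η) (u + η + η), (Real.exp (-(2 * η)) * H u) * fejK (lam * ((u + η) - t)) ≤
          ∫ t in Ioc (u + η - η) (u + η + η), H t * fejK (lam * ((u + η) - t)) := by
        apply setIntegral_mono_on
        · exact ((fejK_comp_integrable hlam _).const_mul _).integrableOn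
        · exact (hQint lam hlam _).mono_set (subset_univ _)
        · exact measurableSet_Ioc
        · intro t ht
          apply mul_le_mul_of_nonneg_right _ (fejK_nonneg _)
          have h3 := hmono u t hu (by linarith [ht.1])
          have h4 : Real.exp (-(2 * η)) * H u ≤ Real.exp (-(t - u)) * H u := by
            apply mul_le_mul_of_nonneg_right _ (hH0 u)
            apply Real.exp_le_exp.mpr
            linarith [ht.2]
          have h5 : Real.exp (-(t - u)) * H u = Real.exp (-t) * (Real.exp u * H u) := by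
            rw [← mul_assoc, ← Real.exp_add]; congr 2; ring
          have h6 : Real.exp (-t) * (Real.exp t * H t) = H t := by
            rw [← mul_assoc, ← Real.exp_add]; simp
          calc Real.exp (-(2 * η)) * H u ≤ Real.exp (-t) * (Real.exp u * H u) := by rw [← h5]; exact h4
            _ ≤ Real.exp (-t) * (Real.exp t * H t) := mul_le_mul_of_nonneg_left h3 (exp_pos _).le
            _ = H t := h6
      refine h2.trans ?_
      apply setIntegral_mono_set ((hQint lam hlam _).mono_set (subset_univ _))
      · filter_upwards with t using mul_nonneg (hH0 t) (fejK_nonneg _)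
      · apply Eventually.of_forall
        intro t ht
        exact lt_of_le_of_lt hu (by simpa using ht.1)
    rw [intervalIntegral.integral_const_mul, integral_fejK_comp_interval hlam] at h1
    have h7 : Real.exp (2 * η) * (lam * (Real.exp (-(2 * η)) * H u *
        (lam⁻¹ * ∫ v in (-(lam * η))..(lam * η), fejK v))) =
        H u * (∫ v in (-(lam * η))..(lam * η), fejK v) := by
      have h8 : Real.exp (2 * η) * Real.exp (-(2 * η)) = 1 := by rw [← Real.exp_add]; simp
      have h9 : lam * lam⁻¹ = 1 := mul_inv_cancel₀ hlam.ne'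
      calc _ = (Real.exp (2 * η) * Real.exp (-(2 * η))) * (lam * lam⁻¹) *
          (H u * (∫ v in (-(lam * η))..(lam * η), fejK v)) := by ring
        _ = _ := by rw [h8, h9]; ring
    rw [← h7]
    exact mul_le_mul_of_nonneg_left (mul_le_mul_of_nonneg_left h1 hlam.le) (exp_pos _).le
  -- lower inequality
  have hlow : ∀ lam η : ℝ, 0 < lam → 0 < η → ∀ u : ℝ, 2 * η ≤ u →
      lam * (∫ t in Ioi (0:ℝ), H t * fejK (lam * ((u - η) - t))) ≤
        Real.exp (2 * η) * H u * (∫ v in (-(lam * η))..(lam * η), fejK v) +
          B * (κ - ∫ v in (-(lam * η))..(lam * η), fejK v) := by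
    intro lam η hlam hη u hu
    set c := u - η with hc
    have hset : MeasurableSet (Ioc (c - η) (c + η)) := measurableSet_Ioc
    have h1 : ∫ t in Ioi (0:ℝ), H t * fejK (lam * (c - t)) ≤
        ∫ t, H t * fejK (lam * (c - t)) := by
      have := hQint lam hlam c
      rw [integrableOn_univ] at this
      apply setIntegral_le_integral this
      filter_upwards with t using mul_nonneg (hH0 t) (fejK_nonneg _)
    have h2 : ∫ t, H t * fejK (lam * (c - t)) =
        (∫ t in Ioc (c - η) (c + η), H t * fejK (lam * (c - t))) +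
          ∫ t in (Ioc (c - η) (c + η))ᶜ, H t * fejK (lam * (c - t)) := by
      rw [integral_add_compl hset]
      have := hQint lam hlam c
      rwa [integrableOn_univ] at this
    have h3 : ∫ t in Ioc (c - η) (c + η), H t * fejK (lam * (c - t)) ≤
        ∫ t in Ioc (c - η) (c + η), (Real.exp (2 * η) * H u) * fejK (lam * (c - t)) := by
      apply setIntegral_mono_on
      · exact (hQint lam hlam _).mono_set (subset_univ _)
      · exact ((fejK_comp_integrable hlam _).const_mul _).integrableOn
      · exact measurableSet_Ioc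
      · intro t ht
        apply mul_le_mul_of_nonneg_right _ (fejK_nonneg _)
        have ht1 : u - 2 * η < t := by have := ht.1; rw [hc] at this; linarith
        have ht2 : t ≤ u := by have := ht.2; rw [hc] at this; linarith
        have h3 := hmono t u (by linarith) ht2
        have h6 : Real.exp (-t) * (Real.exp t * H t) = H t := by
          rw [← mul_assoc, ← Real.exp_add]; simp
        have h5 : Real.exp (-t) * (Real.exp u * H u) = Real.exp (u - t) * H u := by
          rw [← mul_assoc, ← Real.exp_add]; congr 2; ring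
        calc H t = Real.exp (-t) * (Real.exp t * H t) := h6.symm
          _ ≤ Real.exp (-t) * (Real.exp u * H u) := mul_le_mul_of_nonneg_left h3 (exp_pos _).le
          _ = Real.exp (u - t) * H u := h5
          _ ≤ Real.exp (2 * η) * H u := by
            apply mul_le_mul_of_nonneg_right _ (hH0 u)
            apply Real.exp_le_exp.mpr; linarith
    have h4 : ∫ t in (Ioc (c - η) (c + η))ᶜ, H t * fejK (lam * (c - t)) ≤
        ∫ t in (Ioc (c - η) (c + η))ᶜ, B * fejK (lam * (c - t)) := by
      apply setIntegral_mono_on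
      · exact (hQint lam hlam _).mono_set (subset_univ _)
      · exact ((fejK_comp_integrable hlam _).const_mul _).integrableOn
      · exact hset.compl
      · intro t _
        exact mul_le_mul_of_nonneg_right (hHB t) (fejK_nonneg _)
    have h5 : ∫ t in Ioc (c - η) (c + η), fejK (lam * (c - t)) =
        lam⁻¹ * ∫ v in (-(lam * η))..(lam * η), fejK v := by
      rw [← integral_fejK_comp_interval hlam c η, intervalIntegral.integral_of_le (by linarith)]
    have h6 : ∫ t in (Ioc (c - η) (c + η))ᶜ, fejK (lam * (c - t)) =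
        lam⁻¹ * (κ - ∫ v in (-(lam * η))..(lam * η), fejK v) := by
      have h7 := integral_add_compl hset (fejK_comp_integrable hlam c)
      rw [h5, integral_fejK_comp hlam c] at h7
      rw [mul_sub]
      linarith
    rw [integral_const_mul, h5] at h3
    rw [integral_const_mul, h6] at h4
    have h9 : lam * lam⁻¹ = 1 := mul_inv_cancel₀ hlam.ne'
    calc lam * (∫ t in Ioi (0:ℝ), H t * fejK (lam * (c - t)))
        ≤ lam * (Real.exp (2 * η) * H u * (lam⁻¹ * ∫ v in (-(lam * η))..(lam * η), fejK v) +
          B * (lam⁻¹ * (κ - ∫ v in (-(lam * η))..(lam * η), fejK v))) := by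
          apply mul_le_mul_of_nonneg_left _ hlam.le
          linarith
      _ = (lam * lam⁻¹) * (Real.exp (2 * η) * H u * (∫ v in (-(lam * η))..(lam * η), fejK v) +
          B * (κ - ∫ v in (-(lam * η))..(lam * η), fejK v)) := by ring
      _ = _ := by rw [h9, one_mul]
  -- conclusion
  rw [tendsto_order]
  have hE1 : Tendsto (fun η : ℝ => Real.exp (2 * η) * A) (𝓝[>] 0) (𝓝 A) := by
    have : Tendsto (fun η : ℝ => Real.exp (2 * η) * A) (𝓝 0) (𝓝 (Real.exp (2 * 0) * A)) := by
      apply Continuous.tendsto; fun_prop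
    simp only [mul_zero, Real.exp_zero, one_mul] at this
    exact this.mono_left nhdsWithin_le_nhds
  have hE2 : Tendsto (fun η : ℝ => Real.exp (-(2 * η)) * A) (𝓝[>] 0) (𝓝 A) := by
    have : Tendsto (fun η : ℝ => Real.exp (-(2 * η)) * A) (𝓝 0) (𝓝 (Real.exp (-(2 * 0)) * A)) := by
      apply Continuous.tendsto; fun_prop
    simp only [mul_zero, neg_zero, Real.exp_zero, one_mul] at this
    exact this.mono_left nhdsWithin_le_nhds
  have hcancel : ∀ lam : ℝ, 0 < lam → lam * (A * (lam⁻¹ * κ)) = A * κ := by
    intro lam hlam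
    field_simp
  constructor
  · intro a ha
    obtain ⟨η, hη1, hη⟩ := ((hE2.eventually (lt_mem_nhds ha)).and self_mem_nhdsWithin).exists
    have hη : 0 < η := hη
    have hkI := tendsto_kI hη
    have h1 : Tendsto (fun lam : ℝ => Real.exp (-(2 * η)) * ((A * κ - B * (κ -
        ∫ v in (-(lam * η))..(lam * η), fejK v)) / ∫ v in (-(lam * η))..(lam * η), fejK v)) atTop
        (𝓝 (Real.exp (-(2 * η)) * ((A * κ - B * (κ - κ)) / κ))) := by
      apply Tendsto.const_mul
      apply Tendsto.div _ hkI hκpos.ne'
      apply tendsto_const_nhds.sub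
      apply Tendsto.const_mul
      exact tendsto_const_nhds.sub hkI
    have h2 : Real.exp (-(2 * η)) * ((A * κ - B * (κ - κ)) / κ) = Real.exp (-(2 * η)) * A := by
      field_simp
      ring
    rw [h2] at h1
    obtain ⟨lam, hlam1, hlam⟩ := ((h1.eventually (lt_mem_nhds hη1)).and (eventually_gt_atTop 0)).exists
    have hk := kI_pos (mul_pos hlam hη)
    have h3 : Tendsto (fun u : ℝ => Real.exp (-(2 * η)) * ((lam * (∫ t in Ioi (0:ℝ), H t *
        fejK (lam * ((u - η) - t))) - B * (κ -
        ∫ v in (-(lam * η))..(lam * η), fejK v)) / ∫ v in (-(lam * η))..(lam * η), fejK v)) atTop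
        (𝓝 (Real.exp (-(2 * η)) * ((A * κ - B * (κ -
        ∫ v in (-(lam * η))..(lam * η), fejK v)) / ∫ v in (-(lam * η))..(lam * η), fejK v))) := by
      apply Tendsto.const_mul
      apply Tendsto.div_const
      apply Tendsto.sub_const
      rw [← hcancel lam hlam]
      apply Tendsto.const_mul
      exact (hQ lam hlam).comp (tendsto_atTop_add_const_right _ (-η) tendsto_id)
    filter_upwards [h3.eventually (lt_mem_nhds hlam1), eventually_ge_atTop (2 * η)] with u hu1 hu2
    refine hu1.trans_le ?_
    have h4 := hlow lam η hlam hη u hu2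
    have h5 : (lam * (∫ t in Ioi (0:ℝ), H t * fejK (lam * ((u - η) - t))) - B * (κ -
        ∫ v in (-(lam * η))..(lam * η), fejK v)) / (∫ v in (-(lam * η))..(lam * η), fejK v) ≤
        Real.exp (2 * η) * H u := by
      rw [div_le_iff₀ hk]
      linarith
    calc _ ≤ Real.exp (-(2 * η)) * (Real.exp (2 * η) * H u) :=
          mul_le_mul_of_nonneg_left h5 (exp_pos _).le
      _ = H u := by rw [← mul_assoc, ← Real.exp_add]; simp
  · intro a ha
    obtain ⟨η, hη1, hη⟩ := ((hE1.eventually (gt_mem_nhds ha)).and self_mem_nhdsWithin).exists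
    have hη : 0 < η := hη
    have hkI := tendsto_kI hη
    have h1 : Tendsto (fun lam : ℝ => Real.exp (2 * η) * (A * κ) /
        ∫ v in (-(lam * η))..(lam * η), fejK v) atTop
        (𝓝 (Real.exp (2 * η) * (A * κ) / κ)) := by
      apply Tendsto.div _ hkI hκpos.ne'
      exact tendsto_const_nhds
    have h2 : Real.exp (2 * η) * (A * κ) / κ = Real.exp (2 * η) * A := by
      field_simp
    rw [h2] at h1
    obtain ⟨lam, hlam1, hlam⟩ := ((h1.eventually (gt_mem_nhds hη1)).and (eventually_gt_atTop 0)).exists
    have hk := kI_pos (mul_pos hlam hη)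
    have h3 : Tendsto (fun u : ℝ => Real.exp (2 * η) * (lam * (∫ t in Ioi (0:ℝ), H t *
        fejK (lam * ((u + η) - t)))) / ∫ v in (-(lam * η))..(lam * η), fejK v) atTop
        (𝓝 (Real.exp (2 * η) * (A * κ) / ∫ v in (-(lam * η))..(lam * η), fejK v)) := by
      apply Tendsto.div_const
      apply Tendsto.const_mul
      rw [← hcancel lam hlam]
      apply Tendsto.const_mul
      exact (hQ lam hlam).comp (tendsto_atTop_add_const_right _ η tendsto_id)
    filter_upwards [h3.eventually (gt_mem_nhds hlam1), eventually_ge_atTop 0] with u hu1 hu2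
    refine lt_of_le_of_lt ?_ hu1
    rw [le_div_iff₀ hk]
    exact hup lam η hlam hη u hu2

end Pool.Agent.Helper6
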