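import Pool.Agent.Helper6.TwoCoherentE

/-!
# A nontrivial two-coherent family on `ω₂` (ZFC)
-/

namespace Pool.Agent.Helper6.TwoCoherent

open Finset Cardinal

set_option linter.unusedSectionVars false

/-- small subsets of a regular cardinal are bounded -/
lemma bounded_of_card_lt {κ : Cardinal.{0}} (hκ : κ.IsRegular) (S : Set κ.ord.ToType)
    (hS : #S < κ) : ∃ w, ∀ s ∈ S, s < w := by
  by_contra hcon
  push Not at hcon
  have hcof : IsCofinal S := fun a => by
    obtain ⟨s, hs, h⟩ := hcon a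
    exact ⟨s, hs, h⟩
  have h1 := Order.cof_le hcof
  rw [Ordinal.cof_toType, hκ.cof_ord] at h1
  exact absurd hS (not_lt.2 h1)

lemma Iio_card_lt {κ : Cardinal.{0}} (b : κ.ord.ToType) : #(Set.Iio b) < κ := by
  simpa using mk_Iio_lt b

/-- closing off a function on finite sets at a point of uncountable cofinality -/
lemma exists_delta {κ : Cardinal.{0}} (hκ : κ.IsRegular) (hκ1 : ℵ₁ < κ)
    (F : Finset κ.ord.ToType → Finset κ.ord.ToType) :
    ∃ δ : κ.ord.ToType, (∃ x, x < δ) ∧
      (∀ S : Finset κ.ord.ToType, S.Nonempty → (∀ x ∈ S, x < δ) → ∀ x ∈ F S, x < δ) ∧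
      (∀ f : ℕ → κ.ord.ToType, (∀ n, f n < δ) → ∃ w < δ, ∀ n, f n < w) := by
  classical
  -- the closure function
  have hG : ∀ v : κ.ord.ToType, ∃ w : κ.ord.ToType, v < w ∧
      ∀ S : Finset κ.ord.ToType, (∀ x ∈ S, x < v) → ∀ x ∈ F S, x < w := by
    intro v
    have hIio : #(Set.Iio v) < κ := by simpa using mk_Iio_lt v
    have hFin : #(Finset (Set.Iio v)) < κ := by
      rcases finite_or_infinite (Set.Iio v) with h | h
      · exact (lt_aleph0_of_finite _).trans_le hκ.aleph0_le
      · rw [mk_finset_of_infinite]; exact hIio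
    let t : Finset (Set.Iio v) → Set κ.ord.ToType := fun S => (F (S.map ⟨_, Subtype.val_injective⟩) : Set _)
    have hU : #(⋃ S, t S) < κ := by
      rw [card_iUnion_lt_iff_forall_of_isRegular hκ hFin]
      intro S
      exact (lt_aleph0_iff_set_finite.2 (Finset.finite_toSet _)).trans_le hκ.aleph0_le
    obtain ⟨w1, hw1⟩ := bounded_of_card_lt hκ _ hU
    obtain ⟨w2, hw2⟩ := bounded_of_card_lt hκ {v} (by
      rw [mk_singleton]; exact (one_lt_aleph0).trans_le hκ.aleph0_le)
    refine ⟨max w1 w2, lt_of_lt_of_le (hw2 v rfl) (le_max_right _ _), fun S hS x hx => ?_⟩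
    refine lt_of_lt_of_le (hw1 x ?_) (le_max_left _ _)
    refine Set.mem_iUnion.2 ⟨S.subtype (fun x => x < v), ?_⟩
    have : (S.subtype (fun x => x < v)).map ⟨_, Subtype.val_injective⟩ = S := by
      ext y
      simp only [Finset.mem_map, Finset.mem_subtype, Function.Embedding.coeFn_mk, Subtype.exists,
        exists_and_left, exists_prop, exists_eq_right_right]
      exact ⟨fun h => h.1, fun h => ⟨h, hS y h⟩⟩
    change x ∈ ((F ((S.subtype (fun x => x < v)).map ⟨_, Subtype.val_injective⟩) :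
      Finset κ.ord.ToType) : Set κ.ord.ToType)
    rw [this]
    exact hx
  choose G hG1 hG2 using hG
  let W := (ℵ₁ : Cardinal.{0}).ord.ToType
  have hreg1 : (ℵ₁ : Cardinal.{0}).IsRegular := isRegular_aleph_one
  -- small families in `κ` are bounded
  have hbd : ∀ (s : Set W) (D : W → κ.ord.ToType), ∃ w, ∀ j ∈ s, D j < w := by
    intro s D
    obtain ⟨w, hw⟩ := bounded_of_card_lt hκ (D '' s) (by
      refine lt_of_le_of_lt (mk_image_le.trans (mk_set_le s)) ?_
      rw [mk_ord_toType]; exact hκ1)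
    exact ⟨w, fun j hj => hw _ ⟨j, hj, rfl⟩⟩
  -- the increasing sequence
  have hne : Nonempty κ.ord.ToType := by
    rw [← mk_ne_zero_iff, mk_ord_toType]
    exact (aleph0_pos.trans_le hκ.aleph0_le).ne'
  let D : W → κ.ord.ToType := WellFounded.fix (wellFounded_lt (α := W)) (fun i F' =>
    if h : ∃ w, ∀ j, ∀ hj : j < i, G (F' j hj) < w then h.choose else Classical.choice hne)
  have hD : ∀ i j, j < i → G (D j) < D i := by
    intro i j hj
    have hex : ∃ w, ∀ j, ∀ _ : j < i, G (D j) < w := by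
      obtain ⟨w, hw⟩ := hbd (Set.Iio i) (fun j => G (D j))
      exact ⟨w, fun j hj => hw j hj⟩
    have hDi : D i = hex.choose := by
      change WellFounded.fix _ _ i = _
      rw [WellFounded.fix_eq]
      exact dif_pos hex
    rw [hDi]
    exact hex.choose_spec j hj
  have hDlt : ∀ i j, j < i → D j < D i := fun i j hj => (hG1 _).trans (hD i j hj)
  have hnomax : ∀ i : W, ∃ j, i < j := by
    intro i
    obtain ⟨w, hw⟩ := bounded_of_card_lt hreg1 {i} (by
      rw [mk_singleton]; exact (one_lt_aleph0).trans_le hreg1.aleph0_le)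
    exact ⟨w, hw i rfl⟩
  obtain ⟨w0, hw0⟩ := hbd Set.univ D
  obtain ⟨δ, hδ, hδmin⟩ := (wellFounded_lt (α := κ.ord.ToType)).has_min
    {w | ∀ i, D i < w} ⟨w0, fun i => hw0 i trivial⟩
  have hex : ∀ x, x < δ → ∃ i, x < D i := by
    intro x hx
    by_contra hcon
    push Not at hcon
    refine hδmin x (fun i => ?_) hx
    obtain ⟨j, hj⟩ := hnomax i
    exact (hDlt j i hj).trans_le (hcon j)
  have hWne : Nonempty W := by
    rw [← mk_ne_zero_iff, mk_ord_toType]
    exact (aleph0_pos.trans_le hreg1.aleph0_le).ne'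
  refine ⟨δ, ⟨D (Classical.choice hWne), hδ _⟩, ?_, ?_⟩
  · intro S hS hSδ x hx
    obtain ⟨i, hi⟩ := hex (S.max' hS) (hSδ _ (S.max'_mem hS))
    have h1 := hG2 (D i) S (fun y hy => (S.le_max' y hy).trans_lt hi) x hx
    obtain ⟨j, hj⟩ := hnomax i
    exact h1.trans ((hD j i hj).trans (hδ j))
  · intro f hf
    choose i hi using fun n => hex (f n) (hf n)
    obtain ⟨w, hw⟩ := bounded_of_card_lt hreg1 (Set.range i) (by
      refine lt_of_le_of_lt (mk_le_aleph0_iff.2 (Set.countable_range i).to_subtype) ?_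
      exact aleph0_lt_aleph_one)
    exact ⟨D w, hδ w, fun n => (hi n).trans (hDlt w (i n) (hw _ ⟨n, rfl⟩))⟩

lemma regular_two : (ℵ_ ((2 : ℕ) : Ordinal.{0})).IsRegular := by
  have : ((2 : ℕ) : Ordinal.{0}) = 1 + 1 := by norm_num
  rw [this]
  exact isRegular_aleph_add_one 1

lemma aleph_one_lt_two : ℵ₁ < (ℵ_ ((2 : ℕ) : Ordinal.{0})) := by
  rw [aleph_lt_aleph]
  norm_num

lemma dd_triple {V : Type*} [LinearOrder V] [Inhabited V] [WellFoundedLT V] {a b c : V}
    (hab : a < b) (hbc : b < c) :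
    dd (bs {a, b, c}) = bs {b, c} + (bs {a, b} + bs {a, c}) := by
  have h1 : (a : V) ∉ ({b, c} : Finset V) := by
    simp only [Finset.mem_insert, Finset.mem_singleton, not_or]
    exact ⟨hab.ne, (hab.trans hbc).ne⟩
  have h3 := dd_kap a (bs {b, c})
  rw [kap_bs, if_neg h1, dd_pair hbc.ne, map_add, kap_bs, kap_bs,
    if_neg (by simpa using hab.ne), if_neg (by simpa using (hab.trans hbc).ne)] at h3
  exact eq_add_of h3

lemma exists_triple {V : Type*} [LinearOrder V] [Inhabited V] {T : Finset V} (hT : T.card = 3) :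
    ∃ a b c, a < b ∧ b < c ∧ T = {a, b, c} := by
  obtain ⟨S, hTS, hS, hSn, -, -⟩ := exists_top (A := Set.univ) (Set.subset_univ _) hT
  obtain ⟨S', hSS', hS', hSn', -, -⟩ := exists_top (A := Set.univ) (Set.subset_univ _) hSn
  obtain ⟨a, rfl⟩ := Finset.card_eq_one.1 hSn'
  refine ⟨a, mx S, mx T, ?_, ?_, ?_⟩
  · exact (hS' (by simp : a ∈ (({a} : Finset V) : Set V))).2
  · exact (hS (mx_mem (nonempty_of_card hSn))).2
  · conv_lhs => rw [hTS, hSS']
    ext x
    simp only [Finset.mem_insert, Finset.mem_singleton]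
    tauto

lemma mn_pair {V : Type*} [LinearOrder V] [Inhabited V] {a b : V} (h : a < b) :
    mn ({a, b} : Finset V) = a := by
  apply le_antisymm
  · exact mn_le (by simp)
  · have := mn_mem (S := ({a, b} : Finset V)) ⟨a, by simp⟩
    rcases Finset.mem_insert.1 this with h1 | h1
    · exact h1.ge
    · rw [Finset.mem_singleton] at h1
      rw [h1]; exact h.le

lemma mx_pair {V : Type*} [LinearOrder V] [Inhabited V] {a b : V} (h : a < b) :
    mx ({a, b} : Finset V) = b := by
  apply le_antisymm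
  · have := mx_mem (S := ({a, b} : Finset V)) ⟨a, by simp⟩
    rcases Finset.mem_insert.1 this with h1 | h1
    · rw [h1]; exact h.le
    · rw [Finset.mem_singleton] at h1
      exact h1.le
  · exact le_mx (by simp)

/-- **Module A**: a nontrivial two-coherent family on `ω₂`, in ZFC. -/
theorem exists_two_coherent : ∃ (V : Type) (_ : LinearOrder V) (_ : WellFoundedLT V)
    (_ : NoMaxOrder V) (S : Type) (m : S → V) (f : V → V → S → ZMod 2),
    (∀ a b c, a < b → b < c → {s | m s < a ∧ f a b s + f b c s + f a c s ≠ 0}.Finite) ∧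
    ¬ ∃ g : V → S → ZMod 2, ∀ a b, a < b → {s | m s < a ∧ f a b s ≠ g a s + g b s}.Finite := by
  classical
  set κ : Cardinal.{0} := ℵ_ ((2 : ℕ) : Ordinal.{0}) with hκ
  have hreg : κ.IsRegular := regular_two
  have hne : Nonempty κ.ord.ToType := by
    rw [← mk_ne_zero_iff, mk_ord_toType]
    exact (aleph0_pos.trans_le hreg.aleph0_le).ne'
  have hnomax : ∀ v : κ.ord.ToType, ∃ w, v < w := by
    intro v
    obtain ⟨w, hw⟩ := bounded_of_card_lt hreg {v} (by
      rw [mk_singleton]; exact (one_lt_aleph0).trans_le hreg.aleph0_le)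
    exact ⟨w, hw v rfl⟩
  obtain ⟨z, -, hz'⟩ := (wellFounded_lt (α := κ.ord.ToType)).has_min Set.univ Set.univ_nonempty
  have hz : ∀ v : κ.ord.ToType, z ≤ v := fun v => not_lt.1 (hz' v trivial)
  let _ : Inhabited κ.ord.ToType := ⟨z⟩
  -- successor
  have hsc : ∀ v : κ.ord.ToType, ∃ w, v < w ∧ ∀ a, v < a → w ≤ a := by
    intro v
    obtain ⟨w, hw, hw'⟩ := (wellFounded_lt (α := κ.ord.ToType)).has_min (Set.Ioi v) (hnomax v)
    exact ⟨w, hw, fun a ha => not_lt.1 (hw' a ha)⟩
  choose sc hsc1 hsc2 using hsc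
  -- (A4)
  obtain ⟨c, hc⟩ : ∃ c, IsSol (Set.univ : Set κ.ord.ToType) 4 c := by
    refine exists_sol_succ (n := 2) fun b _ => exists_sol_of_card_lt 2 _ ?_
    rw [Set.univ_inter]
    exact Iio_card_lt b
  -- `bb`
  let bb : Ch κ.ord.ToType →ₗ[ZMod 2] Ch κ.ord.ToType := c ∘ₗ kap z
  have hbb : ∀ x, bb x = c (kap z x) := fun x => rfl
  have hbd : ∀ x ∈ Cc (Set.univ : Set κ.ord.ToType) 4, bb (dd x) = c x := by
    intro x hx
    have h1 : kap z (dd x) = x + dd (kap z x) := eq_add_of' (dd_kap z x)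
    rw [hbb, h1, map_add, hc.rd _ (kap_mem (Set.mem_univ z) hx), add_zero]
  let f : κ.ord.ToType → κ.ord.ToType → {σ : Finset κ.ord.ToType // σ.card = 4} → ZMod 2 :=
    fun a b σ => (bb (kap (sc (mn σ.1)) (bs {a, b}))) σ.1
  -- the key identity
  have key : ∀ (a b d : κ.ord.ToType), a < b → b < d →
      ∀ σ : {σ : Finset κ.ord.ToType // σ.card = 4}, mn σ.1 < a →
      (bb (bs {a, b, d})) σ.1 = f b d σ + (f a b σ + f a d σ) := by
    intro a b d hab hbd' σ hσ
    have h1 := (dd_kap (sc (mn σ.1)) (bs {a, b, d})).symm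
    rw [dd_triple hab hbd', map_add, map_add] at h1
    have h2 := congrArg bb h1
    rw [map_add, map_add, map_add] at h2
    have hnd : ({a, b, d} : Finset κ.ord.ToType).card = 3 := by
      rw [Finset.card_insert_of_notMem, Finset.card_pair hbd'.ne]
      simp only [Finset.mem_insert, Finset.mem_singleton, not_or]
      exact ⟨hab.ne, (hab.trans hbd').ne⟩
    have hsub : ((({a, b, d} : Finset κ.ord.ToType)) : Set κ.ord.ToType) ⊆
        Set.univ ∩ Set.Ici (sc (mn σ.1)) := by
      intro x hx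
      simp only [Finset.coe_insert, Finset.coe_singleton, Set.mem_insert_iff,
        Set.mem_singleton_iff] at hx
      have hs := hsc2 (mn σ.1) a hσ
      rcases hx with rfl | rfl | rfl
      · exact ⟨trivial, hs⟩
      · exact ⟨trivial, hs.trans hab.le⟩
      · exact ⟨trivial, hs.trans (hab.trans hbd').le⟩
    have h3 : kap (sc (mn σ.1)) (bs {a, b, d}) ∈
        Cc (Set.univ ∩ Set.Ici (sc (mn σ.1))) 4 :=
      kap_mem ⟨trivial, Set.mem_Ici.2 le_rfl⟩ (bs_mem hsub hnd)
    rw [hbd _ (Cc_mono (Set.subset_univ _) h3)] at h2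
    have h4 := hc.filt _ _ h3
    have h5 : (c (kap (sc (mn σ.1)) (bs {a, b, d}))) σ.1 = 0 := by
      by_contra hne'
      have h6 := mem_Cc.1 h4 σ.1 (Finsupp.mem_support_iff.2 hne')
      have h7 := (h6.1 (mn_mem (nonempty_of_card σ.2))).2
      exact absurd h7 (not_le.2 (hsc1 _))
    rw [h2]
    simp only [Finsupp.add_apply, h5, zero_add]
    rfl
  refine ⟨κ.ord.ToType, inferInstance, inferInstance, ⟨hnomax⟩,
    {σ : Finset κ.ord.ToType // σ.card = 4}, fun σ => mn σ.1, f, ?_, ?_⟩
  · intro a b d hab hbd'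
    refine Set.Finite.subset (Set.Finite.preimage (f := Subtype.val)
      (Subtype.val_injective.injOn) (bb (bs {a, b, d})).support.finite_toSet) ?_
    intro σ hσ
    simp only [Set.mem_preimage, Finset.mem_coe, Finsupp.mem_support_iff]
    rw [key a b d hab hbd' σ hσ.1]
    intro h0
    apply hσ.2
    rw [← h0]; ring
  · rintro ⟨g, hg⟩
    -- the corrections
    let FS : Finset κ.ord.ToType → Set {σ : Finset κ.ord.ToType // σ.card = 4} := fun P =>
      {s | mn s.1 < mn P ∧ f (mn P) (mx P) s ≠ g (mn P) s + g (mx P) s}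
    let bf : Finset κ.ord.ToType → Ch κ.ord.ToType := fun P =>
      if h : (FS P).Finite then ∑ σ ∈ h.toFinset, bs σ.1 else 0
    have hbfmem : ∀ P, bf P ∈ Cc Set.univ 4 := by
      intro P
      simp only [bf]
      split_ifs with h
      · exact Submodule.sum_mem _ fun σ _ => bs_mem (Set.subset_univ _) σ.2
      · exact Submodule.zero_mem _
    have hbf : ∀ a b, a < b → ∀ σ : {σ : Finset κ.ord.ToType // σ.card = 4}, mn σ.1 < a →
        (bf {a, b}) σ.1 = f a b σ + g a σ + g b σ := by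
      intro a b hab σ hσ
      have hfin : (FS {a, b}).Finite := by
        simp only [FS, mn_pair hab, mx_pair hab]
        exact hg a b hab
      have h1 : bf {a, b} = ∑ σ ∈ hfin.toFinset, bs σ.1 := by
        simp only [bf]
        rw [dif_pos hfin]
      rw [h1, Finsupp.finsetSum_apply]
      have h2 : ∀ τ ∈ hfin.toFinset, (bs τ.1) σ.1 = if τ = σ then 1 else 0 := by
        intro τ _
        rw [bs, Finsupp.single_apply]
        simp only [Subtype.ext_iff]
      rw [Finset.sum_congr rfl h2, Finset.sum_ite_eq' hfin.toFinset σ (fun _ => (1 : ZMod 2))]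
      have hmem : σ ∈ hfin.toFinset ↔ f a b σ ≠ g a σ + g b σ := by
        rw [Set.Finite.mem_toFinset]
        simp only [FS, mn_pair hab, mx_pair hab, Set.mem_ofPred_eq]
        exact ⟨fun h => h.2, fun h => ⟨hσ, h⟩⟩
      rw [if_congr hmem rfl rfl]
      generalize f a b σ = x
      generalize g a σ = y
      generalize g b σ = w
      revert x y w
      decide
    let e : Ch κ.ord.ToType →ₗ[ZMod 2] Ch κ.ord.ToType := bb + lin bf ∘ₗ dd
    have he : ∀ x, e x = bb x + lin bf (dd x) := fun x => rfl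
    have hbbmem : ∀ x ∈ Cc (Set.univ : Set κ.ord.ToType) 3, bb x ∈ Cc Set.univ 4 := by
      intro x hx
      exact hc.maps (kap_mem (Set.mem_univ z) hx)
    have hefilt : ∀ m x, x ∈ Cc (Set.univ ∩ Set.Ici m : Set κ.ord.ToType) 3 →
        e x ∈ Cc (Set.univ ∩ Set.Ici m) 4 := by
      intro m x hx
      refine maps_to (fun T hT hn => ?_) hx
      obtain ⟨a, b, d, hab, hbd', rfl⟩ := exists_triple hn
      have hma : m ≤ a := (hT (by simp : a ∈ (({a, b, d} : Finset κ.ord.ToType) : Set _))).2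
      have h4 : e (bs {a, b, d}) ∈ Cc (Set.univ : Set κ.ord.ToType) 4 := by
        rw [he]
        refine Submodule.add_mem _ (hbbmem _ (bs_mem (Set.subset_univ _) hn)) ?_
        rw [dd_triple hab hbd', map_add, map_add, lin_bs, lin_bs, lin_bs]
        exact Submodule.add_mem _ (hbfmem _) (Submodule.add_mem _ (hbfmem _) (hbfmem _))
      rw [mem_Cc] at h4 ⊢
      intro τ hτ
      refine ⟨fun x hx => ⟨trivial, ?_⟩, (h4 τ hτ).2⟩
      by_contra hcon
      have hlt : mn τ < a := lt_of_le_of_lt (mn_le hx) (lt_of_lt_of_le (not_le.1 hcon) hma)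
      have hcard := (h4 τ hτ).2
      apply Finsupp.mem_support_iff.1 hτ
      rw [he, dd_triple hab hbd', map_add, map_add, lin_bs, lin_bs, lin_bs]
      simp only [Finsupp.add_apply]
      have k1 := key a b d hab hbd' ⟨τ, hcard⟩ hlt
      have k2 := hbf b d hbd' ⟨τ, hcard⟩ (hlt.trans hab)
      have k3 := hbf a b hab ⟨τ, hcard⟩ hlt
      have k4 := hbf a d (hab.trans hbd') ⟨τ, hcard⟩ hlt
      simp only at k1 k2 k3 k4
      rw [k1, k2, k3, k4]
      generalize f b d ⟨τ, hcard⟩ = x1
      generalize f a b ⟨τ, hcard⟩ = x2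
      generalize f a d ⟨τ, hcard⟩ = x3
      generalize g a ⟨τ, hcard⟩ = x4
      generalize g b ⟨τ, hcard⟩ = x5
      generalize g d ⟨τ, hcard⟩ = x6
      revert x1 x2 x3 x4 x5 x6
      decide
    have hed : ∀ x ∈ Cc (Set.univ : Set κ.ord.ToType) 4, e (dd x) = c x := by
      intro x hx
      rw [he, hbd x hx, dd_dd, map_zero, add_zero]
    -- the 2-solution
    have hr : IsSol (Set.univ : Set κ.ord.ToType) 3 (LinearMap.id + dd ∘ₗ e) := by
      refine ⟨?_, ?_, ?_⟩
      · intro m x hx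
        simp only [LinearMap.add_apply, LinearMap.id_apply, LinearMap.comp_apply]
        exact Submodule.add_mem _ hx (dd_mem (hefilt m x hx))
      · intro x hx
        simp only [LinearMap.add_apply, LinearMap.id_apply, LinearMap.comp_apply]
        rw [hed x hx, hc.dr x hx, add_self_ch]
      · intro x hx
        simp only [LinearMap.add_apply, LinearMap.id_apply, LinearMap.comp_apply]
        rw [map_add, dd_dd, add_zero]
    obtain ⟨δ, ⟨x0, hx0⟩, hδ1, hδ2⟩ := exists_delta hreg aleph_one_lt_two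
      (fun S => vert ((LinearMap.id + dd ∘ₗ e : Ch κ.ord.ToType →ₗ[ZMod 2] Ch κ.ord.ToType) (bs S)))
    refine no_two_sol (δ := δ) hz ((hz x0).trans_lt hx0) hδ2 hr ?_
    intro S hS hn
    have h1 := hr.maps (bs_mem (Set.subset_univ _) hn : bs S ∈ Cc Set.univ 3)
    rw [mem_Cc] at h1 ⊢
    intro τ hτ
    refine ⟨fun x hx => ?_, (h1 τ hτ).2⟩
    exact hδ1 S (nonempty_of_card hn) (fun x hx => hS hx) x (mem_vert.2 ⟨τ, hτ, hx⟩)

end Pool.Agent.Helper6.TwoCoherent
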