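import Mathlib

/-!
# Chain complexes of finite subsets of a well-ordered set over `ZMod 2`

Auxiliary file for the two-coherent family (module A of the blueprint for MP_aa9b56_al).
-/

namespace Pool.Agent.Helper6.TwoCoherent

open Finset

set_option linter.unusedSectionVars false

variable {V : Type*} [LinearOrder V]

/-- Finite chains: formal sums of finite subsets of `V` with coefficients in `ZMod 2`. -/
abbrev Ch (V : Type*) := Finset V →₀ ZMod 2

/-- A basis element. -/
noncomputable def bs (S : Finset V) : Ch V := Finsupp.single S 1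

/-- linear extension of a function on basis elements -/
noncomputable def lin (f : Finset V → Ch V) : Ch V →ₗ[ZMod 2] Ch V :=
  Finsupp.linearCombination (ZMod 2) f

@[simp] lemma lin_bs (f : Finset V → Ch V) (S : Finset V) : lin f (bs S) = f S := by
  simp [lin, bs, Finsupp.linearCombination_single]

lemma add_self_ch (c : Ch V) : c + c = 0 := by
  ext S
  simp only [Finsupp.add_apply, Finsupp.coe_zero, Pi.zero_apply]
  exact CharTwo.add_self_eq_zero _

/-- the boundary operator -/
noncomputable def dd : Ch V →ₗ[ZMod 2] Ch V := lin (fun S => ∑ x ∈ S, bs (S.erase x))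

/-- the cone operator with apex `v` -/
noncomputable def kap (v : V) : Ch V →ₗ[ZMod 2] Ch V :=
  lin (fun S => if v ∈ S then 0 else bs (insert v S))

lemma dd_bs (S : Finset V) : dd (bs S) = ∑ x ∈ S, bs (S.erase x) := by simp [dd]

lemma kap_bs (v : V) (S : Finset V) : kap v (bs S) = if v ∈ S then 0 else bs (insert v S) := by
  simp [kap]

/-- the cone identity on basis elements -/
lemma dd_kap_bs (v : V) (S : Finset V) : dd (kap v (bs S)) + kap v (dd (bs S)) = bs S := by
  rw [kap_bs, dd_bs, map_sum]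
  by_cases hv : v ∈ S
  · rw [if_pos hv, map_zero, zero_add]
    rw [Finset.sum_eq_single v]
    · rw [kap_bs, if_neg (Finset.notMem_erase v S), Finset.insert_erase hv]
    · intro b hb hbv
      rw [kap_bs, if_pos]
      exact Finset.mem_erase.2 ⟨fun h => hbv h.symm, hv⟩
    · intro h; exact absurd hv h
  · rw [if_neg hv, dd_bs, Finset.sum_insert hv, Finset.erase_insert hv]
    have : ∀ x ∈ S, bs ((insert v S).erase x) = kap v (bs (S.erase x)) := by
      intro x hx
      have hxv : v ≠ x := fun h => hv (h ▸ hx)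
      rw [kap_bs, if_neg (fun h => hv (Finset.mem_of_mem_erase h)),
        Finset.erase_insert_of_ne hxv]
    rw [Finset.sum_congr rfl this, add_assoc, add_self_ch, add_zero]

/-- extension of linear identities from basis elements -/
lemma ext_on {f g : Ch V →ₗ[ZMod 2] Ch V} {P : Finset V → Prop}
    (h : ∀ S, P S → f (bs S) = g (bs S)) {c : Ch V} (hc : ∀ S ∈ c.support, P S) : f c = g c := by
  have hc' : c = ∑ S ∈ c.support, c S • bs S := by
    conv_lhs => rw [← Finsupp.sum_single c]
    rw [Finsupp.sum]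
    refine Finset.sum_congr rfl fun S _ => ?_
    rw [bs, Finsupp.smul_single, smul_eq_mul, mul_one]
  rw [hc', map_sum, map_sum]
  refine Finset.sum_congr rfl fun S hS => ?_
  rw [map_smul, map_smul, h S (hc S hS)]

lemma dd_kap (v : V) (c : Ch V) : dd (kap v c) + kap v (dd c) = c := by
  have := ext_on (f := dd ∘ₗ kap v + kap v ∘ₗ dd) (g := LinearMap.id) (P := fun _ => True)
    (fun S _ => by simpa using dd_kap_bs v S) (c := c) (fun _ _ => trivial)
  simpa using this

lemma dd_dd (c : Ch V) : dd (dd c) = 0 := by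
  have := ext_on (f := dd ∘ₗ dd) (g := (0 : Ch V →ₗ[ZMod 2] Ch V)) (P := fun _ => True)
    (c := c) ?_ (fun _ _ => trivial)
  · simpa using this
  · intro S _
    simp only [LinearMap.comp_apply, LinearMap.zero_apply]
    induction S using Finset.induction_on with
    | empty => rw [dd_bs]; simp
    | insert v S hv ih =>
      -- bs (insert v S) = kap v (bs S)
      have h1 : bs (insert v S) = kap v (bs S) := by rw [kap_bs, if_neg hv]
      have h2 : dd (bs (insert v S)) = bs S + kap v (dd (bs S)) := by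
        rw [h1]
        have := dd_kap v (bs S)
        calc dd (kap v (bs S)) = dd (kap v (bs S)) + (kap v (dd (bs S)) + kap v (dd (bs S))) := by
              rw [add_self_ch, add_zero]
          _ = bs S + kap v (dd (bs S)) := by rw [← add_assoc, this]
      rw [h2, map_add]
      have h3 := dd_kap v (dd (bs S))
      rw [ih, map_zero, add_zero] at h3
      rw [h3, add_self_ch]

/-- chains all of whose simplices are subsets of `A` of cardinality `n` -/
def Cc (A : Set V) (n : ℕ) : Submodule (ZMod 2) (Ch V) :=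
  Finsupp.supported (ZMod 2) (ZMod 2) {S | (S : Set V) ⊆ A ∧ S.card = n}

lemma mem_Cc {A : Set V} {n : ℕ} {c : Ch V} :
    c ∈ Cc A n ↔ ∀ S ∈ c.support, (S : Set V) ⊆ A ∧ S.card = n := by
  rw [Cc, Finsupp.mem_supported]
  rfl

lemma bs_mem {A : Set V} {n : ℕ} {S : Finset V} (h : (S : Set V) ⊆ A) (hn : S.card = n) :
    bs S ∈ Cc A n := by
  rw [Cc, bs]
  exact Finsupp.single_mem_supported _ _ ⟨h, hn⟩

lemma Cc_mono {A B : Set V} (h : A ⊆ B) {n : ℕ} : Cc A n ≤ Cc B n :=
  Finsupp.supported_mono fun _ hS => ⟨hS.1.trans h, hS.2⟩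

/-- a linear map sends `Cc A n` into a submodule if it does so on basis elements -/
lemma maps_to {f : Ch V →ₗ[ZMod 2] Ch V} {A : Set V} {n : ℕ} {N : Submodule (ZMod 2) (Ch V)}
    (h : ∀ S : Finset V, (S : Set V) ⊆ A → S.card = n → f (bs S) ∈ N) {c : Ch V}
    (hc : c ∈ Cc A n) : f c ∈ N := by
  have hc' : c = ∑ S ∈ c.support, c S • bs S := by
    conv_lhs => rw [← Finsupp.sum_single c]
    rw [Finsupp.sum]
    refine Finset.sum_congr rfl fun S _ => ?_
    rw [bs, Finsupp.smul_single, smul_eq_mul, mul_one]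
  rw [hc', map_sum]
  refine Submodule.sum_mem _ fun S hS => ?_
  rw [map_smul]
  exact N.smul_mem _ (h S (mem_Cc.1 hc S hS).1 (mem_Cc.1 hc S hS).2)

/-- two linear maps agreeing on the basis of `Cc A n` agree on `Cc A n` -/
lemma eq_on {f g : Ch V →ₗ[ZMod 2] Ch V} {A : Set V} {n : ℕ}
    (h : ∀ S : Finset V, (S : Set V) ⊆ A → S.card = n → f (bs S) = g (bs S)) {c : Ch V}
    (hc : c ∈ Cc A n) : f c = g c :=
  ext_on (P := fun S => (S : Set V) ⊆ A ∧ S.card = n) (fun S hS => h S hS.1 hS.2)
    (fun S hS => mem_Cc.1 hc S hS)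

lemma dd_mem {A : Set V} {n : ℕ} {c : Ch V} (hc : c ∈ Cc A (n + 1)) : dd c ∈ Cc A n := by
  refine maps_to (fun S hS hn => ?_) hc
  rw [dd_bs]
  refine Submodule.sum_mem _ fun x hx => bs_mem ?_ ?_
  · exact (Finset.coe_subset.2 (Finset.erase_subset x S)).trans hS
  · rw [Finset.card_erase_of_mem hx, hn]; rfl

lemma kap_mem {A : Set V} {n : ℕ} {c : Ch V} {v : V} (hv : v ∈ A) (hc : c ∈ Cc A n) :
    kap v c ∈ Cc A (n + 1) := by
  refine maps_to (fun S hS hn => ?_) hc
  rw [kap_bs]
  split_ifs with h
  · exact Submodule.zero_mem _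
  · refine bs_mem ?_ ?_
    · rw [Finset.coe_insert]
      exact Set.insert_subset hv hS
    · rw [Finset.card_insert_of_notMem h, hn]

/-- a cycle of positive degree in `A` is the boundary of a chain in `A` -/
lemma cycle_bd {A : Set V} {n : ℕ} {c : Ch V} {v : V} (hv : v ∈ A) (hc : c ∈ Cc A n)
    (h0 : dd c = 0) : ∃ e ∈ Cc A (n + 1), dd e = c := by
  refine ⟨kap v c, kap_mem hv hc, ?_⟩
  have := dd_kap v c
  rwa [h0, map_zero, add_zero] at this

/-- `r` is a solution in degree `n` (cardinality `n`) on the set `A`. -/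
structure IsSol (A : Set V) (n : ℕ) (r : Ch V →ₗ[ZMod 2] Ch V) : Prop where
  filt : ∀ m : V, ∀ c ∈ Cc (A ∩ Set.Ici m) n, r c ∈ Cc (A ∩ Set.Ici m) n
  rd : ∀ c ∈ Cc A (n + 1), r (dd c) = 0
  dr : ∀ c ∈ Cc A n, dd (r c) = dd c

lemma eq_of_add_eq_zero {a b : Ch V} (h : a + b = 0) : a = b := by
  have : a + b + b = b := by rw [h, zero_add]
  rwa [add_assoc, add_self_ch, add_zero] at this

lemma eq_add_of {a b c : Ch V} (h : a + b = c) : a = c + b := by
  rw [← h, add_assoc, add_self_ch, add_zero]

lemma eq_add_of' {a b c : Ch V} (h : a + b = c) : b = c + a :=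
  eq_add_of (by rw [add_comm]; exact h)

end Pool.Agent.Helper6.TwoCoherent
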