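import Pool.Agent.Helper6.TwoCoherentA

/-!
# The induction step (A1): solutions on initial segments give a solution in the next degree
-/

namespace Pool.Agent.Helper6.TwoCoherent

open Finset

variable {V : Type*} [LinearOrder V]

section minmax

variable [Inhabited V]

/-- minimum (with a junk value for the empty set) -/
noncomputable def mn (S : Finset V) : V := if h : S.Nonempty then S.min' h else default

/-- maximum (with a junk value for the empty set) -/
noncomputable def mx (S : Finset V) : V := if h : S.Nonempty then S.max' h else default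

lemma mn_mem {S : Finset V} (h : S.Nonempty) : mn S ∈ S := by
  rw [mn, dif_pos h]; exact S.min'_mem h

lemma mx_mem {S : Finset V} (h : S.Nonempty) : mx S ∈ S := by
  rw [mx, dif_pos h]; exact S.max'_mem h

lemma mn_le {S : Finset V} {x : V} (h : x ∈ S) : mn S ≤ x := by
  rw [mn, dif_pos ⟨x, h⟩]; exact S.min'_le x h

lemma le_mx {S : Finset V} {x : V} (h : x ∈ S) : x ≤ mx S := by
  rw [mx, dif_pos ⟨x, h⟩]; exact S.le_max' x h

lemma sub_Ici_mn (S : Finset V) : (S : Set V) ⊆ Set.Ici (mn S) := fun _ hx => mn_le hx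

lemma nonempty_of_card {S : Finset V} {n : ℕ} (h : S.card = n + 1) : S.Nonempty := by
  rw [← Finset.card_pos, h]; exact Nat.succ_pos n

lemma mx_insert {b : V} {S : Finset V} (h : (S : Set V) ⊆ Set.Iio b) : mx (insert b S) = b := by
  apply le_antisymm
  · have := mx_mem (S := insert b S) ⟨b, Finset.mem_insert_self b S⟩
    rcases Finset.mem_insert.1 this with h1 | h1
    · exact h1.le
    · exact (h h1).le
  · exact le_mx (Finset.mem_insert_self b S)

/-- decomposition of a nonempty finset by its maximum -/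
lemma exists_top {A : Set V} {T : Finset V} {n : ℕ} (hT : (T : Set V) ⊆ A) (hn : T.card = n + 1) :
    ∃ S : Finset V, T = insert (mx T) S ∧ (S : Set V) ⊆ A ∩ Set.Iio (mx T) ∧ S.card = n ∧
      mx T ∈ A ∧ mx T ∉ S := by
  have hne := nonempty_of_card hn
  refine ⟨T.erase (mx T), (Finset.insert_erase (mx_mem hne)).symm, ?_, ?_, hT (mx_mem hne),
    Finset.notMem_erase _ _⟩
  · intro x hx
    have hx' := Finset.mem_erase.1 (Finset.mem_coe.1 hx)
    exact ⟨hT hx'.2, lt_of_le_of_ne (le_mx hx'.2) hx'.1⟩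
  · rw [Finset.card_erase_of_mem (mx_mem hne), hn]; rfl

end minmax

variable [Inhabited V]

lemma IsSol.maps {A : Set V} {n : ℕ} {r : Ch V →ₗ[ZMod 2] Ch V} (h : IsSol A (n + 1) r)
    {c : Ch V} (hc : c ∈ Cc A (n + 1)) : r c ∈ Cc A (n + 1) := by
  refine maps_to (fun S hS hn => ?_) hc
  exact Cc_mono Set.inter_subset_left (h.filt (mn S) (bs S) (bs_mem
    (Set.subset_inter hS (sub_Ici_mn S)) hn))

/-- solutions are idempotent -/
lemma IsSol.idem {A : Set V} {n : ℕ} {r : Ch V →ₗ[ZMod 2] Ch V} (h : IsSol A (n + 1) r)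
    {c : Ch V} (hc : c ∈ Cc A (n + 1)) : r (r c) = r c := by
  -- it is enough to have a vertex; use linearity
  have key : ∀ S : Finset V, (S : Set V) ⊆ A → S.card = n + 1 → (r ∘ₗ r) (bs S) = r (bs S) := by
    intro S hS hn
    have hv : mn S ∈ A := hS (mn_mem (nonempty_of_card hn))
    have hb : bs S ∈ Cc A (n + 1) := bs_mem hS hn
    have h1 : r (bs S) + bs S ∈ Cc A (n + 1) := Submodule.add_mem _ (h.maps hb) hb
    have h2 : dd (r (bs S) + bs S) = 0 := by
      rw [map_add, h.dr _ hb, add_self_ch]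
    obtain ⟨e, he, hde⟩ := cycle_bd hv h1 h2
    have h3 := h.rd e he
    rw [hde, map_add] at h3
    exact eq_of_add_eq_zero h3
  exact eq_on (f := r ∘ₗ r) (g := r) key hc

section step

variable (s : V → (Ch V →ₗ[ZMod 2] Ch V))

/-- the auxiliary homotopy -/
noncomputable def t0 (b : V) : Ch V →ₗ[ZMod 2] Ch V := lin (fun S => kap (mn S) (s b (bs S)))

lemma t0_bs (b : V) (S : Finset V) : t0 s b (bs S) = kap (mn S) (s b (bs S)) := by simp [t0]

variable [WellFoundedLT V]

/-- the recursively defined values of the new solution -/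
noncomputable def FF : V → Finset V → Ch V :=
  WellFounded.fix (wellFounded_lt (α := V)) (fun b F S =>
    kap b (s b (bs S)) +
      lin (fun T => if h : mx T < b then F (mx T) h (T.erase (mx T)) else 0) (t0 s b (bs S)) +
      t0 s b (s b (bs S)))

lemma FF_eq (b : V) (S : Finset V) : FF s b S = kap b (s b (bs S)) +
    lin (fun T => if mx T < b then FF s (mx T) (T.erase (mx T)) else 0) (t0 s b (bs S)) +
      t0 s b (s b (bs S)) := by
  rw [FF, WellFounded.fix_eq]
  simp only [dite_eq_ite]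

/-- the new solution -/
noncomputable def CC : Ch V →ₗ[ZMod 2] Ch V := lin (fun T => FF s (mx T) (T.erase (mx T)))

lemma CC_bs (T : Finset V) : CC s (bs T) = FF s (mx T) (T.erase (mx T)) := by simp [CC]

variable {s} {A : Set V} {n : ℕ}

lemma t0_mem (hs : ∀ b ∈ A, IsSol (A ∩ Set.Iio b) (n + 1) (s b)) {b : V} (hb : b ∈ A) (m : V)
    {c : Ch V} (hc : c ∈ Cc (A ∩ Set.Iio b ∩ Set.Ici m) (n + 1)) :
    t0 s b c ∈ Cc (A ∩ Set.Iio b ∩ Set.Ici m) (n + 2) := by
  refine maps_to (fun S hS hn => ?_) hc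
  rw [t0_bs]
  refine kap_mem (hS (mn_mem (nonempty_of_card hn))) ?_
  exact (hs b hb).filt m _ (bs_mem hS hn)

lemma t0_mem' (hs : ∀ b ∈ A, IsSol (A ∩ Set.Iio b) (n + 1) (s b)) {b : V} (hb : b ∈ A)
    {c : Ch V} (hc : c ∈ Cc (A ∩ Set.Iio b) (n + 1)) :
    t0 s b c ∈ Cc (A ∩ Set.Iio b) (n + 2) := by
  refine maps_to (fun S hS hn => ?_) hc
  rw [t0_bs]
  refine kap_mem (hS (mn_mem (nonempty_of_card hn))) ?_
  exact (hs b hb).maps (bs_mem hS hn)

lemma dd_t0 (hs : ∀ b ∈ A, IsSol (A ∩ Set.Iio b) (n + 1) (s b)) {b : V} (hb : b ∈ A)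
    {c : Ch V} (hc : c ∈ Cc (A ∩ Set.Iio b) (n + 1)) :
    dd (t0 s b c) = c + s b c := by
  refine eq_on (f := dd ∘ₗ t0 s b) (g := LinearMap.id + s b) (fun S hS hn => ?_) hc
  have hne := nonempty_of_card hn
  simp only [LinearMap.comp_apply, LinearMap.add_apply, LinearMap.id_apply]
  rw [t0_bs]
  have h1 := dd_kap (mn S) (s b (bs S))
  rw [(hs b hb).dr _ (bs_mem hS hn)] at h1
  -- kap (mn S) (dd (bs S)) = bs S
  have h2 := dd_kap (mn S) (bs S)
  rw [kap_bs, if_pos (mn_mem hne), map_zero, zero_add] at h2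
  rw [h2] at h1
  rw [add_comm]
  exact eq_add_of h1

lemma CC_insert (hs : ∀ b ∈ A, IsSol (A ∩ Set.Iio b) (n + 1) (s b)) {b : V} (hb : b ∈ A)
    {S : Finset V} (hS : (S : Set V) ⊆ A ∩ Set.Iio b) (hn : S.card = n + 1) :
    CC s (bs (insert b S)) = kap b (s b (bs S)) + CC s (t0 s b (bs S)) + t0 s b (s b (bs S)) := by
  have hbS : b ∉ S := fun h => lt_irrefl b (hS h).2
  have hSb : (S : Set V) ⊆ Set.Iio b := fun x hx => (hS hx).2
  rw [CC_bs, mx_insert hSb, Finset.erase_insert hbS, FF_eq]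
  congr 2
  refine ext_on (P := fun T => mx T < b) (fun T hT => ?_) (fun T hT => ?_)
  · rw [lin_bs, if_pos hT, CC_bs]
  · have := mem_Cc.1 (t0_mem' hs hb (bs_mem hS hn)) T hT
    exact (this.1 (mx_mem (nonempty_of_card this.2))).2

/-- (H1) -/
lemma CC_filt (hs : ∀ b ∈ A, IsSol (A ∩ Set.Iio b) (n + 1) (s b)) (b : V) : ∀ (m : V)
    (T : Finset V), (T : Set V) ⊆ A ∩ Set.Ici m → T.card = n + 2 → mx T = b →
      CC s (bs T) ∈ Cc (A ∩ Set.Ici m) (n + 2) := by
  induction b using WellFoundedLT.induction with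
  | ind b ih =>
    intro m T hT hn hb
    obtain ⟨S, hTS, hS, hSn, hbA, hbS⟩ := exists_top hT hn
    rw [hb] at hTS hS hbA hbS
    have hS' : (S : Set V) ⊆ A ∩ Set.Iio b ∩ Set.Ici m := fun x hx =>
      ⟨⟨(hS hx).1.1, (hS hx).2⟩, (hS hx).1.2⟩
    have hS'' : (S : Set V) ⊆ A ∩ Set.Iio b := fun x hx => (hS' hx).1
    rw [hTS, CC_insert hs hbA.1 hS'' hSn]
    have hsub : A ∩ Set.Iio b ∩ Set.Ici m ⊆ A ∩ Set.Ici m := fun x hx => ⟨hx.1.1, hx.2⟩
    have h1 := (hs b hbA.1).filt m _ (bs_mem hS' hSn)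
    refine Submodule.add_mem _ (Submodule.add_mem _ ?_ ?_) ?_
    · exact kap_mem hbA (Cc_mono hsub h1)
    · have h2 := t0_mem hs hbA.1 m (bs_mem hS' hSn)
      refine maps_to (fun T' hT' hn' => ?_) h2
      have hlt : mx T' < b := (hT' (mx_mem (nonempty_of_card hn'))).1.2
      exact ih (mx T') hlt m T' (hT'.trans hsub) hn' rfl
    · exact Cc_mono hsub (t0_mem hs hbA.1 m h1)

/-- (H2) -/
lemma CC_dr (hs : ∀ b ∈ A, IsSol (A ∩ Set.Iio b) (n + 1) (s b)) (b : V) :
    ∀ (T : Finset V), (T : Set V) ⊆ A → T.card = n + 2 → mx T = b →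
      dd (CC s (bs T)) = dd (bs T) := by
  induction b using WellFoundedLT.induction with
  | ind b ih =>
    intro T hT hn hb
    obtain ⟨S, hTS, hS, hSn, hbA, hbS⟩ := exists_top hT hn
    rw [hb] at hTS hS hbA hbS
    have hbs : bs S ∈ Cc (A ∩ Set.Iio b) (n + 1) := bs_mem hS hSn
    have hsol := hs b hbA
    rw [hTS, CC_insert hs hbA hS hSn, map_add, map_add]
    -- middle term
    have h2 : dd (CC s (t0 s b (bs S))) = dd (t0 s b (bs S)) := by
      refine eq_on (f := dd ∘ₗ CC s) (g := dd) (fun T' hT' hn' => ?_) (t0_mem' hs hbA hbs)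
      have hlt : mx T' < b := (hT' (mx_mem (nonempty_of_card hn'))).2
      exact ih (mx T') hlt T' (hT'.trans Set.inter_subset_left) hn' rfl
    rw [h2, dd_t0 hs hbA hbs, dd_t0 hs hbA (hsol.maps hbs), hsol.idem hbs, add_self_ch, add_zero]
    have h3 := dd_kap b (s b (bs S))
    rw [hsol.dr _ hbs] at h3
    have h4 : dd (bs (insert b S)) = bs S + kap b (dd (bs S)) := by
      have h5 := dd_kap b (bs S)
      rw [kap_bs, if_neg hbS] at h5
      exact eq_add_of h5
    rw [h4]
    have h6 : dd (kap b (s b (bs S))) = s b (bs S) + kap b (dd (bs S)) := eq_add_of h3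
    rw [h6]
    calc s b (bs S) + kap b (dd (bs S)) + (bs S + s b (bs S))
        = (s b (bs S) + s b (bs S)) + (bs S + kap b (dd (bs S))) := by abel
      _ = bs S + kap b (dd (bs S)) := by rw [add_self_ch, zero_add]

/-- (H3) -/
lemma CC_rd (hs : ∀ b ∈ A, IsSol (A ∩ Set.Iio b) (n + 1) (s b)) (b : V) :
    ∀ (T : Finset V), (T : Set V) ⊆ A → T.card = n + 3 → mx T = b →
      CC s (dd (bs T)) = 0 := by
  induction b using WellFoundedLT.induction with
  | ind b ih =>
    intro T hT hn hb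
    obtain ⟨S, hTS, hS, hSn, hbA, hbS⟩ := exists_top hT hn
    rw [hb] at hTS hS hbA hbS
    have hbs : bs S ∈ Cc (A ∩ Set.Iio b) (n + 2) := bs_mem hS hSn
    have hsol := hs b hbA
    have h4 : dd (bs T) = bs S + kap b (dd (bs S)) := by
      have h5 := dd_kap b (bs S)
      rw [kap_bs, if_neg hbS] at h5
      rw [hTS]
      exact eq_add_of h5
    -- the formula for `CC` on cones over chains
    have hcone : ∀ c ∈ Cc (A ∩ Set.Iio b) (n + 1),
        CC s (kap b c) = kap b (s b c) + CC s (t0 s b c) + t0 s b (s b c) := by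
      intro c hc
      refine eq_on (f := CC s ∘ₗ kap b)
        (g := kap b ∘ₗ s b + CC s ∘ₗ t0 s b + t0 s b ∘ₗ s b) (fun S' hS' hn' => ?_) hc
      have hb' : b ∉ S' := fun h => lt_irrefl b (hS' h).2
      simp only [LinearMap.comp_apply, LinearMap.add_apply]
      rw [kap_bs, if_neg hb', CC_insert hs hbA hS' hn']
    have hdS : dd (bs S) ∈ Cc (A ∩ Set.Iio b) (n + 1) := dd_mem hbs
    rw [h4, map_add, hcone _ hdS, hsol.rd _ hbs, map_zero, map_zero, zero_add, add_zero]
    -- now `CC (bs S) + CC (t0 (dd (bs S))) = 0`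
    rw [← map_add]
    have hz : bs S + t0 s b (dd (bs S)) ∈ Cc (A ∩ Set.Iio b) (n + 2) :=
      Submodule.add_mem _ hbs (t0_mem' hs hbA hdS)
    have hdz : dd (bs S + t0 s b (dd (bs S))) = 0 := by
      rw [map_add, dd_t0 hs hbA hdS, hsol.rd _ hbs, add_zero, add_self_ch]
    have hv : mn S ∈ A ∩ Set.Iio b := hS (mn_mem (nonempty_of_card hSn))
    obtain ⟨e, he, hde⟩ := cycle_bd hv hz hdz
    rw [← hde]
    refine eq_on (f := CC s ∘ₗ dd) (g := 0) (fun T' hT' hn' => ?_) he
    have hlt : mx T' < b := (hT' (mx_mem (nonempty_of_card hn'))).2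
    simpa using ih (mx T') hlt T' (hT'.trans Set.inter_subset_left) hn' rfl

/-- **(A1)** -/
theorem exists_sol_succ (h : ∀ b ∈ A, ∃ r, IsSol (A ∩ Set.Iio b) (n + 1) r) :
    ∃ r, IsSol A (n + 2) r := by
  classical
  choose! s hs using h
  refine ⟨CC s, ?_, ?_, ?_⟩
  · intro m c hc
    exact maps_to (fun T hT hn => CC_filt hs (mx T) m T hT hn rfl) hc
  · intro c hc
    refine eq_on (f := CC s ∘ₗ dd) (g := 0) (fun T hT hn => ?_) hc
    simpa using CC_rd hs (mx T) T hT hn rfl
  · intro c hc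
    exact eq_on (f := dd ∘ₗ CC s) (g := dd) (fun T hT hn => CC_dr hs (mx T) T hT hn rfl) hc

end step

end Pool.Agent.Helper6.TwoCoherent
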