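import Pool.Agent.Helper6.TwoCoherentB

/-!
# Cofinal transfer (A2)
-/

namespace Pool.Agent.Helper6.TwoCoherent

open Finset

set_option linter.unusedSectionVars false

variable {V : Type*} [LinearOrder V] [Inhabited V]

section cofinal

/-- filtered chain map to a cofinal subset -/
noncomputable def phi (p : V → V) : ℕ → (Ch V →ₗ[ZMod 2] Ch V)
  | 0 => LinearMap.id
  | n + 1 => lin (fun S => kap (p (mn S)) (phi p n (dd (bs S))))

/-- the homotopy between the identity and `phi` -/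
noncomputable def hh (p : V → V) : ℕ → (Ch V →ₗ[ZMod 2] Ch V)
  | 0 => 0
  | n + 1 => lin (fun S => kap (mn S) (bs S + phi p (n + 1) (bs S) + hh p n (dd (bs S))))

lemma phi_bs (p : V → V) (n : ℕ) (S : Finset V) :
    phi p (n + 1) (bs S) = kap (p (mn S)) (phi p n (dd (bs S))) := by simp [phi]

lemma hh_bs (p : V → V) (n : ℕ) (S : Finset V) :
    hh p (n + 1) (bs S) = kap (mn S) (bs S + phi p (n + 1) (bs S) + hh p n (dd (bs S))) := by
  simp [hh]

lemma Cc_zero_le (A B : Set V) : Cc A 0 ≤ Cc B 0 := by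
  intro c hc
  rw [mem_Cc] at hc ⊢
  intro S hS
  have := hc S hS
  refine ⟨?_, this.2⟩
  rw [Finset.card_eq_zero.1 this.2]
  simp

variable {p : V → V} {A Y : Set V}

lemma phi_mem (hp : ∀ x ∈ A, p x ∈ Y ∧ x ≤ p x) (n : ℕ) : ∀ (m : V) (c : Ch V),
    c ∈ Cc (A ∩ Set.Ici m) n → phi p n c ∈ Cc (Y ∩ Set.Ici m) n := by
  induction n with
  | zero => intro m c hc; exact Cc_zero_le _ _ hc
  | succ n ih =>
    intro m c hc
    refine maps_to (fun S hS hn => ?_) hc
    rw [phi_bs]
    have h1 := hS (mn_mem (nonempty_of_card hn))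
    refine kap_mem ⟨(hp _ h1.1).1, le_trans h1.2 (hp _ h1.1).2⟩ ?_
    exact ih m _ (dd_mem (bs_mem hS hn))

lemma phi_mem' (hp : ∀ x ∈ A, p x ∈ Y ∧ x ≤ p x) (n : ℕ) {c : Ch V}
    (hc : c ∈ Cc A n) : phi p n c ∈ Cc Y n := by
  cases n with
  | zero => exact Cc_zero_le _ _ hc
  | succ n =>
    refine maps_to (fun S hS hn => ?_) hc
    exact Cc_mono Set.inter_subset_left (phi_mem hp (n + 1) (mn S) (bs S)
      (bs_mem (Set.subset_inter hS (sub_Ici_mn S)) hn))

lemma dd_phi (n : ℕ) {c : Ch V} (hc : c ∈ Cc A (n + 1)) :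
    dd (phi p (n + 1) c) = phi p n (dd c) := by
  induction n generalizing c with
  | zero =>
    refine eq_on (f := dd ∘ₗ phi p 1) (g := phi p 0 ∘ₗ dd) (fun S hS hn => ?_) hc
    simp only [LinearMap.comp_apply]
    rw [phi_bs]
    have h := dd_kap (p (mn S)) (phi p 0 (dd (bs S)))
    have h2 : dd (phi p 0 (dd (bs S))) = 0 := by simp [phi, dd_dd]
    rwa [h2, map_zero, add_zero] at h
  | succ n ih =>
    refine eq_on (f := dd ∘ₗ phi p (n + 2)) (g := phi p (n + 1) ∘ₗ dd) (fun S hS hn => ?_) hc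
    simp only [LinearMap.comp_apply]
    rw [phi_bs]
    have h := dd_kap (p (mn S)) (phi p (n + 1) (dd (bs S)))
    have h2 : dd (phi p (n + 1) (dd (bs S))) = 0 := by
      rw [ih (dd_mem (bs_mem hS hn)), dd_dd, map_zero]
    rwa [h2, map_zero, add_zero] at h

lemma hh_mem (hYA : Y ⊆ A) (hp : ∀ x ∈ A, p x ∈ Y ∧ x ≤ p x) (n : ℕ) : ∀ (m : V) (c : Ch V),
    c ∈ Cc (A ∩ Set.Ici m) n → hh p n c ∈ Cc (A ∩ Set.Ici m) (n + 1) := by
  induction n with
  | zero => intro m c hc; simp [hh]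
  | succ n ih =>
    intro m c hc
    refine maps_to (fun S hS hn => ?_) hc
    rw [hh_bs]
    have h1 := hS (mn_mem (nonempty_of_card hn))
    have hb : bs S ∈ Cc (A ∩ Set.Ici m) (n + 1) := bs_mem hS hn
    refine kap_mem h1 (Submodule.add_mem _ (Submodule.add_mem _ hb ?_) ?_)
    · exact Cc_mono (Set.inter_subset_inter_left _ hYA) (phi_mem hp (n + 1) m _ hb)
    · exact ih m _ (dd_mem hb)

lemma dd_hh (n : ℕ) {c : Ch V} (hc : c ∈ Cc A (n + 1)) :
    dd (hh p (n + 1) c) + hh p n (dd c) = c + phi p (n + 1) c := by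
  induction n generalizing c with
  | zero =>
    refine eq_on (f := dd ∘ₗ hh p 1 + hh p 0 ∘ₗ dd) (g := LinearMap.id + phi p 1)
      (fun S hS hn => ?_) hc
    simp only [LinearMap.comp_apply, LinearMap.add_apply, LinearMap.id_apply]
    rw [hh_bs]
    have h0 : ∀ c : Ch V, hh p 0 c = 0 := fun c => by simp [hh]
    rw [h0, add_zero, add_zero]
    have h := dd_kap (mn S) (bs S + phi p 1 (bs S))
    have h2 : dd (bs S + phi p 1 (bs S)) = 0 := by
      rw [map_add, dd_phi (A := A) 0 (bs_mem hS hn)]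
      simp [phi, add_self_ch]
    rwa [h2, map_zero, add_zero] at h
  | succ n ih =>
    refine eq_on (f := dd ∘ₗ hh p (n + 2) + hh p (n + 1) ∘ₗ dd) (g := LinearMap.id + phi p (n + 2))
      (fun S hS hn => ?_) hc
    simp only [LinearMap.comp_apply, LinearMap.add_apply, LinearMap.id_apply]
    rw [hh_bs]
    have hb : bs S ∈ Cc A (n + 2) := bs_mem hS hn
    have h := dd_kap (mn S) (bs S + phi p (n + 2) (bs S) + hh p (n + 1) (dd (bs S)))
    have h2 : dd (bs S + phi p (n + 2) (bs S) + hh p (n + 1) (dd (bs S))) = 0 := by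
      have h3 := ih (dd_mem hb)
      rw [dd_dd, map_zero, add_zero] at h3
      rw [map_add, map_add, h3, dd_phi (n + 1) hb, add_self_ch]
    rw [h2, map_zero, add_zero] at h
    rw [h, add_assoc, add_self_ch, add_zero]

/-- **(A2)** -/
theorem exists_sol_cofinal {n : ℕ} (hYA : Y ⊆ A) (hcof : ∀ x ∈ A, ∃ y ∈ Y, x ≤ y)
    (h : ∃ r, IsSol Y (n + 1) r) : ∃ r, IsSol A (n + 1) r := by
  classical
  obtain ⟨s, hs⟩ := h
  choose! p hp using hcof
  refine ⟨s ∘ₗ phi p (n + 1) + hh p n ∘ₗ dd, ?_, ?_, ?_⟩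
  · intro m c hc
    simp only [LinearMap.comp_apply, LinearMap.add_apply]
    refine Submodule.add_mem _ ?_ ?_
    · exact Cc_mono (Set.inter_subset_inter_left _ hYA) (hs.filt m _ (phi_mem hp (n + 1) m _ hc))
    · exact hh_mem hYA hp n m _ (dd_mem hc)
  · intro c hc
    simp only [LinearMap.comp_apply, LinearMap.add_apply]
    rw [dd_dd, map_zero, add_zero, ← dd_phi (n + 1) hc]
    exact hs.rd _ (phi_mem' hp _ hc)
  · intro c hc
    simp only [LinearMap.comp_apply, LinearMap.add_apply]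
    rw [map_add, hs.dr _ (phi_mem' hp _ hc), dd_phi n hc]
    have h2 : dd (hh p n (dd c)) = dd c + phi p n (dd c) := by
      cases n with
      | zero => simp [hh, phi, add_self_ch]
      | succ n =>
        have h3 := dd_hh (p := p) n (dd_mem hc)
        rwa [dd_dd, map_zero, add_zero] at h3
    rw [h2, add_comm, add_assoc, add_self_ch, add_zero]

end cofinal

end Pool.Agent.Helper6.TwoCoherent
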