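import Pool.Agent.Helper6.TwoCoherentC

/-!
# Existence of solutions on small sets (A3), (A4)
-/

namespace Pool.Agent.Helper6.TwoCoherent

open Finset Cardinal

set_option linter.unusedSectionVars false

variable {V : Type} [LinearOrder V] [Inhabited V] [WellFoundedLT V]

lemma exists_sol_finite {A : Set V} (hA : A.Finite) : ∃ r, IsSol A 1 r := by
  classical
  rcases A.eq_empty_or_nonempty with rfl | hne
  · have hno : ∀ (n : ℕ) (S : Finset V), (S : Set V) ⊆ ∅ → S.card = n + 1 → False := by
      intro n S hS hn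
      exact hS (mn_mem (nonempty_of_card hn))
    refine ⟨0, ?_, ?_, ?_⟩
    · intro m c _; simp
    · intro c _; simp
    · intro c hc
      exact eq_on (f := dd ∘ₗ 0) (g := dd) (fun S hS hn => (hno 0 S hS hn).elim) hc
  · obtain ⟨a, ha, hmax⟩ := hA.exists_maximal hne
    have hmax' : ∀ x ∈ A, x ≤ a := fun x hx => (le_total x a).elim id (fun h => hmax hx h)
    refine ⟨lin (fun _ => bs {a}), ?_, ?_, ?_⟩
    · intro m c hc
      refine maps_to (fun S hS hn => ?_) hc
      rw [lin_bs]
      have h1 := hS (mn_mem (nonempty_of_card hn))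
      refine bs_mem ?_ (by simp)
      simpa using ⟨ha, le_trans h1.2 (hmax' _ h1.1)⟩
    · intro c hc
      refine eq_on (f := lin (fun _ => bs {a}) ∘ₗ dd) (g := 0) (fun S hS hn => ?_) hc
      simp only [LinearMap.comp_apply, LinearMap.zero_apply]
      rw [dd_bs, map_sum]
      simp only [lin_bs, Finset.sum_const, hn]
      rw [two_nsmul, add_self_ch]
    · intro c hc
      refine eq_on (f := dd ∘ₗ lin (fun _ => bs {a})) (g := dd) (fun S hS hn => ?_) hc
      simp only [LinearMap.comp_apply]
      rw [lin_bs, dd_bs, dd_bs]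
      obtain ⟨x, rfl⟩ := Finset.card_eq_one.1 hn
      simp

/-- **(A3)** -/
theorem exists_sol_of_card_lt (k : ℕ) : ∀ A : Set V, #A < ℵ_ k → ∃ r, IsSol A (k + 1) r := by
  induction k with
  | zero =>
    intro A hA
    rw [Nat.cast_zero, aleph_zero] at hA
    exact exists_sol_finite (lt_aleph0_iff_set_finite.1 hA)
  | succ k ih =>
    intro A hA
    classical
    have hA' : #A ≤ ℵ_ k := by
      rw [Nat.cast_succ, ← Order.succ_eq_add_one, aleph_succ] at hA
      exact Order.lt_succ_iff.1 hA
    let W := (ℵ_ (k : Ordinal.{0})).ord.ToType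
    have hW : #W = ℵ_ k := mk_ord_toType _
    rcases A.eq_empty_or_nonempty with hAe | hne
    · -- the empty set has solutions in every degree
      have hno : ∀ (n : ℕ) (S : Finset V), (S : Set V) ⊆ A → S.card = n + 1 → False := by
        intro n S hS hn
        rw [hAe] at hS
        exact hS (mn_mem (nonempty_of_card hn))
      refine ⟨0, ?_, ?_, ?_⟩
      · intro m c _; simp
      · intro c _; simp
      · intro c hc
        exact eq_on (f := dd ∘ₗ 0) (g := dd) (fun S hS hn => (hno _ S hS hn).elim) hc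
    rw [← hW] at hA'
    obtain ⟨e0⟩ : Nonempty (A ↪ W) := hA'
    obtain ⟨a0, ha0⟩ := hne
    let e : V → W := fun v => if h : v ∈ A then e0 ⟨v, h⟩ else e0 ⟨a0, ha0⟩
    have he : Set.InjOn e A := by
      intro x hx y hy hxy
      simp only [e, dif_pos hx, dif_pos hy] at hxy
      exact congrArg Subtype.val (e0.injective hxy)
    let Y : Set V := {x | x ∈ A ∧ ∀ x' ∈ A, x < x' → e x < e x'}
    have hYA : Y ⊆ A := fun x hx => hx.1
    have hcof : ∀ x ∈ A, ∃ y ∈ Y, x ≤ y := by
      intro x0 hx0
      have wf : WellFounded (fun x y : V => e x < e y) := InvImage.wf e wellFounded_lt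
      obtain ⟨x, hx, hmin⟩ := wf.has_min {x | x ∈ A ∧ x0 ≤ x} ⟨x0, hx0, le_rfl⟩
      refine ⟨x, ⟨hx.1, fun x' hx' hlt => ?_⟩, hx.2⟩
      have h1 := hmin x' ⟨hx', hx.2.trans hlt.le⟩
      rcases lt_trichotomy (e x) (e x') with h | h | h
      · exact h
      · exact absurd (he hx.1 hx' h) hlt.ne
      · exact absurd h h1
    refine exists_sol_cofinal hYA hcof (exists_sol_succ (n := k) fun b hb => ih _ ?_)
    have hinj : Function.Injective (fun x : ↥(Y ∩ Set.Iio b) =>
        (⟨e x.1, x.2.1.2 b hb.1 x.2.2⟩ : Set.Iio (e b))) := by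
      intro x y hxy
      have : e x.1 = e y.1 := congrArg Subtype.val hxy
      exact Subtype.ext (he x.2.1.1 y.2.1.1 this)
    exact (mk_le_of_injective hinj).trans_lt (mk_Iio_toType_ord_lt (e b))

end Pool.Agent.Helper6.TwoCoherent
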