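import Pool.Agent.Helper6.TwoCoherentD

/-!
# No solution in degree 2 on `ω₂` (A5), abstract part
-/

namespace Pool.Agent.Helper6.TwoCoherent

open Finset Cardinal

set_option linter.unusedSectionVars false

variable {V : Type*} [LinearOrder V] [Inhabited V] [WellFoundedLT V]

/-- the set of vertices of a chain -/
noncomputable def vert (c : Ch V) : Finset V := c.support.biUnion id

lemma mem_vert {c : Ch V} {x : V} : x ∈ vert c ↔ ∃ S ∈ c.support, x ∈ S := by
  simp [vert]

lemma vert_sub {A : Set V} {n : ℕ} {c : Ch V} (hc : c ∈ Cc A n) {x : V} (hx : x ∈ vert c) :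
    x ∈ A := by
  obtain ⟨S, hS, hxS⟩ := mem_vert.1 hx
  exact (mem_Cc.1 hc S hS).1 hxS

lemma dd_pair {a b : V} (h : a ≠ b) : dd (bs {a, b}) = bs {a} + bs {b} := by
  rw [dd_bs, Finset.sum_pair h]
  have h1 : ({a, b} : Finset V).erase a = {b} := by
    rw [Finset.erase_insert (by simpa using h)]
  have h2 : ({a, b} : Finset V).erase b = {a} := by
    rw [Finset.pair_comm, Finset.erase_insert (by simpa using h.symm)]
  rw [h1, h2, add_comm]

lemma bs_ne_zero (S : Finset V) : bs S ≠ 0 := by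
  intro h
  have := DFunLike.congr_fun h S
  simp [bs] at this

/-- no solution in degree one on an initial segment of uncountable cofinality -/
theorem no_one_sol {δ z : V} (hz : ∀ v : V, z ≤ v)
    (hb : ∀ f : ℕ → V, (∀ n, f n < δ) → ∃ w < δ, ∀ n, f n < w)
    {q : Ch V →ₗ[ZMod 2] Ch V} (hq : IsSol (Set.Iio δ) 2 q) (hzδ : z < δ) : False := by
  classical
  -- finite sets below `δ` are strictly bounded
  have hfin : ∀ F : Finset V, (∀ x ∈ F, x < δ) → ∃ w < δ, ∀ x ∈ F, x < w := by
    intro F hF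
    rcases F.eq_empty_or_nonempty with rfl | hne
    · exact ⟨z, hzδ, by simp⟩
    · obtain ⟨w, hw, hw'⟩ := hb (fun _ => mx F) (fun _ => hF _ (mx_mem hne))
      exact ⟨w, hw, fun x hx => (le_mx hx).trans_lt (hw' 0)⟩
  have hpair : ∀ u v : V, u < v → v < δ → ({u, v} : Finset V).card = 2 ∧
      (({u, v} : Finset V) : Set V) ⊆ Set.Iio δ ∩ Set.Ici u := by
    intro u v huv hv
    refine ⟨Finset.card_pair huv.ne, ?_⟩
    intro x hx
    rcases Finset.mem_insert.1 (Finset.mem_coe.1 hx) with rfl | hx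
    · exact ⟨huv.trans hv, le_rfl⟩
    · rw [Finset.mem_singleton] at hx
      subst hx
      exact ⟨hv, huv.le⟩
  -- coherence
  have hcoh : ∀ u v : V, z < u → u < v → v < δ →
      q (bs {z, u}) + q (bs {z, v}) ∈ Cc (Set.Iio δ ∩ Set.Ici u) 2 := by
    intro u v hzu huv hvδ
    have h1 : (z : V) ∉ ({u, v} : Finset V) := by
      simp only [Finset.mem_insert, Finset.mem_singleton, not_or]
      exact ⟨hzu.ne, (hzu.trans huv).ne⟩
    have hc3 : ({z, u, v} : Finset V).card = 3 := by
      rw [Finset.card_insert_of_notMem h1, Finset.card_pair huv.ne]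
    have hs3 : (({z, u, v} : Finset V) : Set V) ⊆ Set.Iio δ := by
      intro x hx
      simp only [Finset.coe_insert, Finset.coe_singleton, Set.mem_insert_iff,
        Set.mem_singleton_iff] at hx
      rcases hx with rfl | rfl | rfl
      · exact hzδ
      · exact huv.trans hvδ
      · exact hvδ
    have h2 := hq.rd (bs {z, u, v}) (bs_mem hs3 hc3)
    have h3 := dd_kap z (bs {u, v})
    rw [kap_bs, if_neg h1, dd_pair huv.ne, map_add, kap_bs, kap_bs,
      if_neg (by simpa using hzu.ne), if_neg (by simpa using (hzu.trans huv).ne)] at h3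
    have h4 : dd (bs {z, u, v}) = bs {u, v} + (bs {z, u} + bs {z, v}) := eq_add_of h3
    rw [h4, map_add, map_add] at h2
    rw [← eq_of_add_eq_zero h2]
    exact hq.filt u _ (bs_mem (hpair u v huv hvδ).2 (hpair u v huv hvδ).1)
  -- membership of the `Q`
  have hQmem : ∀ v, z < v → v < δ → q (bs {z, v}) ∈ Cc (Set.Iio δ) 2 := by
    intro v hzv hv
    exact hq.maps (bs_mem ((hpair z v hzv hv).2.trans Set.inter_subset_left) (hpair z v hzv hv).1)
  -- the next element
  have hnext : ∀ v : V, ∃ v' : V, z < v → v < δ → (v < v' ∧ v' < δ ∧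
      ∀ x ∈ vert (q (bs {z, v})), x < v') := by
    intro v
    by_cases h : z < v ∧ v < δ
    · obtain ⟨w, hw, hw'⟩ := hfin (insert v (vert (q (bs {z, v})))) (by
        intro x hx
        rcases Finset.mem_insert.1 hx with rfl | hx
        · exact h.2
        · exact vert_sub (hQmem v h.1 h.2) hx)
      exact ⟨w, fun _ _ => ⟨hw' v (Finset.mem_insert_self _ _), hw,
        fun x hx => hw' x (Finset.mem_insert_of_mem hx)⟩⟩
    · exact ⟨v, fun h1 h2 => absurd ⟨h1, h2⟩ h⟩
  choose nx hnx using hnext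
  obtain ⟨v0, hv0δ, hv0⟩ := hfin {z} (by simpa using hzδ)
  have hv0' : z < v0 := hv0 z (Finset.mem_singleton_self z)
  let vs : ℕ → V := fun n => nx^[n] v0
  have hvs_succ : ∀ n, vs (n + 1) = nx (vs n) := fun n => Function.iterate_succ_apply' nx n v0
  have hvs : ∀ n, z < vs n ∧ vs n < δ := by
    intro n
    induction n with
    | zero => exact ⟨hv0', hv0δ⟩
    | succ n ih =>
      rw [hvs_succ]
      have := hnx (vs n) ih.1 ih.2
      exact ⟨ih.1.trans this.1, this.2.1⟩
  have hmono : StrictMono vs := strictMono_nat_of_lt_succ fun n => by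
    rw [hvs_succ]; exact (hnx (vs n) (hvs n).1 (hvs n).2).1
  -- the supremum
  obtain ⟨w1, hw1δ, hw1⟩ := hb vs (fun n => (hvs n).2)
  obtain ⟨w, hw, hwmin⟩ := (wellFounded_lt (α := V)).has_min {w | ∀ n, vs n < w} ⟨w1, hw1⟩
  have hwδ : w < δ := lt_of_not_ge fun h => hwmin w1 hw1 (hw1δ.trans_le h)
  have hlt : ∀ x, x < w → ∃ n, x < vs n := by
    intro x hx
    by_contra hcon
    push Not at hcon
    refine hwmin x (fun n => ?_) hx
    exact (hmono (Nat.lt_succ_self n)).trans_le (hcon (n + 1))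
  have hzw : z < w := (hvs 0).1.trans (hw 0)
  -- choose `n`
  obtain ⟨n, hn⟩ : ∃ n, ∀ x ∈ vert (q (bs {z, w})), x < w → x < vs n := by
    rcases ((vert (q (bs {z, w}))).filter (· < w)).eq_empty_or_nonempty with he | hne
    · refine ⟨0, fun x hx hxw => ?_⟩
      have : x ∈ (vert (q (bs {z, w}))).filter (· < w) := Finset.mem_filter.2 ⟨hx, hxw⟩
      rw [he] at this
      exact absurd this (Finset.notMem_empty x)
    · obtain ⟨n, hn⟩ := hlt _ (Finset.mem_filter.1 (mx_mem hne)).2
      exact ⟨n, fun x hx hxw => (le_mx (Finset.mem_filter.2 ⟨hx, hxw⟩)).trans_lt hn⟩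
  set v := vs n with hv
  have hvw : v < w := hw n
  have hzv : z < v := (hvs n).1
  have hvδ : v < δ := (hvs n).2
  have hvert : ∀ x ∈ vert (q (bs {z, v})), x < w := by
    intro x hx
    have h1 := (hnx v hzv hvδ).2.2 x hx
    have h2 : nx v = vs (n + 1) := (hvs_succ n).symm
    rw [h2] at h1
    exact h1.trans (hw (n + 1))
  set Qw := q (bs {z, w}) with hQw
  set Qv := q (bs {z, v}) with hQv
  set C : Ch V := Qw.filter (fun S => mn S < v) with hC
  have hsum := hcoh v w hzv hvw hwδ
  have hCv : ∀ S, mn S < v → Qv S = Qw S := by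
    intro S hS
    have h0 : (Qv + Qw) S = 0 := by
      by_contra hne
      have hS' := (mem_Cc.1 hsum S (Finsupp.mem_support_iff.2 hne))
      exact absurd (hS'.1 (mn_mem (nonempty_of_card hS'.2))).2 (not_le.2 hS)
    rw [Finsupp.add_apply] at h0
    have h3 : Qv S + Qw S + Qw S = Qw S := by rw [h0, zero_add]
    rwa [add_assoc, CharTwo.add_self_eq_zero, add_zero] at h3
  have hQwm := hQmem w hzw hwδ
  have hCmem : C ∈ Cc (Set.Iio w) 2 := by
    rw [mem_Cc]
    intro S hS
    rw [hC, Finsupp.support_filter, Finset.mem_filter] at hS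
    refine ⟨fun x hx => ?_, (mem_Cc.1 hQwm S hS.1).2⟩
    refine hvert x (mem_vert.2 ⟨S, ?_, hx⟩)
    rw [Finsupp.mem_support_iff, hCv S hS.2]
    exact Finsupp.mem_support_iff.1 hS.1
  set R : Ch V := Qw.filter (fun S => ¬ mn S < v) with hR
  have hCR : C + R = Qw := Finsupp.filter_add_filter_not _ _
  have hRmem : R ∈ Cc (Set.Ici w) 2 := by
    rw [mem_Cc]
    intro S hS
    rw [hR, Finsupp.support_filter, Finset.mem_filter] at hS
    refine ⟨fun x hx => ?_, (mem_Cc.1 hQwm S hS.1).2⟩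
    by_contra hcon
    have hxw : x < w := not_le.1 hcon
    have h1 := hn x (mem_vert.2 ⟨S, hS.1, hx⟩) hxw
    exact hS.2 ((mn_le hx).trans_lt h1)
  have hdQ : dd Qw = bs {z} + bs {w} := by
    rw [hQw, hq.dr _ (bs_mem ((hpair z w hzw hwδ).2.trans Set.inter_subset_left)
      (hpair z w hzw hwδ).1), dd_pair hzw.ne]
  rw [← hCR, map_add] at hdQ
  -- dd C + bs {z} = bs {w} + dd R
  have heq : dd C + bs {z} = bs {w} + dd R := by
    have h1 : dd C = bs {z} + bs {w} + dd R := eq_add_of hdQ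
    rw [h1]
    calc bs {z} + bs {w} + dd R + bs {z} = (bs {z} + bs {z}) + (bs {w} + dd R) := by abel
      _ = bs {w} + dd R := by rw [add_self_ch, zero_add]
  have hl : dd C + bs {z} ∈ Cc (Set.Iio w) 1 :=
    Submodule.add_mem _ (dd_mem hCmem) (bs_mem (by simpa using hzw) (by simp))
  have hr : dd C + bs {z} ∈ Cc (Set.Ici w) 1 := by
    rw [heq]
    exact Submodule.add_mem _ (bs_mem (by simp) (by simp)) (dd_mem hRmem)
  have h0 : dd C + bs {z} = 0 := by
    by_contra hne
    obtain ⟨S, hS⟩ := Finsupp.support_nonempty_iff.2 hne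
    have h1 := mem_Cc.1 hl S hS
    have h2 := mem_Cc.1 hr S hS
    have hx := mn_mem (nonempty_of_card h1.2)
    exact absurd (h1.1 hx) (not_lt.2 (h2.1 hx))
  have h5 := congrArg dd (eq_of_add_eq_zero h0)
  rw [dd_dd, dd_bs] at h5
  simp only [Finset.sum_singleton, Finset.erase_singleton] at h5
  exact bs_ne_zero ∅ h5.symm

/-- the link map -/
noncomputable def Lam (δ : V) : Ch V →ₗ[ZMod 2] Ch V :=
  lin (fun S => if (S.filter (fun x => δ ≤ x)).card = 1 then bs (S.filter (fun x => x < δ)) else 0)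

lemma Lam_bs (δ : V) (S : Finset V) : Lam δ (bs S) =
    if (S.filter (fun x => δ ≤ x)).card = 1 then bs (S.filter (fun x => x < δ)) else 0 := by
  simp [Lam]

lemma dd_Lam (δ : V) (c : Ch V) : Lam δ (dd c) = dd (Lam δ c) := by
  classical
  refine ext_on (f := Lam δ ∘ₗ dd) (g := dd ∘ₗ Lam δ) (P := fun _ => True) (fun S _ => ?_)
    (fun _ _ => trivial)
  simp only [LinearMap.comp_apply]
  set D := S.filter (fun x => x < δ) with hD
  set U := S.filter (fun x => δ ≤ x) with hU
  have hSU : S = D ∪ U := by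
    ext x
    simp only [hD, hU, Finset.mem_union, Finset.mem_filter]
    constructor
    · intro h
      rcases lt_or_ge x δ with h1 | h1
      · exact Or.inl ⟨h, h1⟩
      · exact Or.inr ⟨h, h1⟩
    · rintro (h | h) <;> exact h.1
  have hdisj : Disjoint D U := by
    rw [Finset.disjoint_left]
    intro x hx hx'
    exact absurd (Finset.mem_filter.1 hx).2 (not_lt.2 (Finset.mem_filter.1 hx').2)
  rw [dd_bs, map_sum]
  conv_lhs => rw [hSU]
  rw [Finset.sum_union hdisj]
  have h1 : ∀ x ∈ D, Lam δ (bs ((D ∪ U).erase x)) = if U.card = 1 then bs (D.erase x) else 0 := by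
    intro x hx
    rw [← hSU, Lam_bs, Finset.filter_erase, Finset.filter_erase, ← hD, ← hU,
      Finset.erase_eq_of_notMem (Finset.disjoint_left.1 hdisj hx)]
  have h2 : ∀ x ∈ U, Lam δ (bs ((D ∪ U).erase x)) = if U.card = 2 then bs D else 0 := by
    intro x hx
    rw [← hSU, Lam_bs, Finset.filter_erase, Finset.filter_erase, ← hD, ← hU,
      Finset.erase_eq_of_notMem (Finset.disjoint_right.1 hdisj hx),
      Finset.card_erase_of_mem hx]
    have h3 : (U.card - 1 = 1) ↔ U.card = 2 := by omega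
    simp only [h3]
  rw [Finset.sum_congr rfl h1, Finset.sum_congr rfl h2, Finset.sum_const, Lam_bs, ← hD, ← hU]
  have h4 : U.card • (if U.card = 2 then bs D else (0 : Ch V)) = 0 := by
    split_ifs with h
    · rw [h, two_nsmul, add_self_ch]
    · simp
  rw [h4, add_zero]
  split_ifs with h
  · rw [dd_bs]
  · simp

lemma Lam_zero {δ : V} {n : ℕ} {c : Ch V} (hc : c ∈ Cc (Set.Iio δ) n) : Lam δ c = 0 := by
  refine eq_on (f := Lam δ) (g := 0) (fun S hS _ => ?_) hc
  rw [Lam_bs, if_neg]
  · rfl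
  · intro h
    obtain ⟨x, hx⟩ := Finset.card_eq_one.1 h
    have hx' : x ∈ S.filter (fun x => δ ≤ x) := by rw [hx]; exact Finset.mem_singleton_self x
    exact absurd (hS (Finset.mem_filter.1 hx').1) (not_lt.2 (Finset.mem_filter.1 hx').2)

lemma Lam_kap {δ : V} {n : ℕ} {c : Ch V} (hc : c ∈ Cc (Set.Iio δ) n) : Lam δ (kap δ c) = c := by
  classical
  refine eq_on (f := Lam δ ∘ₗ kap δ) (g := LinearMap.id) (fun S hS _ => ?_) hc
  simp only [LinearMap.comp_apply, LinearMap.id_apply]
  have hδ : δ ∉ S := fun h => lt_irrefl δ (hS h)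
  rw [kap_bs, if_neg hδ, Lam_bs]
  have h1 : (insert δ S).filter (fun x => δ ≤ x) = {δ} := by
    ext x
    simp only [Finset.mem_filter, Finset.mem_insert, Finset.mem_singleton]
    constructor
    · rintro ⟨h | h, h'⟩
      · exact h
      · exact absurd (hS h) (not_lt.2 h')
    · rintro rfl
      exact ⟨Or.inl rfl, le_rfl⟩
  have h2 : (insert δ S).filter (fun x => x < δ) = S := by
    ext x
    simp only [Finset.mem_filter, Finset.mem_insert]
    constructor
    · rintro ⟨h | h, h'⟩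
      · exact absurd h h'.ne
      · exact h
    · intro h
      exact ⟨Or.inr h, hS h⟩
  rw [h1, h2, if_pos (Finset.card_singleton δ)]

lemma Lam_mem {δ m : V} {n : ℕ} {c : Ch V} (hc : c ∈ Cc (Set.univ ∩ Set.Ici m) (n + 1)) :
    Lam δ c ∈ Cc (Set.Iio δ ∩ Set.Ici m) n := by
  classical
  refine maps_to (fun S hS hn => ?_) hc
  rw [Lam_bs]
  split_ifs with h
  · refine bs_mem ?_ ?_
    · intro x hx
      have := Finset.mem_filter.1 (Finset.mem_coe.1 hx)
      exact ⟨this.2, (hS this.1).2⟩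
    · have h3 := Finset.card_filter_add_card_filter_not (s := S) (fun x => x < δ)
      have h4 : S.filter (fun x => ¬ x < δ) = S.filter (fun x => δ ≤ x) := by
        simp only [not_lt]
      rw [h4, h, hn] at h3
      omega
  · exact Submodule.zero_mem _

/-- **(A5), abstract form** -/
theorem no_two_sol {δ z : V} (hz : ∀ v : V, z ≤ v) (hzδ : z < δ)
    (hb : ∀ f : ℕ → V, (∀ n, f n < δ) → ∃ w < δ, ∀ n, f n < w)
    {r : Ch V →ₗ[ZMod 2] Ch V} (hr : IsSol Set.univ 3 r)
    (ha : ∀ S : Finset V, (S : Set V) ⊆ Set.Iio δ → S.card = 3 → r (bs S) ∈ Cc (Set.Iio δ) 3) :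
    False := by
  refine no_one_sol (q := Lam δ ∘ₗ r ∘ₗ kap δ) hz hb ⟨?_, ?_, ?_⟩ hzδ
  · intro m c hc
    simp only [LinearMap.comp_apply]
    refine Lam_mem (hr.filt m _ ?_)
    refine maps_to (fun S hS hn => ?_) hc
    have h1 := hS (mn_mem (nonempty_of_card hn))
    exact kap_mem ⟨trivial, h1.2.trans h1.1.le⟩
      (bs_mem (fun x hx => ⟨trivial, (hS hx).2⟩) hn)
  · intro c hc
    simp only [LinearMap.comp_apply]
    have h1 : kap δ (dd c) = c + dd (kap δ c) := eq_add_of' (dd_kap δ c)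
    have hcu : c ∈ Cc Set.univ 3 := Cc_mono (Set.subset_univ _) hc
    rw [h1, map_add, hr.rd _ (kap_mem (Set.mem_univ δ) hcu), add_zero]
    exact Lam_zero (maps_to (fun S hS hn => ha S hS hn) hc)
  · intro c hc
    simp only [LinearMap.comp_apply]
    have hcu : c ∈ Cc Set.univ 2 := Cc_mono (Set.subset_univ _) hc
    have h1 : dd (kap δ c) = c + kap δ (dd c) := eq_add_of (dd_kap δ c)
    rw [← dd_Lam, hr.dr _ (kap_mem (Set.mem_univ δ) hcu), h1, map_add, Lam_zero hc, zero_add,
      Lam_kap (dd_mem hc)]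

end Pool.Agent.Helper6.TwoCoherent
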