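import Pool.Agent.Helper6.Tauberian

open MeasureTheory Set Filter Topology Real

namespace Pool.Agent.Helper6

/-- **Wiener-Ikehara theorem** for nonnegative coefficients with a Chebyshev bound. -/
theorem wiener_ikehara {f : ℕ → ℝ} (hf : ∀ n, 0 ≤ f n) {C : ℝ}
    (hC : ∀ x : ℝ, 0 ≤ x → ∑ k ∈ Finset.Icc 1 ⌊x⌋₊, f k ≤ C * x) {A : ℝ} {G : ℂ → ℂ}
    (hGc : ContinuousOn G {s | 1 ≤ s.re})
    (hG : ∀ s : ℂ, 1 < s.re → LSeries (fun n => (f n : ℂ)) s - A / (s - 1) = G s) :
    Tendsto (fun x : ℝ => (∑ k ∈ Finset.Icc 1 ⌊x⌋₊, f k) / x) atTop (𝓝 A) := by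
  set S : ℝ → ℝ := fun x => ∑ k ∈ Finset.Icc 1 ⌊x⌋₊, f k with hS
  have hSmono : Monotone S := by
    intro x y hxy
    apply Finset.sum_le_sum_of_subset_of_nonneg
    · exact Finset.Icc_subset_Icc_right (Nat.floor_mono hxy)
    · intro i _ _; exact hf i
  have hSmeas : Measurable S := hSmono.measurable
  have hS0 : ∀ x, 0 ≤ S x := fun x => Finset.sum_nonneg fun i _ => hf i
  set H : ℝ → ℝ := fun t => if 0 ≤ t then S (Real.exp t) * Real.exp (-t) else 0 with hH
  have hHm : Measurable H := by
    apply Measurable.ite measurableSet_Ici _ measurable_const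
    exact (hSmeas.comp Real.measurable_exp).mul (by fun_prop)
  have hC0 : 0 ≤ C := by
    have := (hS0 1).trans (hC 1 zero_le_one)
    simpa using this
  have hH0 : ∀ t, 0 ≤ H t := by
    intro t
    simp only [hH]
    split_ifs
    · exact mul_nonneg (hS0 _) (exp_pos _).le
    · exact le_rfl
  have hHC : ∀ t, H t ≤ C := by
    intro t
    simp only [hH]
    split_ifs
    · have := hC (Real.exp t) (exp_pos t).le
      calc S (Real.exp t) * Real.exp (-t) ≤ C * Real.exp t * Real.exp (-t) :=
            mul_le_mul_of_nonneg_right this (exp_pos _).le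
        _ = C := by rw [mul_assoc, ← Real.exp_add]; simp
    · exact hC0
  have hmono : ∀ s t, 0 ≤ s → s ≤ t → Real.exp s * H s ≤ Real.exp t * H t := by
    intro s t hs hst
    simp only [hH, if_pos hs, if_pos (hs.trans hst)]
    have h1 : ∀ t : ℝ, Real.exp t * (S (Real.exp t) * Real.exp (-t)) = S (Real.exp t) := by
      intro t
      have : Real.exp t * Real.exp (-t) = 1 := by rw [← Real.exp_add]; simp
      calc _ = (Real.exp t * Real.exp (-t)) * S (Real.exp t) := by ring
        _ = _ := by rw [this, one_mul]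
    rw [h1, h1]
    exact hSmono (Real.exp_le_exp.mpr hst)
  have hO : (fun n : ℕ => ∑ k ∈ Finset.Icc 1 n, f k) =O[atTop] fun n => (n : ℝ) ^ (1:ℝ) := by
    apply Asymptotics.IsBigO.of_bound C
    filter_upwards with n
    rw [Real.norm_of_nonneg (Finset.sum_nonneg fun i _ => hf i), Real.rpow_one, Real.norm_natCast]
    have := hC n (Nat.cast_nonneg n)
    simpa using this
  have hg : ∀ z : ℂ, 0 < z.re →
      ∫ t in Ioi (0:ℝ), ((H t - A : ℝ) : ℂ) * Complex.exp (-z * t) = (G (1 + z) - A) / (1 + z) := by
    intro z hz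
    have hs : (1:ℝ) < (1 + z).re := by simpa using hz
    have hz0 : z ≠ 0 := by rintro rfl; simp at hz
    have hs0 : (1 + z) ≠ 0 := by
      intro h
      have := congrArg Complex.re h
      simp at this
      linarith
    have h1 := LSeries_eq_mul_integral_of_nonneg f zero_le_one hs hO hf
    have h2 := integral_comp_exp_Ioi (fun y : ℝ => (S y : ℂ) * (y : ℂ) ^ (-((1 + z) + 1))) 0
    rw [Real.exp_zero] at h2
    have h3 : ∫ t in Ioi (1:ℝ), (S t : ℂ) * (t : ℂ) ^ (-((1 + z) + 1)) =
        LSeries (fun n => (f n : ℂ)) (1 + z) / (1 + z) := by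
      rw [h1]
      simp only [hS]
      push_cast
      field_simp
    rw [← h2] at h3
    have h4 : ∫ t in Ioi (0:ℝ), ((H t : ℝ) : ℂ) * Complex.exp (-z * t) =
        LSeries (fun n => (f n : ℂ)) (1 + z) / (1 + z) := by
      rw [← h3]
      apply setIntegral_congr_fun measurableSet_Ioi
      intro t ht
      have ht0 : (0:ℝ) ≤ t := (mem_Ioi.mp ht).le
      simp only [hH, if_pos ht0]
      rw [Complex.real_smul, Complex.ofReal_exp, ← Complex.exp_log (Complex.exp_ne_zero t)]
      rw [Complex.exp_log (Complex.exp_ne_zero t)]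
      have h5 : (Complex.exp (t:ℂ)) ^ (-((1 + z) + 1)) = Complex.exp (-((1 + z) + 1) * t) := by
        rw [Complex.cpow_def_of_ne_zero (Complex.exp_ne_zero _), ← Complex.ofReal_exp,
          ← Complex.ofReal_log (exp_pos t).le, Real.log_exp]
        congr 1; ring
      rw [h5]
      push_cast
      have h6 : Complex.exp (-((1 + z) + 1) * t) = Complex.exp (-t) * Complex.exp (-z * t) *
          Complex.exp (-t) := by
        rw [← Complex.exp_add, ← Complex.exp_add]; congr 1; ring
      have h7 : Complex.exp t * Complex.exp (-t) = 1 := by rw [← Complex.exp_add]; simp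
      rw [h6]
      calc _ = (Complex.exp t * Complex.exp (-t)) *
            ((S (Real.exp t) : ℂ) * Complex.exp (-(t:ℂ)) * Complex.exp (-z * t)) := by rw [h7, one_mul]
        _ = _ := by ring
    have h8 : ∫ t in Ioi (0:ℝ), Complex.exp (-z * t) = 1 / z := by
      rw [integral_exp_mul_complex_Ioi (by simpa using hz)]
      simp
    have hexp_int : IntegrableOn (fun t : ℝ => Complex.exp (-z * t)) (Ioi (0:ℝ)) :=
      integrableOn_exp_mul_complex_Ioi (by simpa using hz) 0
    have h9 : ∀ t : ℝ, ((H t - A : ℝ) : ℂ) * Complex.exp (-z * t) =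
        ((H t : ℝ) : ℂ) * Complex.exp (-z * t) - A * Complex.exp (-z * t) := by
      intro t; push_cast; ring
    simp_rw [h9]
    rw [integral_sub, integral_const_mul, h4, h8, ← hG (1 + z) hs]
    · have h11 : (1 + z - 1) = z := by ring
      rw [h11]
      field_simp
      ring
    · apply Integrable.bdd_mul (c := C) hexp_int
      · exact (Complex.measurable_ofReal.comp hHm).aestronglyMeasurable
      · filter_upwards with t
        rw [Complex.norm_real, Real.norm_of_nonneg (hH0 t)]
        exact hHC t
    · exact hexp_int.const_mul _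
  have hgc : ContinuousOn (fun z : ℂ => (G (1 + z) - A) / (1 + z)) {z | 0 ≤ z.re} := by
    apply ContinuousOn.div
    · apply ContinuousOn.sub _ continuousOn_const
      apply hGc.comp (by fun_prop)
      intro z hz
      simp only [mem_ofPred_eq] at hz ⊢
      simpa using hz
    · fun_prop
    · intro z hz h
      simp only [mem_ofPred_eq] at hz
      have := congrArg Complex.re h
      simp at this
      linarith
  have hfin := tauberian hHm hH0 hHC hmono hgc hg
  have h10 := hfin.comp Real.tendsto_log_atTop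
  refine h10.congr' ?_
  filter_upwards [eventually_ge_atTop 1] with x hx
  have hx0 : 0 < x := by linarith
  simp only [Function.comp_apply, hH, if_pos (Real.log_nonneg hx), Real.exp_log hx0, Real.exp_neg]
  rw [div_eq_mul_inv]

end Pool.Agent.Helper6
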